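import Pool.Agent.TRS.Cram

/-!
# TRS-Elim
Elimination of one variable: `cram` applied to the matrix with rows `a : Fin (D + E + 1)` and columns
`(i, t) : ι × Fin (E + 1)` whose entries are the coefficients of `X ^ a` in `X ^ t * f i`, with the
weights `z ^ a`.
-/

set_option autoImplicit false

namespace TRS

open Matrix Module Polynomial

private lemma elim_coeff {L : Type*} [Field L] (p q : L[X]) (E a : ℕ) (hp : p.natDegree ≤ E) :
    (p * q).coeff a = ∑ t : Fin (E + 1), (if (t : ℕ) ≤ a then q.coeff (a - t) else 0) * p.coeff t := by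
  conv_lhs => rw [p.as_sum_range' (E + 1) (by omega), Finset.sum_mul, finsetSum_coeff]
  rw [Finset.sum_range]
  refine Finset.sum_congr rfl fun t _ => ?_
  rw [← C_mul_X_pow_eq_monomial, mul_assoc, coeff_C_mul, coeff_X_pow_mul', mul_comm]

private lemma elim_eval {R K : Type*} [CommRing R] [CommRing K] (ψ : R →+* K) (z : K) (p : R[X])
    (t n : ℕ) (hp : t + p.natDegree < n) :
    ∑ a : Fin n, z ^ (a : ℕ) * ψ (if t ≤ (a : ℕ) then p.coeff (a - t) else 0) =
      z ^ t * p.eval₂ ψ z := by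
  have h1 : (X ^ t * p).eval₂ ψ z = z ^ t * p.eval₂ ψ z := by
    rw [eval₂_mul, eval₂_X_pow]
  have h2 : (X ^ t * p).natDegree < n := by
    refine lt_of_le_of_lt ?_ hp
    refine natDegree_mul_le.trans (Nat.add_le_add_right ?_ _)
    exact natDegree_X_pow_le t
  rw [← h1, eval₂_eq_sum_range' ψ h2 z, Finset.sum_range]
  refine Finset.sum_congr rfl fun a _ => ?_
  rw [coeff_X_pow_mul', mul_comm]

theorem elim {R L : Type*} [CommRing R] [Field L] (φ : R →+* L) {ι : Type*} [Fintype ι]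
    [DecidableEq ι] (f : ι → R[X]) (g : R[X]) (D E : ℕ) (hf : ∀ i, (f i).natDegree ≤ D)
    (hg : g.natDegree ≤ D + E) (c : ι → L[X]) (hc : ∀ i, (c i).natDegree ≤ E)
    (hcg : ∑ i, c i * (f i).map φ = g.map φ) :
    ∃ (k : ℕ) (M : Matrix (Fin k) (Fin k) R), k ≤ D + E + 1 ∧
      (∀ a b, M a b = 0 ∨ ∃ i t, M a b = (f i).coeff t) ∧ φ M.det ≠ 0 ∧
      ∀ {K : Type*} [CommRing K] (ψ : R →+* K) (z : K), (∀ r, φ r = 0 → ψ r = 0) →
        (∀ i, (f i).eval₂ ψ z = 0) → ψ M.det * g.eval₂ ψ z = 0 := by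
  obtain ⟨k, i, j, hk, hdet, hcr⟩ := cram φ
    (m := Fin (D + E + 1)) (n := ι × Fin (E + 1))
    (Matrix.of fun a d => if (d.2 : ℕ) ≤ (a : ℕ) then (f d.1).coeff (a - d.2) else 0)
    (fun a => g.coeff a) (fun d => (c d.1).coeff d.2) (fun a => by
      have h1 := congrArg (fun p => p.coeff (a : ℕ)) hcg
      simp only [finsetSum_coeff, coeff_map] at h1
      rw [← h1, Fintype.sum_prod_type]
      refine Finset.sum_congr rfl fun i _ => ?_
      rw [elim_coeff _ _ E a (hc i)]
      refine Finset.sum_congr rfl fun t _ => ?_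
      rw [coeff_map, of_apply]
      by_cases h : (t : ℕ) ≤ (a : ℕ)
      · rw [if_pos h, if_pos h]
      · rw [if_neg h, if_neg h, map_zero])
  refine ⟨k, _, ?_, ?_, hdet, ?_⟩
  · rwa [Fintype.card_fin] at hk
  · intro a b
    by_cases h : ((j b).2 : ℕ) ≤ (i a : ℕ)
    · right
      exact ⟨(j b).1, (i a : ℕ) - (j b).2, if_pos h⟩
    · left
      exact if_neg h
  · intro K _ ψ z hψ hz
    have h2 := hcr ψ hψ (fun a => z ^ (a : ℕ)) (fun d => by
      simp only [of_apply]
      rw [elim_eval ψ z (f d.1) d.2 (D + E + 1) (by have := hf d.1; have := d.2.2; omega), hz, mul_zero])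
    have h3 := eval₂_eq_sum_range' ψ (show g.natDegree < D + E + 1 by omega) z
    rw [Finset.sum_range] at h3
    have h4 : g.eval₂ ψ z = ∑ a : Fin (D + E + 1), z ^ (a : ℕ) * ψ (g.coeff a) := by
      rw [h3]
      exact Finset.sum_congr rfl fun a _ => mul_comm _ _
    rw [h4]
    exact h2

end TRS
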