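import Pool.Agent.TRS.Defs
import Pool.Agent.Helper72.TV.Main
import Pool.Agent.Helper72.PT.Main2
import Pool.Agent.Helper72.PT.FinalX2
import Pool.Agent.Helper72.PT.FinalE
import Pool.Agent.Helper72.PT.Descent
import Pool.Agent.Helper72.PF.EscG

/-!
# TRS-Dia (1.2h)
From growth of a ball to the diameter. PLAN. This is `good_b` of `Helper72/PF/Final.lean` with `⌊c log q⌋` replaced by an arbitrary `n ≤ log |G|`. `C1` from `ptMain2`, `C2` from `TV.main 2 le_rfl`, `C3` from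
`finalE` (exponent 9 for ALL generating sets). Case 1: `n < C1` or `card F < 96 ^ 6` (then `n ≤ log |G| ≤ 4 log (96 ^ 6)`, `card_sl_le`): `n ^ 8` is bounded and `finalE` suffices. Case 2: `n ≥ C1`, `card F ≥ 96 ^ 6`: copy `good_b`:
the root group over the subfield `EF` with words of length `n₁ ≤ C1 * (4 N n) * (log |G| / log (ball S (4 N n))) ^ 9 ≤ C1 * (4 N n) * (log |G| / (n log 2)) ^ 9`, `finrank ≤ 6`, so length
`≤ 6 * C2 * n₁ ≤ 24 * C1 * C2 * N / (log 2) ^ 9 * (log |G|) ^ 9 / n ^ 8`. (The condition `C1 ≤ ball` etc. follows from `n < 2 ^ n`, `C1 ≤ n`.)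
-/

set_option autoImplicit false

namespace TRS

open Matrix Module Polynomial Pool.Agent.Helper72.TV Pool.Agent.Helper72.PT Pool.Agent.Helper72.PF

/-- the diameter bound for large `n` and large fields -/
private theorem good_n (C1 : ℕ) (hC1 : 16 ≤ C1)
    (hpt : ∀ (K : Type) [Field K] [IsAlgClosed K] (S : Set (SL2 K))
      (n₀ : ℕ), (Subgroup.closure S : Set (SL2 K)).Finite →
      C1 ≤ Nat.card (Subgroup.closure S) → Esc S 16 → C1 ≤ n₀ → C1 ≤ ball S n₀ →
      (∃ g ∈ Words S (2 * n₀), tr g ^ 2 ≠ 4) →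
      ∃ (w : Fin 2 → K) (Eu : Subfield K), w ≠ 0 ∧ (Eu : Set K).Finite ∧
        (∀ x : K, (∃ g ∈ Subgroup.closure S, (g : Matrix (Fin 2) (Fin 2) K) =
          1 + x • Matrix.vecMulVec w (hat w)) ↔ x ∈ Eu) ∧
        Nat.card (Subgroup.closure S) ≤ 96 ^ 3 * Nat.card Eu ^ 3 ∧
        ∃ n₁ : ℕ, (n₁ : ℝ) ≤ C1 * n₀ *
            (Real.log (Nat.card (Subgroup.closure S)) / Real.log (ball S n₀)) ^ 9 ∧
          ∀ x ∈ Eu, ∃ g ∈ Words S n₁, (g : Matrix (Fin 2) (Fin 2) K) =
            1 + x • Matrix.vecMulVec w (hat w))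
    (C2 : ℕ) (hmain : ∀ (k K : Type) [Field k] [Fintype k] [Field K] [Algebra k K]
      [FiniteDimensional k K], 5 ≤ Fintype.card k →
      ∀ (S : Set (Matrix.SpecialLinearGroup (Fin 2) K)), Subgroup.closure S = ⊤ →
      ∀ (v φ : Fin 2 → K), v ≠ 0 → φ ≠ 0 → φ ⬝ᵥ v = 0 → ∀ L : ℕ,
      (∀ x : k, ∃ g ∈ Words S L, (g : Matrix (Fin 2) (Fin 2) K) =
        1 + algebraMap k K x • Matrix.vecMulVec v φ) →
      ∀ g : Matrix.SpecialLinearGroup (Fin 2) K, g ∈ Words S (C2 * finrank k K * L))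
    (N : ℕ) (hN : 1 ≤ N) (F : Type) [Field F] [Fintype F] (hL2 : 96 ^ 6 ≤ Fintype.card F)
    (S : Set (SL2 F)) (hS : Subgroup.closure S = ⊤) (hreg : ∃ g ∈ Words S N, tr g ^ 2 ≠ 4)
    (n : ℕ) (hnC : C1 ≤ n) (hball : 2 ^ n ≤ ball S (4 * N * n)) (g : SL2 F) :
    ∃ m : ℕ, g ∈ Words S m ∧ (m : ℝ) ≤
      (24 * C1 * C2 * N / Real.log 2 ^ 9) * (Real.log (Nat.card (SL2 F)) ^ 9 / (n : ℝ) ^ 8) := by
  have hlog2 : 0 < Real.log 2 := Real.log_pos (by norm_num)
  have hC1' : (16 : ℝ) ≤ C1 := by exact_mod_cast hC1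
  set q := Fintype.card F with hq
  have hq1 : 1 ≤ q := by
    have : 1 ≤ 96 ^ 6 := by norm_num
    omega
  have hq' : (1 : ℝ) ≤ q := by exact_mod_cast hq1
  have hq0 : (0 : ℝ) < q := by linarith
  have hLq : 0 < Real.log q := by
    apply Real.log_pos
    have h1 : ((96 : ℝ) ^ 6) ≤ q := by exact_mod_cast hL2
    have h2 : (1 : ℝ) < 96 ^ 6 := by norm_num
    linarith
  have hn1 : 1 ≤ n := by omega
  have hfinG : Finite (SL2 F) := Finite.of_injective
    (fun g : SL2 F => (g : Matrix (Fin 2) (Fin 2) F)) Subtype.val_injective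
  have hfin : (Subgroup.closure S : Set (SL2 F)).Finite := Set.toFinite _
  have hcardS : Nat.card (Subgroup.closure S) = Nat.card (SL2 F) := by
    rw [hS]
    exact Subgroup.card_top
  have hballle : ball S (4 * N * n) ≤ Nat.card (SL2 F) := by
    rw [← hcardS]
    exact ball_le_card hfin _
  have hCn : C1 ≤ 2 ^ n := hnC.trans n.lt_two_pow_self.le
  -- over the algebraic closure
  set f : SL2 F →* SL2 (AlgebraicClosure F) :=
    Matrix.SpecialLinearGroup.map (algebraMap F (AlgebraicClosure F)) with hf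
  have hbm := ball_map (K := AlgebraicClosure F) S (4 * N * n)
  rw [← hf] at hbm
  have hfin' : (Subgroup.closure (f '' S) : Set (SL2 (AlgebraicClosure F))).Finite := by
    rw [← MonoidHom.map_closure, Subgroup.coe_map]
    exact hfin.image _
  have hesc : Esc (f '' S) 16 := escG (by
    rw [Nat.card_eq_fintype_card, ← hq]
    have : 100 ≤ 96 ^ 6 := by norm_num
    omega) S hS
  have hreg' : ∃ g ∈ Words (f '' S) (2 * (4 * N * n)), tr g ^ 2 ≠ 4 := by
    obtain ⟨g, hg, hg4⟩ := hreg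
    have hN2 : N ≤ 2 * (4 * N * n) := by nlinarith
    have hfg : f g ∈ Words (f '' S) (2 * (4 * N * n) * 1) :=
      map_mem_words f (fun z hz => mem_words_one (Set.mem_image_of_mem f hz)) (words_mono hN2 hg)
    rw [mul_one] at hfg
    refine ⟨f g, hfg, ?_⟩
    · have e1 : tr (f g) = algebraMap F (AlgebraicClosure F) (tr g) := by
        rw [tr_eq, tr_eq, map_add]
        rfl
      rw [e1, ← map_pow]
      intro h
      apply hg4
      apply (algebraMap F (AlgebraicClosure F)).injective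
      rw [h, map_ofNat]
  have hn0 : C1 ≤ 4 * N * n := by nlinarith
  obtain ⟨w, Eu, hw, hEufin, hiff, hcard, n₁, hn₁, hwords⟩ := hpt (AlgebraicClosure F) (f '' S)
    (4 * N * n) hfin' (by rw [hbm.2, hcardS]; exact (hCn.trans hball).trans hballle) hesc hn0
    (by rw [hbm.1]; exact hCn.trans hball) hreg'
  rw [hbm.2, hcardS] at hcard hn₁
  rw [hbm.1] at hn₁
  obtain ⟨v, ψ, EF, hv, hψ, hψv, hEFcard, hiffF, hwordsF⟩ := descent S w hw Eu hiff n₁ hwords
  have hGq : q ≤ Nat.card (SL2 F) := card_field_le_sl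
  have hcard' : q ≤ 96 ^ 3 * Nat.card EF ^ 3 := by
    rw [hEFcard]
    exact hGq.trans hcard
  have hfinEF : Finite EF := Subtype.finite
  have hEF5 : 5 ≤ Nat.card EF := by
    by_contra hcon
    push Not at hcon
    have h6 : Nat.card EF ^ 3 ≤ 4 ^ 3 := Nat.pow_le_pow_left (by omega) 3
    have h7 : 96 ^ 3 * Nat.card EF ^ 3 ≤ 96 ^ 3 * 4 ^ 3 := Nat.mul_le_mul_left _ h6
    have h8 : (96 : ℕ) ^ 3 * 4 ^ 3 < 96 ^ 6 := by norm_num
    omega
  have hfintypeEF : Fintype EF := Fintype.ofFinite EF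
  have hcardEF : Fintype.card EF = Nat.card EF := (Nat.card_eq_fintype_card).symm
  have hlogEF : 0 < Real.log (Nat.card EF) :=
    Real.log_pos (by exact_mod_cast (by omega : 1 < Nat.card EF))
  have hrank : (finrank EF F : ℝ) * Real.log (Nat.card EF) = Real.log q := by
    rw [← Real.log_pow]
    congr 1
    rw [hq, ← Nat.card_eq_fintype_card, Module.natCard_eq_pow_finrank (K := EF) (V := F)]
    push_cast
    rfl
  have hrank6 : (finrank EF F : ℝ) ≤ 6 := by
    have h1 : Real.log q ≤ 3 * Real.log 96 + 3 * Real.log (Nat.card EF) := by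
      have h2 : (q : ℝ) ≤ 96 ^ 3 * (Nat.card EF : ℝ) ^ 3 := by exact_mod_cast hcard'
      have h3 := Real.log_le_log hq0 h2
      have h0 : (0 : ℝ) < Nat.card EF := by exact_mod_cast (by omega : 0 < Nat.card EF)
      rw [Real.log_mul (by positivity) (by positivity), Real.log_pow, Real.log_pow] at h3
      push_cast at h3
      exact h3
    have h4 : 6 * Real.log 96 ≤ Real.log q := by
      have h5 : ((96 : ℝ) ^ 6) ≤ q := by exact_mod_cast hL2
      have h6 := Real.log_le_log (by positivity) h5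
      rw [Real.log_pow] at h6
      push_cast at h6
      exact h6
    have h7 : Real.log q ≤ 6 * Real.log (Nat.card EF) := by linarith
    rw [← hrank] at h7
    exact le_of_mul_le_mul_right h7 hlogEF
  have hwords2 : ∀ x : EF, ∃ g ∈ Words S n₁,
      (g : Matrix (Fin 2) (Fin 2) F) = 1 + algebraMap EF F x • Matrix.vecMulVec v ψ := by
    intro x
    exact hwordsF x x.2
  have hg := hmain EF F (by rw [hcardEF]; exact hEF5) S hS v ψ hv hψ hψv n₁ hwords2 g
  refine ⟨_, hg, ?_⟩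
  -- the numbers
  have hlogGq : Real.log q ≤ Real.log (Nat.card (SL2 F)) :=
    Real.log_le_log hq0 (by exact_mod_cast hGq)
  have hn0' : (0 : ℝ) < n := by exact_mod_cast (by omega : 0 < n)
  have hballlog : n * Real.log 2 ≤ Real.log (ball S (4 * N * n)) := by
    have h1 : ((2 : ℝ) ^ n) ≤ (ball S (4 * N * n) : ℝ) := by exact_mod_cast hball
    have h2 := Real.log_le_log (by positivity) h1
    rw [Real.log_pow] at h2
    exact h2
  have hnl : 0 < n * Real.log 2 := mul_pos hn0' hlog2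
  have hballlog0 : 0 < Real.log (ball S (4 * N * n)) := lt_of_lt_of_le hnl hballlog
  have hLG : 0 ≤ Real.log (Nat.card (SL2 F)) := hLq.le.trans hlogGq
  have hR : Real.log (Nat.card (SL2 F)) / Real.log (ball S (4 * N * n)) ≤
      Real.log (Nat.card (SL2 F)) / (n * Real.log 2) :=
    div_le_div_of_nonneg_left hLG hnl hballlog
  have hR0 : 0 ≤ Real.log (Nat.card (SL2 F)) / Real.log (ball S (4 * N * n)) :=
    div_nonneg hLG hballlog0.le
  have hn₁' : (n₁ : ℝ) ≤ C1 * (4 * N * n) *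
      (Real.log (Nat.card (SL2 F)) / (n * Real.log 2)) ^ 9 := by
    refine hn₁.trans ?_
    push_cast
    exact mul_le_mul_of_nonneg_left (pow_le_pow_left₀ hR0 hR 9) (by positivity)
  push_cast
  calc (C2 : ℝ) * (finrank EF F : ℝ) * (n₁ : ℝ)
      ≤ C2 * 6 * (C1 * (4 * N * n) * (Real.log (Nat.card (SL2 F)) / (n * Real.log 2)) ^ 9) := by
        refine mul_le_mul ?_ hn₁' (by positivity) (by positivity)
        exact mul_le_mul_of_nonneg_left hrank6 (by positivity)
    _ = (24 * C1 * C2 * N / Real.log 2 ^ 9) * (Real.log (Nat.card (SL2 F)) ^ 9 / (n : ℝ) ^ 8) := by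
        field_simp
        ring

theorem dia (N : ℕ) (hN : 1 ≤ N) : ∃ C : ℝ, 0 < C ∧ ∀ (F : Type) [Field F] [Fintype F]
    (S : Set (SL2 F)), Subgroup.closure S = ⊤ → (∃ g ∈ Words S N, tr g ^ 2 ≠ 4) →
    ∀ n : ℕ, 1 ≤ n → (n : ℝ) ≤ Real.log (Nat.card (SL2 F)) → 2 ^ n ≤ ball S (4 * N * n) →
    ∀ g : SL2 F, ∃ m : ℕ, g ∈ Words S m ∧
      (m : ℝ) ≤ C * (Real.log (Nat.card (SL2 F)) ^ 9 / (n : ℝ) ^ 8) := by
  obtain ⟨C1, hC1, hpt⟩ := ptMain2
  obtain ⟨C2, hC2, hmain⟩ := Pool.Agent.Helper72.TV.main 2 le_rfl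
  obtain ⟨C3, hC3, hfin⟩ := finalE
  have hlog2 : 0 < Real.log 2 := Real.log_pos (by norm_num)
  have hlog96 : 0 < Real.log 96 := Real.log_pos (by norm_num)
  have hC1' : (16 : ℝ) ≤ C1 := by exact_mod_cast hC1
  have hC10 : (0 : ℝ) < C1 := by linarith
  obtain ⟨D1, hD1⟩ : ∃ D1 : ℝ, D1 = C3 * (C1 : ℝ) ^ 8 := ⟨_, rfl⟩
  obtain ⟨D2, hD2⟩ : ∃ D2 : ℝ, D2 = C3 * (24 * Real.log 96) ^ 8 := ⟨_, rfl⟩
  obtain ⟨D3, hD3⟩ : ∃ D3 : ℝ, D3 = 24 * C1 * C2 * N / Real.log 2 ^ 9 := ⟨_, rfl⟩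
  have hD1' : 0 < D1 := by rw [hD1]; positivity
  have hD2' : 0 < D2 := by rw [hD2]; positivity
  have hD3' : 0 ≤ D3 := by rw [hD3]; positivity
  refine ⟨D1 + D2 + D3, by positivity, ?_⟩
  intro F _ _ S hS hreg n hn1 hnL hball g
  obtain ⟨L, hL⟩ : ∃ L : ℝ, L = Real.log (Nat.card (SL2 F)) := ⟨_, rfl⟩
  have hL0 : 0 ≤ L := by rw [hL]; exact Real.log_natCast_nonneg _
  have hn0 : (0 : ℝ) < n := by exact_mod_cast (by omega : 0 < n)
  have hLn : 0 ≤ L ^ 9 / (n : ℝ) ^ 8 := by positivity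
  by_cases hcase : C1 ≤ n ∧ 96 ^ 6 ≤ Fintype.card F
  · obtain ⟨m, hm, hle⟩ := good_n C1 hC1 hpt C2 hmain N hN F hcase.2 S hS hreg n hcase.1 hball g
    refine ⟨m, hm, hle.trans ?_⟩
    rw [← hL, ← hD3]
    exact mul_le_mul_of_nonneg_right (by linarith) hLn
  · obtain ⟨m, hm, hle⟩ := hfin F S hS g
    refine ⟨m, hm, hle.trans ?_⟩
    rw [← hL]
    have hkey : C3 * (n : ℝ) ^ 8 ≤ D1 + D2 + D3 := by
      by_cases h1 : C1 ≤ n
      · have h2 : ¬ 96 ^ 6 ≤ Fintype.card F := fun h => hcase ⟨h1, h⟩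
        have hq2 : 2 ≤ Fintype.card F := Fintype.one_lt_card
        have hq0 : (0 : ℝ) < Fintype.card F := by exact_mod_cast (by omega : 0 < Fintype.card F)
        have hGq : Fintype.card F ≤ Nat.card (SL2 F) := card_field_le_sl
        have h3 : (Nat.card (SL2 F) : ℝ) ≤ (Fintype.card F : ℝ) ^ 4 := by
          exact_mod_cast card_sl_le (F := F)
        have h4 : L ≤ 4 * Real.log (Fintype.card F) := by
          have h5 := Real.log_le_log (by
            have : 0 < Nat.card (SL2 F) := by omega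
            exact_mod_cast this) h3
          rw [Real.log_pow] at h5
          push_cast at h5
          rw [hL]
          exact h5
        have h6 : Real.log (Fintype.card F) ≤ 6 * Real.log 96 := by
          have h7 : (Fintype.card F : ℝ) ≤ 96 ^ 6 := by
            exact_mod_cast (by omega : Fintype.card F ≤ 96 ^ 6)
          have h8 := Real.log_le_log hq0 h7
          rw [Real.log_pow] at h8
          push_cast at h8
          exact h8
        have h9 : (n : ℝ) ≤ 24 * Real.log 96 := by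
          rw [← hL] at hnL
          linarith
        have h10 : C3 * (n : ℝ) ^ 8 ≤ D2 := by
          rw [hD2]
          exact mul_le_mul_of_nonneg_left (pow_le_pow_left₀ hn0.le h9 8) hC3.le
        linarith
      · have h2 : (n : ℝ) ≤ C1 := by exact_mod_cast (by omega : n ≤ C1)
        have h10 : C3 * (n : ℝ) ^ 8 ≤ D1 := by
          rw [hD1]
          exact mul_le_mul_of_nonneg_left (pow_le_pow_left₀ hn0.le h2 8) hC3.le
        linarith
    calc C3 * L ^ 9 = (C3 * (n : ℝ) ^ 8) * (L ^ 9 / (n : ℝ) ^ 8) := by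
          field_simp
      _ ≤ (D1 + D2 + D3) * (L ^ 9 / (n : ℝ) ^ 8) := mul_le_mul_of_nonneg_right hkey hLn

end TRS
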