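import Pool.Agent.TRS.Gd
import Pool.Agent.Helper72.PT.FinalX2

/-!
# TRS-Big: orders of `SL₂(F)` and `PGL₂(F)`

`sl_ge`: the matrices `!![a, b; c, (1 + b c) / a]`, `a ≠ 0`.  `card_pgl`: both groups have order
`|GL₂(F)| / (q - 1)`.
-/

set_option autoImplicit false

namespace TRS

open Matrix Module Pool.Agent.Helper72.TV Pool.Agent.Helper72.PT Pool.Agent.Helper72.PF
open scoped MatrixGroups

theorem sl_ge (F : Type) [Field F] [Fintype F] :
    Fintype.card F ^ 3 ≤ 2 * Nat.card (SL2 F) := by
  classical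
  have hfin : Finite (SL2 F) := Finite.of_injective
    (fun g : SL2 F => (g : Matrix (Fin 2) (Fin 2) F)) Subtype.val_injective
  have h1 : Nat.card (Fˣ × F × F) ≤ Nat.card (SL2 F) := by
    refine Nat.card_le_card_of_injective (fun p : Fˣ × F × F =>
      (⟨!![(p.1 : F), p.2.1; p.2.2, (1 + p.2.1 * p.2.2) / (p.1 : F)], by
        rw [Matrix.det_fin_two_of, mul_div_cancel₀ _ p.1.ne_zero]
        ring⟩ : SL2 F)) ?_
    rintro ⟨a, b, c⟩ ⟨a', b', c'⟩ h
    have h2 := congrArg Subtype.val h
    have e1 : (a : F) = a' := congrFun (congrFun h2 0) 0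
    have e2 : b = b' := congrFun (congrFun h2 0) 1
    have e3 : c = c' := congrFun (congrFun h2 1) 0
    rw [Units.ext e1, e2, e3]
  have h2 : Nat.card (Fˣ × F × F) = (Fintype.card F - 1) * Fintype.card F ^ 2 := by
    rw [Nat.card_prod, Nat.card_prod, Nat.card_units, Nat.card_eq_fintype_card]
    ring
  have h3 : 2 ≤ Fintype.card F := Fintype.one_lt_card
  rw [h2] at h1
  have h4 : Fintype.card F ≤ 2 * (Fintype.card F - 1) := by omega
  calc Fintype.card F ^ 3 = Fintype.card F * Fintype.card F ^ 2 := by ring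
    _ ≤ 2 * (Fintype.card F - 1) * Fintype.card F ^ 2 := Nat.mul_le_mul_right _ h4
    _ = 2 * ((Fintype.card F - 1) * Fintype.card F ^ 2) := by ring
    _ ≤ 2 * Nat.card (SL2 F) := Nat.mul_le_mul_left _ h1

private theorem card_gl_sl (F : Type) [Field F] [Fintype F] :
    Nat.card (GL (Fin 2) F) = Nat.card Fˣ * Nat.card (SL2 F) := by
  have hsurj : Function.Surjective (Matrix.GeneralLinearGroup.det : GL (Fin 2) F →* Fˣ) := by
    intro u
    have hdet : (!![(u : F), 0; 0, 1] : Matrix (Fin 2) (Fin 2) F).det ≠ 0 := by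
      rw [Matrix.det_fin_two_of]
      simp
    refine ⟨Matrix.GeneralLinearGroup.mkOfDetNeZero _ hdet, ?_⟩
    apply Units.ext
    rw [Matrix.GeneralLinearGroup.val_det_apply]
    show (!![(u : F), 0; 0, 1] : Matrix (Fin 2) (Fin 2) F).det = u
    rw [Matrix.det_fin_two_of]
    simp
  have hker : (Matrix.GeneralLinearGroup.det : GL (Fin 2) F →* Fˣ).ker =
      (Matrix.SpecialLinearGroup.toGL : SL2 F →* GL (Fin 2) F).range := by
    ext g
    rw [MonoidHom.mem_ker, MonoidHom.mem_range]
    constructor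
    · intro h
      have h1 : g.val.det = 1 := by
        have h2 := congrArg Units.val h
        rwa [Matrix.GeneralLinearGroup.val_det_apply] at h2
      refine ⟨⟨g.val, h1⟩, ?_⟩
      apply Units.ext
      rfl
    · rintro ⟨s, rfl⟩
      apply Units.ext
      rw [Matrix.GeneralLinearGroup.val_det_apply]
      exact s.2
  have h1 := Subgroup.card_eq_card_quotient_mul_card_subgroup
    (Matrix.GeneralLinearGroup.det : GL (Fin 2) F →* Fˣ).ker
  have h2 : Nat.card (GL (Fin 2) F ⧸ (Matrix.GeneralLinearGroup.det : GL (Fin 2) F →* Fˣ).ker) =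
      Nat.card Fˣ :=
    Nat.card_congr (QuotientGroup.quotientKerEquivOfSurjective _ hsurj).toEquiv
  rw [h1, h2, hker]
  congr 1
  exact (Nat.card_congr (MonoidHom.ofInjective
    (Matrix.SpecialLinearGroup.toGL_injective (n := Fin 2) (R := F))).toEquiv).symm

theorem card_pgl (F : Type) [Field F] [Fintype F] :
    Nat.card PGL(2, F) = Nat.card (SL2 F) := by
  have hinj : Function.Injective (Matrix.GeneralLinearGroup.scalar (Fin 2) : Fˣ →* GL (Fin 2) F) := by
    intro u v h
    have h1 := congrArg (fun g : GL (Fin 2) F => g.val 0 0) h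
    apply Units.ext
    simpa [Matrix.GeneralLinearGroup.coe_scalar, Matrix.scalar_apply] using h1
  have h1 := Subgroup.card_eq_card_quotient_mul_card_subgroup
    (Subgroup.center (GL (Fin 2) F))
  have h2 : Nat.card (Subgroup.center (GL (Fin 2) F)) = Nat.card Fˣ := by
    rw [Matrix.GeneralLinearGroup.center_eq_range_scalar]
    exact (Nat.card_congr (MonoidHom.ofInjective hinj).toEquiv).symm
  have h3 : Nat.card (GL (Fin 2) F ⧸ Subgroup.center (GL (Fin 2) F)) = Nat.card PGL(2, F) := rfl
  rw [h2, h3, card_gl_sl] at h1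
  have h4 : 0 < Nat.card Fˣ := Nat.card_pos
  rw [mul_comm] at h1
  exact (Nat.eq_of_mul_eq_mul_right h4 h1).symm

end TRS
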