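import Pool.Agent.TRS.Gd

/-!
# TRS-Sch (1.4h)
Schreier generators: from `PGL₂(F)` to `SL₂(F)`. PLAN. `P = range toPGL` is normal, and the product of two elements outside `P` is in `P` (`mk g ∈ P` iff `det g` is a square: `mk g = mk (h)` with `h = c⁻¹ g`, `c² = det g`;
in a finite field the product of two nonsquares is a square, `FiniteField.isSquare` lemmas, or: `Fˣ` is cyclic). `S' = {h | toPGL h ∈ Words S 3}`, `H = closure S'`, `Q = H.map toPGL`. `H` contains `ker toPGL` (`1 ∈ Words S 3`). If all letters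
`s ∈ S` lie in `P` then `closure S ≤ Q` (a letter is `toPGL h` with `h ∈ S'`), so `Q = ⊤` and `H = ⊤` as `ker ≤ H`. Otherwise fix `s₀ ∈ S`, `s₀ ∉ P`. Claim: for every `w ∈ closure S`: `w ∈ Q` or `w s₀⁻¹ ∈ Q`, by induction on words
(`exists_words_of_mem_closure` and lists, or `Subgroup.closure_induction_right`): multiply on the right by a letter `s` or `s⁻¹`, call it `t`. If `w ∈ Q`: `t ∈ P` gives `t ∈ Q`, `w t ∈ Q`; `t ∉ P` gives
`t s₀⁻¹ ∈ P ∩ Words S 2`, `w t s₀⁻¹ ∈ Q`. If `w = p s₀`, `p ∈ Q`: `t ∈ P`: `w t s₀⁻¹ = p (s₀ t s₀⁻¹) ∈ Q` (a word of length 3 in `P`); `t ∉ P`: `w t = p (s₀ t) ∈ Q`. Finally for `h ∈ SL₂(F)`: `toPGL h ∈ Q` gives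
`h ∈ H`; `toPGL h * s₀⁻¹ ∈ Q ≤ P` would give `s₀ ∈ P`. `sch2`: an element of `PGL₂(F)` is in `P`, or `s * g ∈ P` for some `s ∈ S`.
-/

set_option autoImplicit false

namespace TRS

open Matrix Module Pool.Agent.Helper72.TV Pool.Agent.Helper72.PT Pool.Agent.Helper72.PF
open scoped MatrixGroups

private theorem mem_P_of_sq {F : Type} [Field F] (g : GL (Fin 2) F) (c : Fˣ)
    (hc : c ^ 2 = Matrix.GeneralLinearGroup.det g) :
    Matrix.ProjGenLinGroup.mk g ∈
      (Matrix.SpecialLinearGroup.toPGL (n := Fin 2) (R := F)).range := by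
  have hdet : ((c⁻¹ : Fˣ) : F) ^ 2 * g.val.det = 1 := by
    have h1 : ((c ^ 2 : Fˣ) : F) = g.val.det := by
      rw [hc]
      rfl
    rw [← h1]
    push_cast
    rw [← mul_pow]
    simp
  have hd : (((c⁻¹ : Fˣ) : F) • g.val).det = 1 := by
    rw [Matrix.det_smul, Fintype.card_fin]
    exact hdet
  refine ⟨⟨((c⁻¹ : Fˣ) : F) • g.val, hd⟩, ?_⟩
  rw [MonoidHom.comp_apply, Matrix.ProjGenLinGroup.mk_eq_mk_iff]
  refine ⟨c, Units.ext ?_⟩
  rw [Units.val_mul, Matrix.GeneralLinearGroup.coe_scalar]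
  ext i j
  rw [Matrix.mul_apply]
  have : ((Matrix.SpecialLinearGroup.toGL (⟨((c⁻¹ : Fˣ) : F) • g.val, hd⟩ :
    Matrix.SpecialLinearGroup (Fin 2) F)) : Matrix (Fin 2) (Fin 2) F) = ((c⁻¹ : Fˣ) : F) • g.val := rfl
  rw [this]
  simp [Matrix.scalar_apply, Matrix.diagonal_apply]
  have hc0 : (c : F) ≠ 0 := c.ne_zero
  field_simp

private theorem sq_mul {F : Type} [Field F] [Finite F] (a b : Fˣ) (ha : ¬ ∃ c : Fˣ, c ^ 2 = a)
    (hb : ¬ ∃ c : Fˣ, c ^ 2 = b) : ∃ c : Fˣ, c ^ 2 = a * b := by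
  obtain ⟨g, hg⟩ := IsCyclic.exists_generator (α := Fˣ)
  obtain ⟨i, rfl⟩ := Subgroup.mem_zpowers_iff.1 (hg a)
  obtain ⟨j, rfl⟩ := Subgroup.mem_zpowers_iff.1 (hg b)
  have hi : ¬ Even i := by
    rintro ⟨k, hk⟩
    apply ha
    refine ⟨g ^ k, ?_⟩
    rw [hk, _root_.zpow_add, pow_two]
  have hj : ¬ Even j := by
    rintro ⟨k, hk⟩
    apply hb
    refine ⟨g ^ k, ?_⟩
    rw [hk, _root_.zpow_add, pow_two]
  rw [Int.not_even_iff_odd] at hi hj
  obtain ⟨k, hk⟩ := hi.add_odd hj
  refine ⟨g ^ k, ?_⟩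
  rw [← _root_.zpow_add, hk, _root_.zpow_add, pow_two]

private theorem mul_mem_P {F : Type} [Field F] [Finite F] {x y : PGL(2, F)}
    (hx : x ∉ (Matrix.SpecialLinearGroup.toPGL (n := Fin 2) (R := F)).range)
    (hy : y ∉ (Matrix.SpecialLinearGroup.toPGL (n := Fin 2) (R := F)).range) :
    x * y ∈ (Matrix.SpecialLinearGroup.toPGL (n := Fin 2) (R := F)).range := by
  obtain ⟨g, rfl⟩ := Matrix.ProjGenLinGroup.mk_surjective x
  obtain ⟨h, rfl⟩ := Matrix.ProjGenLinGroup.mk_surjective y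
  have hg : ¬ ∃ c : Fˣ, c ^ 2 = Matrix.GeneralLinearGroup.det g := by
    rintro ⟨c, hc⟩
    exact hx (mem_P_of_sq g c hc)
  have hh : ¬ ∃ c : Fˣ, c ^ 2 = Matrix.GeneralLinearGroup.det h := by
    rintro ⟨c, hc⟩
    exact hy (mem_P_of_sq h c hc)
  obtain ⟨c, hc⟩ := sq_mul _ _ hg hh
  rw [← map_mul] at hc
  rw [← map_mul]
  exact mem_P_of_sq _ c hc

theorem sch {F : Type} [Field F] [Finite F] (S : Set PGL(2, F)) (hS : Subgroup.closure S = ⊤) :
    Subgroup.closure {h : SL2 F | Matrix.SpecialLinearGroup.toPGL h ∈ Words S 3} = ⊤ := by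
  set S' : Set (SL2 F) := {h : SL2 F | Matrix.SpecialLinearGroup.toPGL h ∈ Words S 3} with hS'
  set H := Subgroup.closure S' with hH
  set P := (Matrix.SpecialLinearGroup.toPGL (n := Fin 2) (R := F)).range with hP
  set Q := H.map (Matrix.SpecialLinearGroup.toPGL (n := Fin 2) (R := F)) with hQ
  have hQP : ∀ x ∈ Q, x ∈ P := by
    rintro x ⟨h, _, rfl⟩
    exact ⟨h, rfl⟩
  have hPQ : ∀ x ∈ P, x ∈ Words S 3 → x ∈ Q := by
    rintro x ⟨h, rfl⟩ hx
    exact ⟨h, Subgroup.subset_closure hx, rfl⟩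
  have hQH : ∀ h : SL2 F, Matrix.SpecialLinearGroup.toPGL h ∈ Q → h ∈ H := by
    rintro h ⟨h', hh', he⟩
    have h1 : h'⁻¹ * h ∈ S' := by
      show Matrix.SpecialLinearGroup.toPGL (h'⁻¹ * h) ∈ Words S 3
      rw [map_mul, map_inv, he, inv_mul_cancel]
      exact one_mem_words 3
    have h2 := H.mul_mem hh' (Subgroup.subset_closure h1)
    rwa [mul_inv_cancel_left] at h2
  rw [eq_top_iff]
  intro h _
  by_cases hall : ∀ s ∈ S, s ∈ P
  · have h1 : Subgroup.closure S ≤ Q := by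
      rw [Subgroup.closure_le]
      intro s hs
      exact hPQ s (hall s hs) (words_mono (by norm_num) (mem_words_one hs))
    rw [hS] at h1
    exact hQH h (h1 (Subgroup.mem_top _))
  · push Not at hall
    obtain ⟨s₀, hs₀, hs₀P⟩ := hall
    have hs₀P' : s₀⁻¹ ∉ P := fun h => hs₀P (by simpa using P.inv_mem h)
    have hw₀ : s₀ ∈ Words S 1 := mem_words_one hs₀
    have step : ∀ w t, t ∈ Words S 1 → (w ∈ Q ∨ w * s₀⁻¹ ∈ Q) →
        (w * t ∈ Q ∨ w * t * s₀⁻¹ ∈ Q) := by
      intro w t ht hw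
      rcases hw with hw | hw
      · by_cases htP : t ∈ P
        · left
          exact Q.mul_mem hw (hPQ t htP (words_mono (by norm_num) ht))
        · right
          rw [mul_assoc]
          apply Q.mul_mem hw
          apply hPQ _ (mul_mem_P htP hs₀P')
          exact words_mono (by norm_num) (mul_mem_words ht (inv_mem_words hw₀))
      · by_cases htP : t ∈ P
        · right
          have e : w * t * s₀⁻¹ = (w * s₀⁻¹) * (s₀ * t * s₀⁻¹) := by group
          rw [e]
          apply Q.mul_mem hw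
          apply hPQ
          · apply mul_mem_P _ hs₀P'
            intro h2
            apply hs₀P
            have := P.mul_mem h2 (P.inv_mem htP)
            rwa [mul_inv_cancel_right] at this
          · exact words_mono (by norm_num)
              (mul_mem_words (mul_mem_words hw₀ ht) (inv_mem_words hw₀))
        · left
          have e : w * t = (w * s₀⁻¹) * (s₀ * t) := by group
          rw [e]
          apply Q.mul_mem hw
          apply hPQ _ (mul_mem_P hs₀P htP)
          exact words_mono (by norm_num) (mul_mem_words hw₀ ht)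
    have claim : ∀ w, w ∈ Subgroup.closure S → (w ∈ Q ∨ w * s₀⁻¹ ∈ Q) := by
      intro w hw
      induction hw using Subgroup.closure_induction_right with
      | one => exact Or.inl Q.one_mem
      | mul_right x _ y hy ih => exact step x y (mem_words_one hy) ih
      | mul_inv_cancel x _ y hy ih => exact step x y⁻¹ (inv_mem_words (mem_words_one hy)) ih
    rcases claim (Matrix.SpecialLinearGroup.toPGL h) (by rw [hS]; exact Subgroup.mem_top _) with h1 | h1
    · exact hQH h h1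
    · exfalso
      apply hs₀P'
      have h2 := hQP _ h1
      have h3 : Matrix.SpecialLinearGroup.toPGL h ∈ P := ⟨h, rfl⟩
      have h4 := P.mul_mem (P.inv_mem h3) h2
      rwa [inv_mul_cancel_left] at h4

theorem sch2 {F : Type} [Field F] [Finite F] (S : Set PGL(2, F)) (hS : Subgroup.closure S = ⊤)
    (g : PGL(2, F)) : (∃ h : SL2 F, Matrix.SpecialLinearGroup.toPGL h = g) ∨
      ∃ s ∈ S, ∃ h : SL2 F, Matrix.SpecialLinearGroup.toPGL h = s * g := by
  by_cases hg : g ∈ (Matrix.SpecialLinearGroup.toPGL (n := Fin 2) (R := F)).range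
  · left
    exact hg
  · right
    by_cases hall : ∀ s ∈ S, s ∈ (Matrix.SpecialLinearGroup.toPGL (n := Fin 2) (R := F)).range
    · exfalso
      apply hg
      have h1 : Subgroup.closure S ≤ (Matrix.SpecialLinearGroup.toPGL (n := Fin 2) (R := F)).range := by
        rw [Subgroup.closure_le]
        exact hall
      rw [hS] at h1
      exact h1 (Subgroup.mem_top _)
    · push Not at hall
      obtain ⟨s, hs, hsP⟩ := hall
      exact ⟨s, hs, mul_mem_P hsP hg⟩

end TRS
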