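import Pool.Agent.TRS.Defs

/-! # TRS: the final predicates -/

set_option autoImplicit false

namespace TRS

open Matrix Module Pool.Agent.Helper72.TV Pool.Agent.Helper72.PT Pool.Agent.Helper72.PF
open scoped MatrixGroups

/-- every element of `G` is a word of length at most `L` in `S` -/
def Short {G : Type} [Group G] (S : Set G) (L : ℝ) : Prop :=
  ∀ g : G, ∃ m : ℕ, g ∈ Words S m ∧ (m : ℝ) ≤ L

/-- The three parts of the theorem, for a group `G`, a function `χ` on `G`, a length `L` and a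
bound `M` for the sizes of the exceptional sets. -/
def Claim (G : Type) [Group G] {F : Type} (χ : G → F) (L M : ℝ) : Prop :=
  (∃ T : Finset F, (T.card : ℝ) ≤ M ∧
    ∀ S : Set G, Subgroup.closure S = ⊤ → (∃ s ∈ S, χ s ∉ T) → Short S L) ∧
  (∀ S : Set G, Subgroup.closure S = ⊤ →
    (({b : G | ¬Short (insert b S) L}.ncard : ℕ) : ℝ) ≤ M) ∧
  ∃ A : Set (Set G), ((A.ncard : ℕ) : ℝ) ≤ Nat.card G * M ∧
    (∀ B ∈ A, ((B.ncard : ℕ) : ℝ) ≤ M) ∧
    ∀ S : Set G, Subgroup.closure S = ⊤ → ¬Short S L → ∃ B ∈ A, S ⊆ B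

/-- the class function `(tr g)² / det g` on `PGL₂(F)` -/
noncomputable def chi (F : Type) [Field F] (g : PGL(2, F)) : F :=
  (Matrix.trace (Function.surjInv Matrix.ProjGenLinGroup.mk_surjective g :
    GL (Fin 2) F).val) ^ 2 /
    (Function.surjInv Matrix.ProjGenLinGroup.mk_surjective g : GL (Fin 2) F).val.det

theorem chi_mk (F : Type) [Field F] (g : GL (Fin 2) F) :
    chi F (Matrix.ProjGenLinGroup.mk g) = (Matrix.trace g.val) ^ 2 / g.val.det := by
  have h1 := Function.surjInv_eq (Matrix.ProjGenLinGroup.mk_surjective (n := Fin 2) (R := F))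
    (Matrix.ProjGenLinGroup.mk g)
  obtain ⟨u, hu⟩ := Matrix.ProjGenLinGroup.mk_eq_mk_iff.1 h1
  unfold chi
  generalize Function.surjInv (Matrix.ProjGenLinGroup.mk_surjective (n := Fin 2) (R := F))
    (Matrix.ProjGenLinGroup.mk g) = k at hu
  rw [← hu]
  have hu0 : (u : F) ≠ 0 := u.ne_zero
  have hk : k.val.det ≠ 0 := by
    have := (Matrix.isUnit_iff_isUnit_det _).1 k.isUnit
    exact this.ne_zero
  have e1 : (k * Matrix.GeneralLinearGroup.scalar (Fin 2) u).val = (u : F) • k.val := by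
    rw [Units.val_mul, Matrix.GeneralLinearGroup.coe_scalar]
    ext i j
    rw [Matrix.mul_apply]
    simp [Matrix.scalar_apply, Matrix.diagonal_apply, mul_comm]
  rw [e1, Matrix.trace_smul, Matrix.det_smul, Fintype.card_fin, smul_eq_mul]
  field_simp

end TRS
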