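import Pool.Agent.TRS.Scal
import Pool.Agent.TRS.Sch
import Pool.Agent.TRS.Gd

/-!
# TRS-TopP (1.1h)
Part (a) for `PGL₂(F)`, for short words. PLAN. `C₀`, `E₀` from `top` (or `scal` with `ℓ = 1`), `E = image (· + 2) E₀`. Given `S`, `ℓ`, `w = mk k` (`mk_surjective`), `chi F w = (tr k)² / det k ∉ E` (`chi_mk`). `S' = {h : SL2 F | toPGL h ∈ Words S (3 ℓ)}` generates
(`sch`, closure is monotone, `3 ≤ 3 ℓ`). The matrix `k² / det k` has determinant 1; the corresponding `h₀ : SL2 F` has `toPGL h₀ = w²` (scalars vanish in `PGL`), a word of length `2 ℓ ≤ 3 ℓ`, and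
trace `((tr k)² - 2 det k) / det k = chi F w - 2 ∉ E₀` (Cayley-Hamilton for 2 × 2 matrices). So every `h` is a word of length `m ≤ C₀ (log |G|)^9 / n^8` in `S'`, and `toPGL h` is a word of length `3 ℓ m` in `S` (`map_mem_words`). An arbitrary
`g : PGL(2, F)` is `toPGL h` or `s⁻¹ * toPGL h` (`sch2`): length `≤ 3 ℓ m + 1`, and `1 ≤ ℓ * (log |G|)^9 / n^8` since `n ≤ log |G|` and `1 ≤ n`. `C = 3 C₀ + 1`.
-/

set_option autoImplicit false

namespace TRS

open Matrix Module Pool.Agent.Helper72.TV Pool.Agent.Helper72.PT Pool.Agent.Helper72.PF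
open scoped MatrixGroups

private theorem tp_sq {F : Type} [Field F] (k : GL (Fin 2) F) :
    ∃ h : SL2 F, Matrix.SpecialLinearGroup.toPGL h = Matrix.ProjGenLinGroup.mk k ^ 2 ∧
      tr h = chi F (Matrix.ProjGenLinGroup.mk k) - 2 := by
  have hD : k.val.det ≠ 0 := by
    have := (Matrix.isUnit_iff_isUnit_det _).1 k.isUnit
    exact this.ne_zero
  have hdet : ((k.val.det)⁻¹ • (k.val * k.val)).det = 1 := by
    rw [Matrix.det_smul, Matrix.det_mul, Fintype.card_fin]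
    field_simp
  refine ⟨⟨(k.val.det)⁻¹ • (k.val * k.val), hdet⟩, ?_, ?_⟩
  · rw [pow_two, ← map_mul]
    show Matrix.ProjGenLinGroup.mk _ = Matrix.ProjGenLinGroup.mk _
    rw [Matrix.ProjGenLinGroup.mk_eq_mk_iff]
    refine ⟨Units.mk0 k.val.det hD, ?_⟩
    apply Units.ext
    rw [Units.val_mul, Matrix.GeneralLinearGroup.coe_scalar, Units.val_mul]
    show ((k.val.det)⁻¹ • (k.val * k.val)) * Matrix.scalar (Fin 2) (k.val.det) = k.val * k.val
    ext i j
    rw [Matrix.mul_apply]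
    simp only [Matrix.scalar_apply, Matrix.diagonal_apply, Matrix.smul_apply, smul_eq_mul, mul_ite,
      mul_zero, Finset.sum_ite_eq', Finset.mem_univ, if_true]
    field_simp
  · rw [chi_mk]
    show Matrix.trace ((k.val.det)⁻¹ • (k.val * k.val)) = _
    rw [Matrix.trace_smul, smul_eq_mul]
    have h1 : Matrix.trace (k.val * k.val) = (Matrix.trace k.val) ^ 2 - 2 * k.val.det := by
      rw [Matrix.det_fin_two, Matrix.trace_fin_two, Matrix.trace_fin_two, Matrix.mul_apply,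
        Matrix.mul_apply, Fin.sum_univ_two, Fin.sum_univ_two]
      ring
    rw [h1]
    field_simp

theorem topP : ∃ C : ℝ, 0 < C ∧ ∀ (F : Type) [Field F] [Fintype F] (n : ℕ), 1 ≤ n →
    (n : ℝ) ≤ Real.log (Nat.card (SL2 F)) → ∃ E : Finset F, E.card ≤ 2 ^ (48 * n) ∧
      ∀ S : Set PGL(2, F), Subgroup.closure S = ⊤ → ∀ (ℓ : ℕ) (w : PGL(2, F)), 1 ≤ ℓ →
      w ∈ Words S ℓ → chi F w ∉ E →
      Short S (C * ℓ * (Real.log (Nat.card (SL2 F)) ^ 9 / (n : ℝ) ^ 8)) := by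
  classical
  obtain ⟨C, hC, H⟩ := top
  refine ⟨3 * C + 1, by positivity, fun F _ _ n hn hnl => ?_⟩
  obtain ⟨E, hE, hS⟩ := H F n hn hnl
  refine ⟨E.image (fun x => x + 2), Finset.card_image_le.trans hE, ?_⟩
  intro S hgen ℓ w hl hw hchi g
  obtain ⟨k, rfl⟩ := Matrix.ProjGenLinGroup.mk_surjective w
  obtain ⟨h0, hh0, htr⟩ := tp_sq k
  set S' : Set (SL2 F) := {h : SL2 F | Matrix.SpecialLinearGroup.toPGL h ∈ Words S (3 * ℓ)} with hS'
  have hgen' : Subgroup.closure S' = ⊤ := by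
    rw [eq_top_iff, ← sch S hgen]
    refine Subgroup.closure_mono fun h hh => ?_
    exact words_mono (by omega) hh
  have hmem : ∃ s ∈ S', tr s ∉ E := by
    refine ⟨h0, ?_, fun hin => hchi ?_⟩
    · show Matrix.SpecialLinearGroup.toPGL h0 ∈ Words S (3 * ℓ)
      rw [hh0]
      exact words_mono (by omega) (pow_mem_words hw 2)
    · refine Finset.mem_image.2 ⟨tr h0, hin, ?_⟩
      rw [htr]
      ring
  have hX : (1 : ℝ) ≤ Real.log (Nat.card (SL2 F)) ^ 9 / (n : ℝ) ^ 8 := by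
    have hn1 : (1 : ℝ) ≤ n := by exact_mod_cast hn
    have hn0 : (0 : ℝ) < (n : ℝ) ^ 8 := by positivity
    rw [le_div_iff₀ hn0, one_mul]
    calc (n : ℝ) ^ 8 ≤ (n : ℝ) ^ 8 * n := le_mul_of_one_le_right hn0.le hn1
      _ = (n : ℝ) ^ 9 := by ring
      _ ≤ _ := pow_le_pow_left₀ (by linarith) hnl 9
  have hl1 : (1 : ℝ) ≤ ℓ := by exact_mod_cast hl
  have hbd : ∀ m : ℕ, (m : ℝ) ≤ C * (Real.log (Nat.card (SL2 F)) ^ 9 / (n : ℝ) ^ 8) →
      ((1 + m * (3 * ℓ) : ℕ) : ℝ) ≤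
        (3 * C + 1) * ℓ * (Real.log (Nat.card (SL2 F)) ^ 9 / (n : ℝ) ^ 8) := by
    intro m hm
    push_cast
    generalize Real.log (Nat.card (SL2 F)) ^ 9 / (n : ℝ) ^ 8 = X at hm hX
    have h1 : (m : ℝ) * (3 * ℓ) ≤ C * X * (3 * ℓ) := mul_le_mul_of_nonneg_right hm (by positivity)
    have h2 : (1 : ℝ) ≤ ℓ * X := by nlinarith
    nlinarith
  rcases sch2 S hgen g with ⟨h, rfl⟩ | ⟨s, hs, h, hh⟩
  · obtain ⟨m, hm, hmC⟩ := hS S' hgen' hmem h
    refine ⟨1 + m * (3 * ℓ), ?_, hbd m hmC⟩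
    exact words_mono (by omega) (map_mem_words Matrix.SpecialLinearGroup.toPGL (fun z hz => hz) hm)
  · obtain ⟨m, hm, hmC⟩ := hS S' hgen' hmem h
    refine ⟨1 + m * (3 * ℓ), ?_, hbd m hmC⟩
    have h1 := map_mem_words (S := S) Matrix.SpecialLinearGroup.toPGL (fun z hz => hz) hm
    have h2 : g = s⁻¹ * Matrix.SpecialLinearGroup.toPGL h := by
      rw [hh, inv_mul_cancel_left]
    rw [h2]
    exact mul_mem_words (inv_mem_words (mem_words_one hs)) h1

end TRS
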