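import Pool.Agent.TRS.Scal
import Pool.Agent.TRS.TopP
import Pool.Agent.TRS.Big
import Pool.Agent.TRS.Sch
import Pool.Agent.Helper72.PT.FinalE

/-! # TRS-Star: exceptional traces, final form -/

set_option autoImplicit false

namespace TRS

open Matrix Module Pool.Agent.Helper72.TV Pool.Agent.Helper72.PT Pool.Agent.Helper72.PF
open scoped MatrixGroups

/-- the statement on exceptional values of `χ` -/
def StarG (G : Type) [Group G] {F : Type} (χ : G → F) (C : ℝ) (n : ℕ) : Prop :=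
  ∃ T : Finset F, T.card < 2 ^ (49 * n) ∧ ∀ S : Set G, Subgroup.closure S = ⊤ →
    ∀ (ℓ : ℕ) (w : G), 1 ≤ ℓ → w ∈ Words S ℓ → χ w ∉ T →
      Short S (C * ℓ * (Real.log (Nat.card G) ^ 9 / ((n : ℝ) + 1) ^ 8))

private theorem one_le_log (F : Type) [Field F] [Fintype F] :
    1 ≤ Real.log (Nat.card (SL2 F)) := by
  have h1 := sl_ge F
  have h2 : 2 ≤ Fintype.card F := Fintype.one_lt_card
  have h3 : 2 ^ 3 ≤ Fintype.card F ^ 3 := Nat.pow_le_pow_left h2 3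
  have h4 : (3 : ℝ) ≤ Nat.card (SL2 F) := by exact_mod_cast (by omega : 3 ≤ Nat.card (SL2 F))
  rw [Real.le_log_iff_exp_le (by linarith)]
  have := Real.exp_one_lt_d9
  linarith

private theorem short_mono {G : Type} [Group G] {S : Set G} {L L' : ℝ} (h : Short S L)
    (hL : L ≤ L') : Short S L' := by
  intro g
  obtain ⟨m, hm, hle⟩ := h g
  exact ⟨m, hm, hle.trans hL⟩

/-- all generating sets of `PGL₂(F)`: exponent 9 -/
theorem allP : ∃ C : ℝ, 0 < C ∧ ∀ (F : Type) [Field F] [Fintype F] (S : Set PGL(2, F)),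
    Subgroup.closure S = ⊤ → Short S (C * Real.log (Nat.card (SL2 F)) ^ 9) := by
  obtain ⟨C, hC, h⟩ := finalE
  refine ⟨3 * C + 1, by positivity, ?_⟩
  intro F _ _ S hS g
  have hΛ := one_le_log F
  have hΛ9 : 1 ≤ Real.log (Nat.card (SL2 F)) ^ 9 := one_le_pow₀ hΛ
  have key : ∀ x : SL2 F, ∃ m : ℕ, Matrix.SpecialLinearGroup.toPGL x ∈ Words S m ∧
      (m : ℝ) ≤ 3 * C * Real.log (Nat.card (SL2 F)) ^ 9 := by
    intro x
    obtain ⟨m, hm, hle⟩ := h F _ (sch S hS) x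
    refine ⟨m * 3, map_mem_words Matrix.SpecialLinearGroup.toPGL (fun z hz => hz) hm, ?_⟩
    push_cast
    linarith
  rcases sch2 S hS g with ⟨x, rfl⟩ | ⟨s, hs, x, hx⟩
  · obtain ⟨m, hm, hle⟩ := key x
    exact ⟨m, hm, by nlinarith⟩
  · obtain ⟨m, hm, hle⟩ := key x
    refine ⟨1 + m, ?_, ?_⟩
    · have h1 := mul_mem_words (inv_mem_words (mem_words_one hs)) hm
      rw [hx, inv_mul_cancel_left] at h1
      exact h1
    · push_cast
      nlinarith

theorem starS : ∃ C : ℝ, 0 < C ∧ ∀ (F : Type) [Field F] [Fintype F] (n : ℕ),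
    (n : ℝ) ≤ Real.log (Nat.card (SL2 F)) →
    StarG (SL2 F) (fun g => (g : Matrix (Fin 2) (Fin 2) F).trace) C n := by
  obtain ⟨C1, hC1, h1⟩ := finalE
  obtain ⟨C2, hC2, h2⟩ := scal
  refine ⟨C1 + 256 * C2, by positivity, ?_⟩
  intro F _ _ n hn
  have hΛ := one_le_log F
  have hΛ9 : 0 ≤ Real.log (Nat.card (SL2 F)) ^ 9 := by positivity
  rcases Nat.eq_zero_or_pos n with rfl | hn1
  · refine ⟨∅, by simp, ?_⟩
    intro S hS ℓ w hℓ _ _ g
    obtain ⟨m, hm, hle⟩ := h1 F S hS g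
    refine ⟨m, hm, hle.trans ?_⟩
    have hℓ' : (1 : ℝ) ≤ ℓ := by exact_mod_cast hℓ
    simp only [Nat.cast_zero, zero_add, one_pow, div_one]
    apply mul_le_mul_of_nonneg_right _ hΛ9
    nlinarith
  · obtain ⟨E, hE, h3⟩ := h2 F n hn1 hn
    refine ⟨E, lt_of_le_of_lt hE (Nat.pow_lt_pow_right (by norm_num) (by omega)), ?_⟩
    intro S hS ℓ w hℓ hw hχ g
    obtain ⟨m, hm, hle⟩ := h3 S hS ℓ w hℓ hw hχ g
    refine ⟨m, hm, hle.trans ?_⟩
    have hn' : (1 : ℝ) ≤ n := by exact_mod_cast hn1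
    have hℓ' : (1 : ℝ) ≤ ℓ := by exact_mod_cast hℓ
    have h5 : Real.log (Nat.card (SL2 F)) ^ 9 / (n : ℝ) ^ 8 ≤
        256 * (Real.log (Nat.card (SL2 F)) ^ 9 / ((n : ℝ) + 1) ^ 8) := by
      rw [← mul_div_assoc, div_le_div_iff₀ (by positivity) (by positivity)]
      have h6 : ((n : ℝ) + 1) ^ 8 ≤ (2 * n) ^ 8 :=
        pow_le_pow_left₀ (by positivity) (by linarith) 8
      have h7 : ((2 : ℝ) * n) ^ 8 = 256 * (n : ℝ) ^ 8 := by ring
      calc Real.log (Nat.card (SL2 F)) ^ 9 * ((n : ℝ) + 1) ^ 8 ≤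
          Real.log (Nat.card (SL2 F)) ^ 9 * (256 * (n : ℝ) ^ 8) := by
            apply mul_le_mul_of_nonneg_left _ hΛ9
            rw [← h7]
            exact h6
        _ = _ := by ring
    have h8 : 0 ≤ Real.log (Nat.card (SL2 F)) ^ 9 / ((n : ℝ) + 1) ^ 8 := by positivity
    calc C2 * ℓ * (Real.log (Nat.card (SL2 F)) ^ 9 / (n : ℝ) ^ 8) ≤
        C2 * ℓ * (256 * (Real.log (Nat.card (SL2 F)) ^ 9 / ((n : ℝ) + 1) ^ 8)) :=
          mul_le_mul_of_nonneg_left h5 (by positivity)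
      _ = 256 * C2 * ℓ * (Real.log (Nat.card (SL2 F)) ^ 9 / ((n : ℝ) + 1) ^ 8) := by ring
      _ ≤ (C1 + 256 * C2) * ℓ * (Real.log (Nat.card (SL2 F)) ^ 9 / ((n : ℝ) + 1) ^ 8) := by
        apply mul_le_mul_of_nonneg_right _ h8
        apply mul_le_mul_of_nonneg_right _ (by positivity)
        linarith

theorem starP : ∃ C : ℝ, 0 < C ∧ ∀ (F : Type) [Field F] [Fintype F] (n : ℕ),
    (n : ℝ) ≤ Real.log (Nat.card PGL(2, F)) → StarG PGL(2, F) (chi F) C n := by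
  obtain ⟨C1, hC1, h1⟩ := allP
  obtain ⟨C2, hC2, h2⟩ := topP
  refine ⟨C1 + 256 * C2, by positivity, ?_⟩
  intro F _ _ n hn
  unfold StarG
  rw [card_pgl] at hn ⊢
  have hΛ := one_le_log F
  have hΛ9 : 0 ≤ Real.log (Nat.card (SL2 F)) ^ 9 := by positivity
  rcases Nat.eq_zero_or_pos n with rfl | hn1
  · refine ⟨∅, by simp, ?_⟩
    intro S hS ℓ w hℓ _ _
    refine short_mono (h1 F S hS) ?_
    have hℓ' : (1 : ℝ) ≤ ℓ := by exact_mod_cast hℓ
    simp only [Nat.cast_zero, zero_add, one_pow, div_one]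
    apply mul_le_mul_of_nonneg_right _ hΛ9
    nlinarith
  · obtain ⟨E, hE, h3⟩ := h2 F n hn1 hn
    refine ⟨E, lt_of_le_of_lt hE (Nat.pow_lt_pow_right (by norm_num) (by omega)), ?_⟩
    intro S hS ℓ w hℓ hw hχ
    refine short_mono (h3 S hS ℓ w hℓ hw hχ) ?_
    have hn' : (1 : ℝ) ≤ n := by exact_mod_cast hn1
    have hℓ' : (1 : ℝ) ≤ ℓ := by exact_mod_cast hℓ
    have h5 : Real.log (Nat.card (SL2 F)) ^ 9 / (n : ℝ) ^ 8 ≤
        256 * (Real.log (Nat.card (SL2 F)) ^ 9 / ((n : ℝ) + 1) ^ 8) := by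
      rw [← mul_div_assoc, div_le_div_iff₀ (by positivity) (by positivity)]
      have h6 : ((n : ℝ) + 1) ^ 8 ≤ (2 * n) ^ 8 :=
        pow_le_pow_left₀ (by positivity) (by linarith) 8
      have h7 : ((2 : ℝ) * n) ^ 8 = 256 * (n : ℝ) ^ 8 := by ring
      calc Real.log (Nat.card (SL2 F)) ^ 9 * ((n : ℝ) + 1) ^ 8 ≤
          Real.log (Nat.card (SL2 F)) ^ 9 * (256 * (n : ℝ) ^ 8) := by
            apply mul_le_mul_of_nonneg_left _ hΛ9
            rw [← h7]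
            exact h6
        _ = _ := by ring
    have h8 : 0 ≤ Real.log (Nat.card (SL2 F)) ^ 9 / ((n : ℝ) + 1) ^ 8 := by positivity
    calc C2 * ℓ * (Real.log (Nat.card (SL2 F)) ^ 9 / (n : ℝ) ^ 8) ≤
        C2 * ℓ * (256 * (Real.log (Nat.card (SL2 F)) ^ 9 / ((n : ℝ) + 1) ^ 8)) :=
          mul_le_mul_of_nonneg_left h5 (by positivity)
      _ = 256 * C2 * ℓ * (Real.log (Nat.card (SL2 F)) ^ 9 / ((n : ℝ) + 1) ^ 8) := by ring
      _ ≤ (C1 + 256 * C2) * ℓ * (Real.log (Nat.card (SL2 F)) ^ 9 / ((n : ℝ) + 1) ^ 8) := by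
        apply mul_le_mul_of_nonneg_right _ h8
        apply mul_le_mul_of_nonneg_right _ (by positivity)
        linarith

/-- the theorem on exceptional traces, for both groups -/
theorem star : ∃ C : ℝ, 0 < C ∧ ∀ (F : Type) [Field F] [Fintype F] (n : ℕ),
    ((n : ℝ) ≤ Real.log (Nat.card (SL2 F)) →
      StarG (SL2 F) (fun g => (g : Matrix (Fin 2) (Fin 2) F).trace) C n) ∧
    ((n : ℝ) ≤ Real.log (Nat.card PGL(2, F)) → StarG PGL(2, F) (chi F) C n) := by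
  obtain ⟨C1, hC1, h1⟩ := starS
  obtain ⟨C2, hC2, h2⟩ := starP
  have mono : ∀ (G : Type) [Group G] (F : Type) (χ : G → F) (C C' : ℝ) (n : ℕ), C ≤ C' →
      StarG G χ C n → StarG G χ C' n := by
    intro G _ F χ C C' n hC h
    obtain ⟨T, hT, h⟩ := h
    refine ⟨T, hT, fun S hS ℓ w hℓ hw hχ => short_mono (h S hS ℓ w hℓ hw hχ) ?_⟩
    have h8 : 0 ≤ Real.log (Nat.card G) ^ 9 / ((n : ℝ) + 1) ^ 8 := by
      have : 0 ≤ Real.log (Nat.card G) := Real.log_natCast_nonneg _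
      positivity
    apply mul_le_mul_of_nonneg_right _ h8
    apply mul_le_mul_of_nonneg_right hC (Nat.cast_nonneg _)
  exact ⟨max C1 C2, lt_max_of_lt_left hC1, fun F _ _ n =>
    ⟨fun hn => mono _ _ _ _ _ n (le_max_left _ _) (h1 F n hn),
      fun hn => mono _ _ _ _ _ n (le_max_right _ _) (h2 F n hn)⟩⟩

end TRS
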