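import Pool.Agent.TRS.Gd

/-!
# TRS-Abs (0.9h)
Parts (b) and (c) from part (a), abstract version. PLAN. (b) Let `S` generate, `u, v` from `h1`. If `insert b S` is not `Short` then, by the contrapositive of `ha` for `insert b S` (it
generates), all words of length `≤ 2 N + 1` in `insert b S` have `χ ∈ T`, in particular `b`, `u b`, `v b`, `u v b` (words in `S` are words in `insert b S`): `b` lies in the set of `h2`. (c) `A` = the set of
all `{g | χ g ∈ T ∧ χ (u g) ∈ T ∧ χ (v g) ∈ T ∧ χ (u v g) ∈ T}` for `(u, v)` in the set of `h3`: the image of that set under a function (`Set.ncard_image_le`). If `S` generates and is not `Short`, take `u, v` of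
`h1` for `S`: all words of length `≤ 2 N + 1` in `S` have `χ ∈ T`, so `(u, v)` is in the set of `h3` and `S` is contained in the member of `(u, v)`.
-/

set_option autoImplicit false

namespace TRS

open Matrix Module Pool.Agent.Helper72.TV Pool.Agent.Helper72.PT Pool.Agent.Helper72.PF
open scoped MatrixGroups

theorem absBC {G : Type} [Group G] [Finite G] {F : Type} (χ : G → F) (R : G → G → Prop)
    (T : Finset F) (N K : ℕ) (hN : 1 ≤ N) (L : ℝ)
    (ha : ∀ S : Set G, Subgroup.closure S = ⊤ → ∀ w ∈ Words S (2 * N + 1), χ w ∉ T → Short S L)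
    (h1 : ∀ S : Set G, Subgroup.closure S = ⊤ → ∃ u v, u ∈ Words S N ∧ v ∈ Words S N ∧ R u v)
    (h2 : ∀ u v, R u v → {g : G | χ g ∈ T ∧ χ (u * g) ∈ T ∧ χ (v * g) ∈ T ∧
      χ (u * v * g) ∈ T}.ncard ≤ K * T.card ^ 4)
    (h3 : {p : G × G | R p.1 p.2 ∧ χ p.1 ∈ T ∧ χ p.2 ∈ T ∧ χ (p.1 * p.2) ∈ T}.ncard ≤
      K * Nat.card G * T.card ^ 3) :
    (∀ S : Set G, Subgroup.closure S = ⊤ →
      {b : G | ¬Short (insert b S) L}.ncard ≤ K * T.card ^ 4) ∧
    ∃ A : Set (Set G), A.ncard ≤ K * Nat.card G * T.card ^ 3 ∧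
      (∀ B ∈ A, B.ncard ≤ K * T.card ^ 4) ∧
      ∀ S : Set G, Subgroup.closure S = ⊤ → ¬Short S L → ∃ B ∈ A, S ⊆ B := by
  have hmono : ∀ {S S' : Set G} (_ : S ⊆ S') (n : ℕ), Words S n ⊆ Words S' n := by
    intro S S' h n
    rintro g ⟨l, hl, h1, h2⟩
    exact ⟨l, hl, fun x hx => (h1 x hx).imp (fun h' => h h') (fun h' => h h'), h2⟩
  have hcl : ∀ (b : G) (S : Set G), Subgroup.closure S = ⊤ → Subgroup.closure (insert b S) = ⊤ := by
    intro b S hS
    rw [eq_top_iff, ← hS]
    exact Subgroup.closure_mono (Set.subset_insert b S)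
  -- the key inclusion
  have key : ∀ S : Set G, Subgroup.closure S = ⊤ → ¬Short S L → ∀ u v, u ∈ Words S N →
      v ∈ Words S N → ∀ g, g ∈ S → χ g ∈ T ∧ χ (u * g) ∈ T ∧ χ (v * g) ∈ T ∧ χ (u * v * g) ∈ T := by
    intro S hS hsh u v hu hv g hg
    have hall : ∀ w ∈ Words S (2 * N + 1), χ w ∈ T := by
      intro w hw
      by_contra hcon
      exact hsh (ha S hS w hw hcon)
    have hg1 : g ∈ Words S 1 := mem_words_one hg
    refine ⟨hall _ (words_mono (by omega) hg1), hall _ (words_mono (by omega) (mul_mem_words hu hg1)),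
      hall _ (words_mono (by omega) (mul_mem_words hv hg1)),
      hall _ (words_mono (by omega) (mul_mem_words (mul_mem_words hu hv) hg1))⟩
  refine ⟨?_, ?_⟩
  · intro S hS
    obtain ⟨u, v, hu, hv, hR⟩ := h1 S hS
    refine le_trans (Set.ncard_le_ncard ?_ (Set.toFinite _)) (h2 u v hR)
    intro b hb
    exact key (insert b S) (hcl b S hS) hb u v (hmono (Set.subset_insert b S) N hu)
      (hmono (Set.subset_insert b S) N hv) b (Set.mem_insert b S)
  · let bx : G × G → Set G := fun p => {g : G | χ g ∈ T ∧ χ (p.1 * g) ∈ T ∧ χ (p.2 * g) ∈ T ∧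
      χ (p.1 * p.2 * g) ∈ T}
    refine ⟨bx '' {p : G × G | R p.1 p.2 ∧ χ p.1 ∈ T ∧ χ p.2 ∈ T ∧ χ (p.1 * p.2) ∈ T}, ?_, ?_, ?_⟩
    · exact (Set.ncard_image_le (Set.toFinite _)).trans h3
    · rintro B ⟨p, hp, rfl⟩
      exact h2 p.1 p.2 hp.1
    · intro S hS hsh
      obtain ⟨u, v, hu, hv, hR⟩ := h1 S hS
      have hall : ∀ w ∈ Words S (2 * N + 1), χ w ∈ T := by
        intro w hw
        by_contra hcon
        exact hsh (ha S hS w hw hcon)
      refine ⟨bx (u, v), ⟨(u, v), ⟨hR, hall _ (words_mono (by omega) hu),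
        hall _ (words_mono (by omega) hv), hall _ (words_mono (by omega) (mul_mem_words hu hv))⟩,
        rfl⟩, ?_⟩
      intro g hg
      exact key S hS hsh u v hu hv g hg

end TRS
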