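import Pool.Agent.TRS.Exc
import Pool.Agent.Helper72.PF.Triple

/-!
# TRS-Bal (0.9h)
Growth of balls for generating sets containing an element with trace outside the exceptional set. PLAN. `N` from `triple`, `E` from `exc`. First part of `triple`: a regular element in
`Words S N`. Let `s ∈ S`, `tr s ∉ E`; `s ≠ 1`, `s ≠ -1` as matrices (their traces `2, -2` are in `E`). `triple` gives `a 0 ∈ Words S N` with `tr (a 0) ≠ 0`,
`tr (a 0 * s * (a 0)⁻¹ * s⁻¹) ≠ 2`, hence `tr (s * a 0 * s⁻¹ * (a 0)⁻¹) ≠ 2` (the inverse element, `tr_inv`, or `tr_comm` twice). `exc` gives a type `i`; the `2 ^ n` elements `evw s (a 0) (wd i l)`, `l` of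
length `n`, are different and in `Words S (4 N n)` (the letters are in `Words S N`, `wd_length`; see `badc_evw`, `badc_coin` in `Helper72/PF/BadCount.lean`).
-/

set_option autoImplicit false

namespace TRS

open Matrix Module Polynomial Pool.Agent.Helper72.TV Pool.Agent.Helper72.PT Pool.Agent.Helper72.PF

private theorem bal_lt {F : Type} [Field F] {S : Set (SL2 F)} {N : ℕ} (hN : 1 ≤ N)
    {a b : SL2 F} (ha : a ∈ S) (hb : b ∈ Words S N) (s : Fin 4) : lt a b s ∈ Words S N := by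
  have h2 : a ∈ Words S N := words_mono hN (mem_words_one ha)
  fin_cases s
  · exact h2
  · exact inv_mem_words h2
  · exact hb
  · exact inv_mem_words hb

private theorem bal_evw {F : Type} [Field F] {S : Set (SL2 F)} {N : ℕ} (hN : 1 ≤ N)
    {a b : SL2 F} (ha : a ∈ S) (hb : b ∈ Words S N) (w : List (Fin 4)) {m : ℕ} (hw : w.length ≤ m) :
    evw a b w ∈ Words S (m * N) := by
  have h := prod_mem_words (S := S) (L := N) (w.map (lt a b)) (by
    intro x hx
    rw [List.mem_map] at hx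
    obtain ⟨s, _, rfl⟩ := hx
    exact bal_lt hN ha hb s)
  rw [List.length_map] at h
  exact words_mono (Nat.mul_le_mul_right N hw) h

private theorem bal_ball {F : Type} [Field F] [Finite F] {S : Set (SL2 F)} {N n : ℕ}
    (hN : 1 ≤ N) {a b : SL2 F} (ha : a ∈ S) (hb : b ∈ Words S N) (k : Fin 6)
    (hk : ∀ l l' : List Bool, l.length = n → l'.length = n →
      evw a b (wd k l) = evw a b (wd k l') → l = l') : 2 ^ n ≤ ball S (4 * N * n) := by
  have hinj : Function.Injective (fun l : Fin n → Bool => evw a b (wd k (List.ofFn l))) := by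
    intro l l' h
    exact List.ofFn_injective (hk _ _ List.length_ofFn List.length_ofFn h)
  have hsub : Set.range (fun l : Fin n → Bool => evw a b (wd k (List.ofFn l))) ⊆
      Words S (4 * N * n) := by
    rintro g ⟨l, rfl⟩
    have h1 : (wd k (List.ofFn l)).length ≤ 4 * n := by
      have := wd_length k (List.ofFn l)
      rwa [List.length_ofFn] at this
    have h2 := bal_evw hN ha hb (wd k (List.ofFn l)) h1
    have h3 : 4 * n * N = 4 * N * n := by ring
    rwa [h3] at h2
  have h4 := Set.ncard_le_ncard hsub (Set.toFinite _)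
  have h5 : (Set.range (fun l : Fin n → Bool => evw a b (wd k (List.ofFn l)))).ncard = 2 ^ n := by
    rw [Set.ncard_range_of_injective hinj, Nat.card_eq_fintype_card, Fintype.card_fun,
      Fintype.card_bool, Fintype.card_fin]
  rw [h5] at h4
  exact h4

theorem bal : ∃ N : ℕ, 1 ≤ N ∧ ∀ (F : Type) [Field F] [Finite F], 100 ≤ Nat.card F →
    ∀ n : ℕ, 1 ≤ n → ∃ E : Finset F, E.card ≤ 2 ^ (48 * n) ∧ 2 ∈ E ∧ -2 ∈ E ∧
      ∀ S : Set (SL2 F), Subgroup.closure S = ⊤ →
        (∃ g ∈ Words S N, tr g ^ 2 ≠ 4) ∧ ∀ s ∈ S, tr s ∉ E → 2 ^ n ≤ ball S (4 * N * n) := by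
  obtain ⟨N, hN, hmain⟩ := triple
  refine ⟨N, hN, fun F _ _ hF n hn => ?_⟩
  obtain ⟨E, hE, _, h2, h2', hexc⟩ := exc F n hn
  refine ⟨E, hE, h2, h2', fun S hS => ?_⟩
  obtain ⟨hg, A, hA, _, htrip⟩ := hmain F hF S hS
  refine ⟨hg, fun s hs hsE => ?_⟩
  have hs1 : (s : Matrix (Fin 2) (Fin 2) F) ≠ 1 := by
    intro h
    apply hsE
    have h3 : tr s = 2 := by
      unfold tr
      rw [h, Matrix.trace_fin_two, Matrix.one_apply_eq, Matrix.one_apply_eq]
      norm_num
    rw [h3]
    exact h2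
  have hs2 : (s : Matrix (Fin 2) (Fin 2) F) ≠ -1 := by
    intro h
    apply hsE
    have h3 : tr s = -2 := by
      unfold tr
      rw [h, Matrix.trace_fin_two, Matrix.neg_apply, Matrix.neg_apply, Matrix.one_apply_eq,
        Matrix.one_apply_eq]
      norm_num
    rw [h3]
    exact h2'
  obtain ⟨a, ha, _⟩ := htrip s hs1 hs2
  obtain ⟨ha1, ha2, ha3⟩ := ha 0
  have ha4 : a 0 ∈ Words S N := hA ha1
  have hcomm : tr (s * a 0 * s⁻¹ * (a 0)⁻¹) ≠ 2 := by
    have e : s * a 0 * s⁻¹ * (a 0)⁻¹ = (a 0 * s * (a 0)⁻¹ * s⁻¹)⁻¹ := by group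
    rw [e, tr_inv]
    exact ha3
  obtain ⟨i, hi⟩ := hexc s (a 0) hsE ha2 hcomm
  exact bal_ball hN hs ha4 i hi

end TRS
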