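import Pool.Agent.TRS.Four

/-!
# TRS-Box (0.4h)
The set of elements with four traces in a given set. PLAN. The map `g ↦ (tr g, tr (u g), tr (v g), tr (u v g))` is injective (`four`) with values in `E⁴`.
-/

set_option autoImplicit false

namespace TRS

open Matrix Module Polynomial Pool.Agent.Helper72.TV Pool.Agent.Helper72.PT Pool.Agent.Helper72.PF

theorem box {F : Type} [Field F] [Finite F] (u v : SL2 F) (h : tr (u * v * u⁻¹ * v⁻¹) ≠ 2)
    (E : Finset F) :
    {g : SL2 F | tr g ∈ E ∧ tr (u * g) ∈ E ∧ tr (v * g) ∈ E ∧ tr (u * v * g) ∈ E}.ncard ≤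
      E.card ^ 4 := by
  have h1 := Set.ncard_le_ncard_of_injOn
    (s := {g : SL2 F | tr g ∈ E ∧ tr (u * g) ∈ E ∧ tr (v * g) ∈ E ∧ tr (u * v * g) ∈ E})
    (t := ((E ×ˢ E ×ˢ E ×ˢ E : Finset (F × F × F × F)) : Set (F × F × F × F)))
    (fun g : SL2 F => (tr g, tr (u * g), tr (v * g), tr (u * v * g)))
    (fun g hg => by
      simp only [Finset.coe_product, Set.mem_prod, Finset.mem_coe]
      exact hg)
    (fun g _ g' _ hgg => by
      simp only [Prod.mk.injEq] at hgg
      exact four u v h g g' hgg.1 hgg.2.1 hgg.2.2.1 hgg.2.2.2)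
    (Finset.finite_toSet _)
  rw [Set.ncard_coe_finset, Finset.card_product, Finset.card_product, Finset.card_product] at h1
  refine le_trans h1 (le_of_eq ?_)
  ring

end TRS
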