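import Pool.Agent.TRS.FourM
import Pool.Agent.TRS.Gd

/-!
# TRS-BoxP (1.2h)
The number of elements of `PGL₂(F)` with four values of `chi` in `T`. PLAN. Let `D ⊆ Fˣ` be `{1}` or `{1, ε}` such that every element of `Fˣ` is `c² d` with `d ∈ D` (`ε` a nonsquare if there is one; the product of two nonsquares in a finite field is a
square; index of squares `≤ 2`). Every `g : PGL(2, F)` has a representative `k : GL (Fin 2) F` with `det k ∈ D` (multiply by a scalar). Choose one for every `g` (`choose`). If `g` is in the set then with `d = det k`: `(tr k)², (tr (u k))², (tr (v k))²,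
(tr (u v k))²` lie in `d • T` (`chi_mk`, `toPGL u * mk k = mk (u k)`, determinant of `u k` is `det k`). The map `g ↦ (det k, tr k, tr (u k), tr (v k), tr (u v k))` is injective on the set (same determinant is not even needed: `fourM` applied to the difference of
the two representatives). For each `d` the set `{t : F | t² ∈ d • T}` has at most `2 |T|` elements (at most two roots for each value). So at most `2 * (2 |T|)⁴ = 32 |T|⁴`.
-/

set_option autoImplicit false

namespace TRS

open Matrix Module Pool.Agent.Helper72.TV Pool.Agent.Helper72.PT Pool.Agent.Helper72.PF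
open scoped MatrixGroups

/-- representatives of the units modulo squares -/
private theorem boxP_sq (F : Type) [Field F] [Finite F] : ∃ D : Finset F, D.card ≤ 2 ∧ (∀ d ∈ D, d ≠ 0) ∧
    ∀ a : F, a ≠ 0 → ∃ d ∈ D, ∃ c : F, c ≠ 0 ∧ a = c ^ 2 * d := by
  classical
  have := Fintype.ofFinite F
  by_cases h : ∀ a : F, a ≠ 0 → IsSquare a
  · refine ⟨{1}, by simp, by simp, fun a ha => ⟨1, by simp, ?_⟩⟩
    obtain ⟨c, hc⟩ := h a ha
    refine ⟨c, ?_, by rw [hc]; ring⟩
    rintro rfl
    exact ha (by rw [hc, mul_zero])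
  · push_neg at h
    obtain ⟨ε, hε, hεs⟩ := h
    refine ⟨{1, ε}, Finset.card_le_two, ?_, fun a ha => ?_⟩
    · intro d hd
      rw [Finset.mem_insert, Finset.mem_singleton] at hd
      rcases hd with rfl | rfl
      · exact one_ne_zero
      · exact hε
    by_cases has : IsSquare a
    · obtain ⟨c, hc⟩ := has
      refine ⟨1, by simp, c, ?_, by rw [hc]; ring⟩
      rintro rfl
      exact ha (by rw [hc, mul_zero])
    · have h1 : quadraticChar F (a * ε) = 1 := by
        rw [map_mul, quadraticChar_neg_one_iff_not_isSquare.2 has,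
          quadraticChar_neg_one_iff_not_isSquare.2 hεs]
        norm_num
      obtain ⟨s, hs⟩ := (quadraticChar_one_iff_isSquare (mul_ne_zero ha hε)).1 h1
      have hs0 : s ≠ 0 := by
        rintro rfl
        rw [mul_zero] at hs
        exact mul_ne_zero ha hε hs
      refine ⟨ε, by simp, s / ε, div_ne_zero hs0 hε, ?_⟩
      field_simp
      rw [hs]
      ring

/-- every element of `PGL₂(F)` has a representative with determinant in `D` -/
private theorem boxP_rep {F : Type} [Field F] {D : Finset F}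
    (hD : ∀ a : F, a ≠ 0 → ∃ d ∈ D, ∃ c : F, c ≠ 0 ∧ a = c ^ 2 * d) (g : PGL(2, F)) :
    ∃ k : GL (Fin 2) F, Matrix.ProjGenLinGroup.mk k = g ∧ k.val.det ∈ D := by
  obtain ⟨k, rfl⟩ := Matrix.ProjGenLinGroup.mk_surjective (n := Fin 2) (R := F) g
  have hk : k.val.det ≠ 0 := ((Matrix.isUnit_iff_isUnit_det _).1 k.isUnit).ne_zero
  obtain ⟨d, hd, c, hc, h⟩ := hD _ hk
  refine ⟨k * Matrix.GeneralLinearGroup.scalar (Fin 2) (Units.mk0 c hc)⁻¹, ?_, ?_⟩
  · symm
    rw [Matrix.ProjGenLinGroup.mk_eq_mk_iff]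
    exact ⟨(Units.mk0 c hc)⁻¹, rfl⟩
  · have e1 : (k * Matrix.GeneralLinearGroup.scalar (Fin 2) (Units.mk0 c hc)⁻¹).val =
        c⁻¹ • k.val := by
      rw [Units.val_mul, Matrix.GeneralLinearGroup.coe_scalar]
      ext i j
      rw [Matrix.mul_apply]
      simp [Matrix.scalar_apply, Matrix.diagonal_apply, mul_comm]
    rw [e1, Matrix.det_smul, Fintype.card_fin, h]
    have h2 : c⁻¹ ^ 2 * (c ^ 2 * d) = d := by
      field_simp
    rw [h2]
    exact hd

/-- the number of square roots -/
private theorem boxP_root {F : Type} [Field F] [Fintype F] [DecidableEq F] (T : Finset F) {d : F} (hd : d ≠ 0) :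
    (Finset.univ.filter fun t : F => t ^ 2 / d ∈ T).card ≤ 2 * T.card := by
  refine Finset.card_le_mul_card_image_of_maps_to (f := fun t : F => t ^ 2 / d)
    (fun t ht => (Finset.mem_filter.1 ht).2) 2 fun b _ => ?_
  rcases Finset.eq_empty_or_nonempty ((Finset.univ.filter fun t : F => t ^ 2 / d ∈ T).filter
    fun t => t ^ 2 / d = b) with h | ⟨t₀, h₀⟩
  · rw [h]
    simp
  · refine (Finset.card_le_card (t := {t₀, -t₀}) ?_).trans Finset.card_le_two
    intro t ht
    have h1 := (Finset.mem_filter.1 ht).2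
    have h2 := (Finset.mem_filter.1 h₀).2
    rw [← h2, div_left_inj' hd] at h1
    rw [Finset.mem_insert, Finset.mem_singleton]
    exact sq_eq_sq_iff_eq_or_eq_neg.1 h1

theorem boxP {F : Type} [Field F] [Finite F] (u v : SL2 F) (h : tr (u * v * u⁻¹ * v⁻¹) ≠ 2)
    (T : Finset F) :
    {g : PGL(2, F) | chi F g ∈ T ∧ chi F (Matrix.SpecialLinearGroup.toPGL u * g) ∈ T ∧
      chi F (Matrix.SpecialLinearGroup.toPGL v * g) ∈ T ∧
      chi F (Matrix.SpecialLinearGroup.toPGL u * Matrix.SpecialLinearGroup.toPGL v * g) ∈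
        T}.ncard ≤ 32 * T.card ^ 4 := by
  classical
  have := Fintype.ofFinite F
  obtain ⟨D, hD2, hD0, hD⟩ := boxP_sq F
  choose k hk hkD using boxP_rep (F := F) hD
  obtain ⟨R, hR⟩ : ∃ R : F → Finset F, R = fun d => Finset.univ.filter fun t : F => t ^ 2 / d ∈ T :=
    ⟨_, rfl⟩
  obtain ⟨U, hU⟩ : ∃ U : Finset (F × F × F × F), U = D.biUnion fun d => R d ×ˢ R d ×ˢ R d ×ˢ R d :=
    ⟨_, rfl⟩
  have hcard : U.card ≤ 32 * T.card ^ 4 := by
    rw [hU]
    refine Finset.card_biUnion_le.trans ?_
    calc ∑ d ∈ D, (R d ×ˢ R d ×ˢ R d ×ˢ R d).card ≤ ∑ d ∈ D, 16 * T.card ^ 4 := by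
          refine Finset.sum_le_sum fun d hd => ?_
          rw [Finset.card_product, Finset.card_product, Finset.card_product]
          have h1 : (R d).card ≤ 2 * T.card := by
            rw [hR]
            exact boxP_root T (hD0 d hd)
          calc (R d).card * ((R d).card * ((R d).card * (R d).card)) = (R d).card ^ 4 := by ring
            _ ≤ (2 * T.card) ^ 4 := Nat.pow_le_pow_left h1 4
            _ = 16 * T.card ^ 4 := by ring
      _ = D.card * (16 * T.card ^ 4) := by rw [Finset.sum_const, smul_eq_mul]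
      _ ≤ 2 * (16 * T.card ^ 4) := Nat.mul_le_mul_right _ hD2
      _ = 32 * T.card ^ 4 := by ring
  refine le_trans ?_ hcard
  rw [← Set.ncard_coe_finset]
  have hu : (u : Matrix (Fin 2) (Fin 2) F).det = 1 := u.prop
  have hv : (v : Matrix (Fin 2) (Fin 2) F).det = 1 := v.prop
  refine Set.ncard_le_ncard_of_injOn (fun g => ((k g).val.trace,
    ((u : Matrix (Fin 2) (Fin 2) F) * (k g).val).trace,
    ((v : Matrix (Fin 2) (Fin 2) F) * (k g).val).trace,
    ((u : Matrix (Fin 2) (Fin 2) F) * (v : Matrix (Fin 2) (Fin 2) F) * (k g).val).trace)) ?_ ?_ (Finset.finite_toSet U)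
  · rintro g ⟨h1, h2, h3, h4⟩
    have e1 : Matrix.SpecialLinearGroup.toPGL u * g =
        Matrix.ProjGenLinGroup.mk (Matrix.SpecialLinearGroup.toGL u * k g) := by
      rw [map_mul, hk]
      rfl
    have e2 : Matrix.SpecialLinearGroup.toPGL v * g =
        Matrix.ProjGenLinGroup.mk (Matrix.SpecialLinearGroup.toGL v * k g) := by
      rw [map_mul, hk]
      rfl
    have e3 : Matrix.SpecialLinearGroup.toPGL u * Matrix.SpecialLinearGroup.toPGL v * g =
        Matrix.ProjGenLinGroup.mk (Matrix.SpecialLinearGroup.toGL u *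
          Matrix.SpecialLinearGroup.toGL v * k g) := by
      rw [map_mul, map_mul, hk]
      rfl
    have e0 : g = Matrix.ProjGenLinGroup.mk (k g) := (hk g).symm
    have h1' : chi F (Matrix.ProjGenLinGroup.mk (k g)) ∈ T := by
      rw [hk]
      exact h1
    rw [e1] at h2
    rw [e2] at h3
    rw [e3] at h4
    rw [chi_mk] at h1' h2 h3 h4
    have f1 : (Matrix.SpecialLinearGroup.toGL u * k g).val =
        (u : Matrix (Fin 2) (Fin 2) F) * (k g).val := rfl
    have f2 : (Matrix.SpecialLinearGroup.toGL v * k g).val =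
        (v : Matrix (Fin 2) (Fin 2) F) * (k g).val := rfl
    have f3 : (Matrix.SpecialLinearGroup.toGL u * Matrix.SpecialLinearGroup.toGL v * k g).val =
        (u : Matrix (Fin 2) (Fin 2) F) * (v : Matrix (Fin 2) (Fin 2) F) * (k g).val := rfl
    rw [f1, Matrix.det_mul, hu, one_mul] at h2
    rw [f2, Matrix.det_mul, hv, one_mul] at h3
    rw [f3, Matrix.det_mul, Matrix.det_mul, hu, hv, one_mul, one_mul] at h4
    show _ ∈ (U : Set (F × F × F × F))
    rw [hU, Finset.mem_coe, Finset.mem_biUnion]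
    refine ⟨(k g).val.det, hkD g, ?_⟩
    rw [hR, Finset.mem_product, Finset.mem_product, Finset.mem_product]
    exact ⟨Finset.mem_filter.2 ⟨Finset.mem_univ _, h1'⟩, Finset.mem_filter.2 ⟨Finset.mem_univ _, h2⟩,
      Finset.mem_filter.2 ⟨Finset.mem_univ _, h3⟩, Finset.mem_filter.2 ⟨Finset.mem_univ _, h4⟩⟩
  · intro g _ g' _ hgg
    have h1 := (Prod.mk.injEq _ _ _ _).mp hgg
    have h2 := (Prod.mk.injEq _ _ _ _).mp h1.2
    have h3 := (Prod.mk.injEq _ _ _ _).mp h2.2
    have h4 := fourM u v h ((k g).val - (k g').val)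
      (by rw [Matrix.trace_sub, h1.1, sub_self])
      (by rw [Matrix.mul_sub, Matrix.trace_sub, h2.1, sub_self])
      (by rw [Matrix.mul_sub, Matrix.trace_sub, h3.1, sub_self])
      (by rw [Matrix.mul_sub, Matrix.trace_sub, h3.2, sub_self])
    have h5 : k g = k g' := Units.ext (sub_eq_zero.1 h4)
    rw [← hk g, ← hk g', h5]

end TRS
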