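import Pool.Agent.TRS.Defs
import Pool.Agent.Helper72.PF.Triple

/-!
# TRS-Irr (0.6h)
Short irreducible pairs. `triple` gives `g ∈ Words S N` with `tr g ^ 2 ≠ 4`, hence `g ≠ ±1`, and then `a 0 ∈ Words S N` with `tr [a 0, g] ≠ 2`.
-/

set_option autoImplicit false

namespace TRS

open Matrix Module Polynomial Pool.Agent.Helper72.TV Pool.Agent.Helper72.PT Pool.Agent.Helper72.PF

theorem irr : ∃ N : ℕ, 1 ≤ N ∧ ∀ (F : Type) [Field F] [Finite F], 100 ≤ Nat.card F →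
    ∀ S : Set (SL2 F), Subgroup.closure S = ⊤ →
      ∃ u v : SL2 F, u ∈ Words S N ∧ v ∈ Words S N ∧ tr (u * v * u⁻¹ * v⁻¹) ≠ 2 := by
  obtain ⟨N, hN1, hN⟩ := triple
  refine ⟨N, hN1, ?_⟩
  intro F _ _ hF S hS
  obtain ⟨⟨g, hg, ht⟩, A, hA, -, hb⟩ := hN F hF S hS
  have h1 : (g : Matrix (Fin 2) (Fin 2) F) ≠ 1 := by
    intro h
    apply ht
    unfold tr
    rw [h, Matrix.trace_one, Fintype.card_fin]
    norm_num
  have h2 : (g : Matrix (Fin 2) (Fin 2) F) ≠ -1 := by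
    intro h
    apply ht
    unfold tr
    rw [h, Matrix.trace_neg, Matrix.trace_one, Fintype.card_fin]
    norm_num
  obtain ⟨a, ha, -⟩ := hb g h1 h2
  exact ⟨a 0, g, hA (ha 0).1, hg, (ha 0).2.2⟩

end TRS
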