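import Pool.Agent.TRS.Prs
import Pool.Agent.TRS.Big

/-!
# TRS-PrsS (0.8h)
Number of pairs with traces in `T`. PLAN. The set is the union over `(x, y, z) ∈ T × T × T` with `kp x y z ≠ 0` of the sets of `pairCount` (`kp (tr u) (tr v) (tr (u v)) = tr [u, v] - 2` by
`tr_comm`), so `≤ |T|³ * 4 q³ ≤ 8 |G| |T|³` by `sl_ge`.
-/

set_option autoImplicit false

namespace TRS

open Matrix Module Pool.Agent.Helper72.TV Pool.Agent.Helper72.PT Pool.Agent.Helper72.PF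
open scoped MatrixGroups

private theorem prsS_finite (F : Type) [Field F] [Fintype F] : Finite (SL2 F) :=
  Finite.of_injective (fun g : SL2 F => (g : Matrix (Fin 2) (Fin 2) F)) Subtype.coe_injective

theorem prsS {F : Type} [Field F] [Fintype F] (T : Finset F) :
    {p : SL2 F × SL2 F | tr (p.1 * p.2 * p.1⁻¹ * p.2⁻¹) ≠ 2 ∧ tr p.1 ∈ T ∧ tr p.2 ∈ T ∧
      tr (p.1 * p.2) ∈ T}.ncard ≤ 8 * Nat.card (SL2 F) * T.card ^ 3 := by
  classical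
  have hf := prsS_finite F
  obtain ⟨I, hI⟩ : ∃ I : Finset (F × F × F),
      I = (T ×ˢ (T ×ˢ T)).filter (fun t => kp t.1 t.2.1 t.2.2 ≠ 0) := ⟨_, rfl⟩
  have hIc : I.card ≤ T.card ^ 3 := by
    rw [hI]
    refine (Finset.card_filter_le _ _).trans (le_of_eq ?_)
    rw [Finset.card_product, Finset.card_product]
    ring
  have h1 : {p : SL2 F × SL2 F | tr (p.1 * p.2 * p.1⁻¹ * p.2⁻¹) ≠ 2 ∧ tr p.1 ∈ T ∧ tr p.2 ∈ T ∧
      tr (p.1 * p.2) ∈ T} ⊆ ⋃ t ∈ I,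
        {p : SL2 F × SL2 F | tr p.1 = t.1 ∧ tr p.2 = t.2.1 ∧ tr (p.1 * p.2) = t.2.2} := by
    rintro ⟨a, b⟩ ⟨h2, h3, h4, h5⟩
    rw [Set.mem_iUnion₂]
    refine ⟨(tr a, tr b, tr (a * b)), ?_, rfl, rfl, rfl⟩
    rw [hI, Finset.mem_filter]
    refine ⟨Finset.mk_mem_product h3 (Finset.mk_mem_product h4 h5), fun h6 => h2 ?_⟩
    show tr (a * b * a⁻¹ * b⁻¹) = 2
    rw [tr_comm]
    have h7 : kp (tr a) (tr b) (tr (a * b)) = 0 := h6
    unfold kp at h7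
    linear_combination h7
  have h2 : (⋃ t ∈ I, {p : SL2 F × SL2 F | tr p.1 = t.1 ∧ tr p.2 = t.2.1 ∧
      tr (p.1 * p.2) = t.2.2}).ncard ≤ I.card * (4 * Fintype.card F ^ 3) := by
    refine (Finset.set_ncard_biUnion_le I _).trans ?_
    refine (Finset.sum_le_card_nsmul I _ (4 * Fintype.card F ^ 3) fun t ht => ?_).trans
      (le_of_eq (smul_eq_mul _ _))
    rw [hI, Finset.mem_filter] at ht
    exact pairCount t.1 t.2.1 t.2.2 ht.2
  have h3 := Set.ncard_le_ncard h1 (Set.toFinite _)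
  have h4 := sl_ge F
  calc _ ≤ I.card * (4 * Fintype.card F ^ 3) := h3.trans h2
    _ ≤ T.card ^ 3 * (4 * (2 * Nat.card (SL2 F))) :=
        Nat.mul_le_mul hIc (Nat.mul_le_mul_left _ h4)
    _ = 8 * Nat.card (SL2 F) * T.card ^ 3 := by ring

private theorem prsS_sq {F : Type} [Field F] [Fintype F] [DecidableEq F] (T : Finset F) :
    (Finset.univ.filter (fun x : F => x ^ 2 ∈ T)).card ≤ 2 * T.card := by
  refine Finset.card_le_mul_card_image_of_maps_to (f := fun x : F => x ^ 2)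
    (fun x hx => (Finset.mem_filter.1 hx).2) 2 fun t _ => ?_
  by_contra hc
  rw [not_le, Finset.two_lt_card] at hc
  obtain ⟨a, ha, b, hb, c, hc, hab, hac, hbc⟩ := hc
  have ha' : a ^ 2 = t := (Finset.mem_filter.1 ha).2
  have hb' : b ^ 2 = t := (Finset.mem_filter.1 hb).2
  have hc' : c ^ 2 = t := (Finset.mem_filter.1 hc).2
  have h1 := (sq_eq_sq_iff_eq_or_eq_neg.1 (ha'.trans hb'.symm)).resolve_left hab
  have h2 := (sq_eq_sq_iff_eq_or_eq_neg.1 (ha'.trans hc'.symm)).resolve_left hac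
  exact hbc (neg_injective (h1.symm.trans h2))

theorem prsSq {F : Type} [Field F] [Fintype F] (T : Finset F) :
    {p : SL2 F × SL2 F | tr (p.1 * p.2 * p.1⁻¹ * p.2⁻¹) ≠ 2 ∧ tr p.1 ^ 2 ∈ T ∧ tr p.2 ^ 2 ∈ T ∧
      tr (p.1 * p.2) ^ 2 ∈ T}.ncard ≤ 64 * Nat.card (SL2 F) * T.card ^ 3 := by
  classical
  have h1 := prsS (F := F) (Finset.univ.filter (fun x : F => x ^ 2 ∈ T))
  have h2 := prsS_sq T
  have e : {p : SL2 F × SL2 F | tr (p.1 * p.2 * p.1⁻¹ * p.2⁻¹) ≠ 2 ∧ tr p.1 ^ 2 ∈ T ∧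
      tr p.2 ^ 2 ∈ T ∧ tr (p.1 * p.2) ^ 2 ∈ T} =
      {p : SL2 F × SL2 F | tr (p.1 * p.2 * p.1⁻¹ * p.2⁻¹) ≠ 2 ∧
        tr p.1 ∈ Finset.univ.filter (fun x : F => x ^ 2 ∈ T) ∧
        tr p.2 ∈ Finset.univ.filter (fun x : F => x ^ 2 ∈ T) ∧
        tr (p.1 * p.2) ∈ Finset.univ.filter (fun x : F => x ^ 2 ∈ T)} := by
    ext p
    constructor
    · rintro ⟨g1, g2, g3, g4⟩
      exact ⟨g1, Finset.mem_filter.2 ⟨Finset.mem_univ _, g2⟩,
        Finset.mem_filter.2 ⟨Finset.mem_univ _, g3⟩, Finset.mem_filter.2 ⟨Finset.mem_univ _, g4⟩⟩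
    · rintro ⟨g1, g2, g3, g4⟩
      exact ⟨g1, (Finset.mem_filter.1 g2).2, (Finset.mem_filter.1 g3).2,
        (Finset.mem_filter.1 g4).2⟩
  rw [e]
  refine h1.trans ?_
  calc _ ≤ 8 * Nat.card (SL2 F) * (2 * T.card) ^ 3 :=
        Nat.mul_le_mul_left _ (Nat.pow_le_pow_left h2 3)
    _ = 64 * Nat.card (SL2 F) * T.card ^ 3 := by ring

end TRS
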