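import Pool.Agent.TRS.Scal
import Pool.Agent.TRS.TopP
import Pool.Agent.TRS.Big
import Pool.Agent.TRS.Sch
import Pool.Agent.TRS.PrsS
import Pool.Agent.TRS.Box
import Pool.Agent.TRS.BoxP
import Pool.Agent.TRS.Irr

/-! # TRS-Bc: confinement of generating sets of large diameter, final form -/

set_option autoImplicit false

namespace TRS

open Matrix Module Pool.Agent.Helper72.TV Pool.Agent.Helper72.PT Pool.Agent.Helper72.PF
open scoped MatrixGroups

/-- the confinement statement -/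
def Conf (G : Type) [Group G] (L M : ℝ) : Prop :=
  ∃ A : Set (Set G), ((A.ncard : ℕ) : ℝ) ≤ Nat.card G * M ∧
    (∀ B ∈ A, ((B.ncard : ℕ) : ℝ) ≤ M) ∧
    ∀ S : Set G, Subgroup.closure S = ⊤ → ¬Short S L →
      ∃ B ∈ A, ∀ S' : Set G, S ⊆ S' → ¬Short S' L → S' ⊆ B

theorem absConf {G : Type} [Group G] [Finite G] {F : Type} (χ : G → F) (R : G → G → Prop)
    (T : Finset F) (N K : ℕ) (L : ℝ)
    (ha : ∀ S : Set G, Subgroup.closure S = ⊤ → ∀ w ∈ Words S (2 * N + 1), χ w ∉ T → Short S L)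
    (h1 : ∀ S : Set G, Subgroup.closure S = ⊤ → ∃ u v, u ∈ Words S N ∧ v ∈ Words S N ∧ R u v)
    (h2 : ∀ u v, R u v → {g : G | χ g ∈ T ∧ χ (u * g) ∈ T ∧ χ (v * g) ∈ T ∧
      χ (u * v * g) ∈ T}.ncard ≤ K * T.card ^ 4)
    (h3 : {p : G × G | R p.1 p.2 ∧ χ p.1 ∈ T ∧ χ p.2 ∈ T ∧ χ (p.1 * p.2) ∈ T}.ncard ≤
      K * Nat.card G * T.card ^ 3) :
    ∃ A : Set (Set G), A.ncard ≤ K * Nat.card G * T.card ^ 3 ∧
      (∀ B ∈ A, B.ncard ≤ K * T.card ^ 4) ∧
      ∀ S : Set G, Subgroup.closure S = ⊤ → ¬Short S L →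
        ∃ B ∈ A, ∀ S' : Set G, S ⊆ S' → ¬Short S' L → S' ⊆ B := by
  have hmono : ∀ {S S' : Set G} (_ : S ⊆ S') (n : ℕ), Words S n ⊆ Words S' n := by
    intro S S' h n
    rintro g ⟨l, hl, h1, h2⟩
    exact ⟨l, hl, fun x hx => (h1 x hx).imp (fun h' => h h') (fun h' => h h'), h2⟩
  have hall : ∀ S : Set G, Subgroup.closure S = ⊤ → ¬Short S L → ∀ w ∈ Words S (2 * N + 1),
      χ w ∈ T := by
    intro S hS hsh w hw
    by_contra hcon
    exact hsh (ha S hS w hw hcon)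
  let bx : G × G → Set G := fun p => {g : G | χ g ∈ T ∧ χ (p.1 * g) ∈ T ∧ χ (p.2 * g) ∈ T ∧
    χ (p.1 * p.2 * g) ∈ T}
  refine ⟨bx '' {p : G × G | R p.1 p.2 ∧ χ p.1 ∈ T ∧ χ p.2 ∈ T ∧ χ (p.1 * p.2) ∈ T}, ?_, ?_, ?_⟩
  · exact (Set.ncard_image_le (Set.toFinite _)).trans h3
  · rintro B ⟨p, hp, rfl⟩
    exact h2 p.1 p.2 hp.1
  · intro S hS hsh
    obtain ⟨u, v, hu, hv, hR⟩ := h1 S hS
    refine ⟨bx (u, v), ⟨(u, v), ⟨hR, hall S hS hsh _ (words_mono (by omega) hu),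
      hall S hS hsh _ (words_mono (by omega) hv),
      hall S hS hsh _ (words_mono (by omega) (mul_mem_words hu hv))⟩, rfl⟩, ?_⟩
    intro S' hSS' hsh' g hg
    have hS' : Subgroup.closure S' = ⊤ := by
      rw [eq_top_iff, ← hS]
      exact Subgroup.closure_mono hSS'
    have hu' := hmono hSS' N hu
    have hv' := hmono hSS' N hv
    have hg1 : g ∈ Words S' 1 := mem_words_one hg
    exact ⟨hall S' hS' hsh' _ (words_mono (by omega) hg1),
      hall S' hS' hsh' _ (words_mono (by omega) (mul_mem_words hu' hg1)),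
      hall S' hS' hsh' _ (words_mono (by omega) (mul_mem_words hv' hg1)),
      hall S' hS' hsh' _ (words_mono (by omega) (mul_mem_words (mul_mem_words hu' hv') hg1))⟩

private theorem conf_small {G : Type} [Group G] [Finite G] (L : ℝ) {M : ℝ}
    (hM : (Nat.card G : ℝ) ≤ M) : Conf G L M := by
  have hG : (1 : ℝ) ≤ Nat.card G := by exact_mod_cast Nat.card_pos
  refine ⟨{Set.univ}, ?_, ?_, ?_⟩
  · rw [Set.ncard_singleton]
    push_cast
    nlinarith
  · intro B hB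
    rw [Set.mem_singleton_iff.1 hB, Set.ncard_univ]
    exact hM
  · intro S _ _
    exact ⟨Set.univ, Set.mem_singleton _, fun S' _ _ => Set.subset_univ _⟩

private theorem finite_sl (F : Type) [Field F] [Fintype F] : Finite (SL2 F) :=
  Finite.of_injective (fun g : SL2 F => (g : Matrix (Fin 2) (Fin 2) F)) Subtype.val_injective

private theorem finite_pgl (F : Type) [Field F] [Fintype F] : Finite PGL(2, F) := by
  have h : Nat.card PGL(2, F) ≠ 0 := by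
    rw [card_pgl]
    have h1 := sl_ge F
    have h2 : 2 ≤ Fintype.card F := Fintype.one_lt_card
    have h3 : 2 ^ 3 ≤ Fintype.card F ^ 3 := Nat.pow_le_pow_left h2 3
    omega
  exact Nat.finite_of_card_ne_zero h

private theorem small_card (F : Type) [Field F] [Fintype F] (h : Nat.card F < 100) (n : ℕ)
    (hn : 1 ≤ n) : (Nat.card (SL2 F) : ℝ) ≤ (2 : ℝ) ^ (200 * n) := by
  have h1 := card_sl_le (F := F)
  rw [Nat.card_eq_fintype_card] at h
  have h2 : Fintype.card F ^ 4 ≤ 100 ^ 4 := Nat.pow_le_pow_left h.le 4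
  have h3 : (100 : ℕ) ^ 4 ≤ 2 ^ 200 := by norm_num
  have h4 : (2 : ℕ) ^ 200 ≤ 2 ^ (200 * n) := Nat.pow_le_pow_right (by norm_num) (by omega)
  exact_mod_cast h1.trans (h2.trans (h3.trans h4))

private theorem arith_box (K t n : ℕ) (hK : K ≤ 64) (ht : t ≤ 2 ^ (48 * n)) (hn : 1 ≤ n) :
    K * t ^ 4 ≤ 2 ^ (200 * n) := by
  calc K * t ^ 4 ≤ 2 ^ 6 * (2 ^ (48 * n)) ^ 4 :=
        Nat.mul_le_mul (hK.trans (by norm_num)) (Nat.pow_le_pow_left ht 4)
    _ = 2 ^ (6 + 192 * n) := by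
        rw [← pow_mul, ← pow_add]
        congr 1
        ring
    _ ≤ 2 ^ (200 * n) := Nat.pow_le_pow_right (by norm_num) (by omega)

private theorem arith_pr (K t n g : ℕ) (hK : K ≤ 64) (ht : t ≤ 2 ^ (48 * n)) (hn : 1 ≤ n) :
    K * g * t ^ 3 ≤ g * 2 ^ (200 * n) := by
  calc K * g * t ^ 3 = g * (K * t ^ 3) := by ring
    _ ≤ g * 2 ^ (200 * n) := by
      apply Nat.mul_le_mul_left
      calc K * t ^ 3 ≤ 2 ^ 6 * (2 ^ (48 * n)) ^ 3 :=
            Nat.mul_le_mul (hK.trans (by norm_num)) (Nat.pow_le_pow_left ht 3)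
        _ = 2 ^ (6 + 144 * n) := by
            rw [← pow_mul, ← pow_add]
            congr 1
            ring
        _ ≤ 2 ^ (200 * n) := Nat.pow_le_pow_right (by norm_num) (by omega)

private theorem conf_of {G : Type} [Group G] (K t n : ℕ) (L : ℝ) (hK : K ≤ 64)
    (ht : t ≤ 2 ^ (48 * n)) (hn : 1 ≤ n)
    (h : ∃ A : Set (Set G), A.ncard ≤ K * Nat.card G * t ^ 3 ∧
      (∀ B ∈ A, B.ncard ≤ K * t ^ 4) ∧
      ∀ S : Set G, Subgroup.closure S = ⊤ → ¬Short S L →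
        ∃ B ∈ A, ∀ S' : Set G, S ⊆ S' → ¬Short S' L → S' ⊆ B) :
    Conf G L ((2 : ℝ) ^ (200 * n)) := by
  obtain ⟨A, h1, h2, h3⟩ := h
  refine ⟨A, ?_, ?_, h3⟩
  · exact_mod_cast h1.trans (arith_pr K t n _ hK ht hn)
  · intro B hB
    exact_mod_cast (h2 B hB).trans (arith_box K t n hK ht hn)

theorem confS : ∃ C : ℝ, 0 < C ∧ ∀ (F : Type) [Field F] [Fintype F] (n : ℕ), 1 ≤ n →
    (n : ℝ) ≤ Real.log (Nat.card (SL2 F)) →
    Conf (SL2 F) (C * (Real.log (Nat.card (SL2 F)) ^ 9 / (n : ℝ) ^ 8))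
      ((2 : ℝ) ^ (200 * n)) := by
  obtain ⟨C, hC, h⟩ := scal
  obtain ⟨N, hN, hirr⟩ := irr
  refine ⟨C * (2 * N + 1), by positivity, ?_⟩
  intro F _ _ n hn hn2
  have := finite_sl F
  by_cases hF : Nat.card F < 100
  · exact conf_small _ (small_card F hF n hn)
  push Not at hF
  obtain ⟨E, hE, h3⟩ := h F n hn hn2
  refine conf_of 8 E.card n _ (by norm_num) hE hn ?_
  refine absConf (fun g : SL2 F => tr g) (fun u v => tr (u * v * u⁻¹ * v⁻¹) ≠ 2) E N 8 _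
    ?_ ?_ ?_ ?_
  · intro S hS w hw hχ g
    obtain ⟨m, hm, hle⟩ := h3 S hS (2 * N + 1) w (by omega) hw hχ g
    refine ⟨m, hm, hle.trans (le_of_eq ?_)⟩
    push_cast
    ring
  · intro S hS
    exact hirr F hF S hS
  · intro u v huv
    refine (box u v huv E).trans ?_
    omega
  · exact prsS E

theorem confP : ∃ C : ℝ, 0 < C ∧ ∀ (F : Type) [Field F] [Fintype F] (n : ℕ), 1 ≤ n →
    (n : ℝ) ≤ Real.log (Nat.card PGL(2, F)) →
    Conf PGL(2, F) (C * (Real.log (Nat.card PGL(2, F)) ^ 9 / (n : ℝ) ^ 8))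
      ((2 : ℝ) ^ (200 * n)) := by
  obtain ⟨C, hC, h⟩ := topP
  obtain ⟨N, hN, hirr⟩ := irr
  refine ⟨C * (2 * (3 * N) + 1), by positivity, ?_⟩
  intro F _ _ n hn hn2
  have := finite_sl F
  have := finite_pgl F
  by_cases hF : Nat.card F < 100
  · exact conf_small _ (by rw [card_pgl]; exact small_card F hF n hn)
  push Not at hF
  rw [card_pgl] at hn2 ⊢
  obtain ⟨E, hE, h3⟩ := h F n hn hn2
  refine conf_of 64 E.card n _ le_rfl hE hn ?_
  refine absConf (chi F) (fun u v => ∃ u' v' : SL2 F, Matrix.SpecialLinearGroup.toPGL u' = u ∧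
    Matrix.SpecialLinearGroup.toPGL v' = v ∧ tr (u' * v' * u'⁻¹ * v'⁻¹) ≠ 2) E (3 * N) 64 _
    ?_ ?_ ?_ ?_
  · intro S hS w hw hχ
    have h4 := h3 S hS (2 * (3 * N) + 1) w (by omega) hw hχ
    intro g
    obtain ⟨m, hm, hle⟩ := h4 g
    refine ⟨m, hm, hle.trans (le_of_eq ?_)⟩
    push_cast
    ring
  · intro S hS
    obtain ⟨u, v, hu, hv, huv⟩ := hirr F hF _ (sch S hS)
    refine ⟨Matrix.SpecialLinearGroup.toPGL u, Matrix.SpecialLinearGroup.toPGL v, ?_, ?_,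
      u, v, rfl, rfl, huv⟩
    · have := map_mem_words Matrix.SpecialLinearGroup.toPGL (S := S) (ℓ := 3) (fun z hz => hz) hu
      rwa [mul_comm N 3] at this
    · have := map_mem_words Matrix.SpecialLinearGroup.toPGL (S := S) (ℓ := 3) (fun z hz => hz) hv
      rwa [mul_comm N 3] at this
  · rintro u v ⟨u', v', rfl, rfl, huv⟩
    refine (boxP u' v' huv E).trans ?_
    omega
  · have hchi : ∀ x : SL2 F, chi F (Matrix.SpecialLinearGroup.toPGL x) = tr x ^ 2 := by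
      intro x
      show chi F (Matrix.ProjGenLinGroup.mk (Matrix.SpecialLinearGroup.toGL x)) = tr x ^ 2
      rw [chi_mk]
      unfold tr
      have e1 : (Matrix.SpecialLinearGroup.toGL x).val = (x : Matrix (Fin 2) (Fin 2) F) := rfl
      rw [e1, x.det_coe, div_one]
    rw [card_pgl]
    refine le_trans ?_ (prsSq E)
    refine le_trans (Set.ncard_le_ncard (t := (fun p : SL2 F × SL2 F =>
      ((Matrix.SpecialLinearGroup.toPGL p.1 : PGL(2, F)),
        (Matrix.SpecialLinearGroup.toPGL p.2 : PGL(2, F)))) ''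
      {p : SL2 F × SL2 F | tr (p.1 * p.2 * p.1⁻¹ * p.2⁻¹) ≠ 2 ∧ tr p.1 ^ 2 ∈ E ∧ tr p.2 ^ 2 ∈ E ∧
      tr (p.1 * p.2) ^ 2 ∈ E}) ?_ (Set.toFinite _)) (Set.ncard_image_le (Set.toFinite _))
    rintro ⟨p1, p2⟩ ⟨⟨u', v', hu, hv, huv⟩, e1, e2, e3⟩
    simp only at hu hv e1 e2 e3
    refine ⟨(u', v'), ⟨huv, ?_, ?_, ?_⟩, ?_⟩
    · rw [← hchi, hu]
      exact e1
    · rw [← hchi, hv]
      exact e2
    · rw [← hchi, map_mul, hu, hv]
      exact e3
    · simp only [hu, hv]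

/-- the confinement theorem, for both groups -/
theorem conf : ∃ C : ℝ, 0 < C ∧ ∀ (F : Type) [Field F] [Fintype F] (n : ℕ), 1 ≤ n →
    ((n : ℝ) ≤ Real.log (Nat.card (SL2 F)) →
      Conf (SL2 F) (C * (Real.log (Nat.card (SL2 F)) ^ 9 / (n : ℝ) ^ 8))
        ((2 : ℝ) ^ (200 * n))) ∧
    ((n : ℝ) ≤ Real.log (Nat.card PGL(2, F)) →
      Conf PGL(2, F) (C * (Real.log (Nat.card PGL(2, F)) ^ 9 / (n : ℝ) ^ 8))
        ((2 : ℝ) ^ (200 * n))) := by
  obtain ⟨C1, hC1, h1⟩ := confS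
  obtain ⟨C2, hC2, h2⟩ := confP
  have mono : ∀ (G : Type) [Group G] (L L' M : ℝ), L ≤ L' → Conf G L M → Conf G L' M := by
    intro G _ L L' M hL h
    have hsh : ∀ S : Set G, ¬Short S L' → ¬Short S L := by
      intro S hn hs
      apply hn
      intro g
      obtain ⟨m, hm, hle⟩ := hs g
      exact ⟨m, hm, hle.trans hL⟩
    obtain ⟨A, hA1, hA2, hA3⟩ := h
    refine ⟨A, hA1, hA2, fun S hS hns => ?_⟩
    obtain ⟨B, hB, hB2⟩ := hA3 S hS (hsh S hns)
    exact ⟨B, hB, fun S' hSS' hns' => hB2 S' hSS' (hsh S' hns')⟩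
  refine ⟨max C1 C2, lt_max_of_lt_left hC1, fun F _ _ n hn => ⟨fun hn2 => ?_, fun hn2 => ?_⟩⟩
  · refine mono _ _ _ _ (mul_le_mul_of_nonneg_right (le_max_left _ _) ?_) (h1 F n hn hn2)
    have : 0 ≤ Real.log (Nat.card (SL2 F)) := Real.log_natCast_nonneg _
    positivity
  · refine mono _ _ _ _ (mul_le_mul_of_nonneg_right (le_max_right _ _) ?_) (h2 F n hn hn2)
    have : 0 ≤ Real.log (Nat.card PGL(2, F)) := Real.log_natCast_nonneg _
    positivity

end TRS
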