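import Pool.Agent.TRS.Cut
import Pool.Agent.Helper72.PF.Bez

/-!
# TRS-Cnt
The number of first coordinates of bad points, for given coincidences (as `countE` in `Helper72/PF/CountE.lean`). `Δ₀` from `cut` with `r = 0`;
`D = 64 n²`. For every irreducible factor `h` of `Δ₀` `cut` gives `Δ_h` with `¬ h ∣ Δ_h`. Every bad `x0` with its `(y0, z0)` has
`Δ₀(x0, y0) = 0`, so `h(x0, y0) = 0` for a factor `h`, so `Δ_h(x0, y0) = 0`: `x0` lies in the image under `Prod.fst` of `{p | h(p) = 0 = Δ_h(p)}`, at most `3 D³` points by `bez`.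
The number of factors is `≤ 2 D`.
-/

set_option autoImplicit false

namespace TRS

open Matrix Module Polynomial Pool.Agent.Helper72.TV Pool.Agent.Helper72.PT Pool.Agent.Helper72.PF

open UniqueFactorizationMonoid in
theorem cnt {F : Type} [Field F] [Finite F] (n : ℕ) (hn : 1 ≤ n)
    (T : Fin 6 → List Bool × List Bool) (hT : GoodT n T) :
    {x0 : F | x0 ≠ 0 ∧ ∃ y0 z0 : F, y0 ≠ 0 ∧ kp x0 y0 z0 ≠ 0 ∧
      ∀ i j, co x0 y0 z0 (wd i (T i).1) j = co x0 y0 z0 (wd i (T i).2) j}.ncard ≤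
      6 * (64 * n ^ 2) ^ 4 := by
  classical
  let _ : NormalizationMonoid F[X][X] :=
    (UniqueFactorizationMonoid.strongNormalizationMonoid (α := F[X][X])).toNormalizationMonoid
  obtain ⟨Δ, h0, hdeg, hΔ⟩ := cut (0 : F[X][X]) (Or.inr rfl) n hn T hT
  have hΔ0 : Δ ≠ 0 := fun h => h0 (zero_dvd_iff.2 h)
  obtain ⟨D, hD⟩ : ∃ D, D = 64 * n ^ 2 := ⟨_, rfl⟩
  rw [← hD] at hdeg ⊢
  have hD1 : 1 ≤ D := by
    rw [hD]
    have : 1 ≤ n ^ 2 := Nat.one_le_pow _ _ hn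
    omega
  have hcut : ∀ h ∈ (normalizedFactors Δ).toFinset, ∃ Δ' : F[X][X], ¬ h ∣ Δ' ∧ DegLe D Δ' ∧
      ∀ x0 y0 z0 : F, h.evalEval x0 y0 = 0 → x0 ≠ 0 → y0 ≠ 0 → kp x0 y0 z0 ≠ 0 →
      (∀ i j, co x0 y0 z0 (wd i (T i).1) j = co x0 y0 z0 (wd i (T i).2) j) →
      Δ'.evalEval x0 y0 = 0 := by
    intro h hh
    have hirr : Irreducible h := irreducible_of_normalized_factor h (Multiset.mem_toFinset.1 hh)
    rw [hD]
    exact cut h (Or.inl hirr.prime) n hn T hT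
  choose! G hG using hcut
  let Z : F[X][X] → Set F := fun h =>
    Prod.fst '' {p : F × F | h.evalEval p.1 p.2 = 0 ∧ (G h).evalEval p.1 p.2 = 0}
  have hZ : ∀ h ∈ (normalizedFactors Δ).toFinset, (Z h).ncard ≤ 3 * D ^ 3 := by
    intro h hh
    have hmem : h ∈ normalizedFactors Δ := Multiset.mem_toFinset.1 hh
    have hirr : Irreducible h := irreducible_of_normalized_factor h hmem
    have h1 := dvd_deg hΔ0 (dvd_of_mem_normalizedFactors hmem)
    exact (Set.ncard_image_le (Set.toFinite _)).trans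
      (bez h (G h) hirr (hG h hh).1 D hD1 (h1.1.trans hdeg.1) (h1.2.trans hdeg.2)
        (hG h hh).2.1.1 (hG h hh).2.1.2)
  have hcov : {x0 : F | x0 ≠ 0 ∧ ∃ y0 z0 : F, y0 ≠ 0 ∧ kp x0 y0 z0 ≠ 0 ∧
      ∀ i j, co x0 y0 z0 (wd i (T i).1) j = co x0 y0 z0 (wd i (T i).2) j} ⊆
      ⋃ h ∈ (normalizedFactors Δ).toFinset, Z h := by
    rintro x0 ⟨hx, y0, z0, hy, hk, hco⟩
    have h3 : Δ.evalEval x0 y0 = 0 := hΔ x0 y0 z0 (evalEval_zero _ _) hx hy hk hco
    obtain ⟨u, hu⟩ := prod_normalizedFactors hΔ0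
    have h5 : evalEvalRingHom x0 y0 (normalizedFactors Δ).prod = 0 := by
      have h6 : evalEvalRingHom x0 y0 Δ = 0 := h3
      rw [← hu, map_mul] at h6
      rcases mul_eq_zero.1 h6 with h7 | h7
      · exact h7
      · exact absurd h7 ((u.isUnit.map (evalEvalRingHom x0 y0)).ne_zero)
    rw [map_multiset_prod, Multiset.prod_eq_zero_iff, Multiset.mem_map] at h5
    obtain ⟨h, hh, hh0⟩ := h5
    rw [Set.mem_iUnion₂]
    have hh' := Multiset.mem_toFinset.2 hh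
    exact ⟨h, hh', (x0, y0), ⟨hh0, (hG h hh').2.2 x0 y0 z0 hh0 hx hy hk hco⟩, rfl⟩
  refine (Set.ncard_le_ncard hcov (Set.toFinite _)).trans ?_
  refine (Finset.set_ncard_biUnion_le _ _).trans ?_
  refine (Finset.sum_le_card_nsmul _ _ _ hZ).trans ?_
  have h1 : (normalizedFactors Δ).toFinset.card ≤ 2 * D := by
    refine (Multiset.toFinset_card_le _).trans ((card_factors _ hΔ0).trans ?_)
    have := hdeg.1
    have := hdeg.2
    omega
  rw [smul_eq_mul]
  calc (normalizedFactors Δ).toFinset.card * (3 * D ^ 3)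
      ≤ 2 * D * (3 * D ^ 3) := Nat.mul_le_mul_right _ h1
    _ = 6 * D ^ 4 := by ring

end TRS
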