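import Pool.Agent.TRS.Deg

/-!
# TRS-Cof
Degrees and values of the coefficient polynomials.

The degree bounds are proved by induction on the word: multiplication by one of the letters is given by `step`, and
multiplication by `x`, `y`, `z`, `z - x y` raises the degree and the partial degrees of the coefficients by at most one.
-/

set_option autoImplicit false

namespace TRS

open Matrix Module Polynomial Pool.Agent.Helper72.TV Pool.Agent.Helper72.PT Pool.Agent.Helper72.PF

/-- the degree and the partial degrees of the coefficients are at most `k` -/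
private def CQ {F : Type*} [Field F] (k : ℕ) (p : Polynomial F[X][X]) : Prop :=
  p.natDegree ≤ k ∧ ∀ t, DegLe k (p.coeff t)

private theorem CQ.mono {F : Type*} [Field F] {k m : ℕ} {p : Polynomial F[X][X]} (h : CQ k p) (hkm : k ≤ m) :
    CQ m p := ⟨h.1.trans hkm, fun t => (h.2 t).mono hkm⟩

private theorem CQ.add {F : Type*} [Field F] {k : ℕ} {p q : Polynomial F[X][X]} (h : CQ k p) (h' : CQ k q) :
    CQ k (p + q) := by
  refine ⟨natDegree_add_le_of_degree_le h.1 h'.1, fun t => ?_⟩
  rw [coeff_add]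
  exact (h.2 t).add (h'.2 t)

private theorem CQ.neg {F : Type*} [Field F] {k : ℕ} {p : Polynomial F[X][X]} (h : CQ k p) : CQ k (-p) := by
  refine ⟨by rw [natDegree_neg]; exact h.1, fun t => ?_⟩
  rw [coeff_neg]
  exact (h.2 t).neg

private theorem CQ.sub {F : Type*} [Field F] {k : ℕ} {p q : Polynomial F[X][X]} (h : CQ k p) (h' : CQ k q) :
    CQ k (p - q) := by
  refine ⟨(natDegree_sub_le_of_le h.1 h'.1).trans (le_of_eq (max_self _)), fun t => ?_⟩
  rw [coeff_sub]
  exact (h.2 t).sub (h'.2 t)

private theorem CQ.Cmul {F : Type*} [Field F] {k : ℕ} {p : Polynomial F[X][X]} (h : CQ k p) {r : F[X][X]}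
    (hr : DegLe 1 r) : CQ (k + 1) (C r * p) := by
  refine ⟨(natDegree_C_mul_le _ _).trans (h.1.trans (Nat.le_succ k)), fun t => ?_⟩
  rw [coeff_C_mul, add_comm k 1]
  exact hr.mul (h.2 t)

private theorem CQ.Xmul {F : Type*} [Field F] {k : ℕ} {p : Polynomial F[X][X]} (h : CQ k p) :
    CQ (k + 1) (X * p) := by
  refine ⟨?_, fun t => ?_⟩
  · refine natDegree_mul_le.trans ?_
    have h1 : (X : Polynomial F[X][X]).natDegree ≤ 1 := natDegree_X_le
    have h2 := h.1
    omega
  · cases t with
    | zero =>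
      rw [coeff_X_mul_zero]
      exact degLe_zero _
    | succ t =>
      rw [coeff_X_mul]
      exact (h.2 t).mono (Nat.le_succ k)

private theorem degLe_xy {F : Type*} [Field F] : DegLe 1 (C X * X : F[X][X]) := by
  constructor
  · refine natDegree_mul_le.trans ?_
    rw [natDegree_C, zero_add]
    exact natDegree_X_le
  · rw [map_mul]
    refine natDegree_mul_le.trans ?_
    have h1 : Bivariate.swap (C X : F[X][X]) = X := Bivariate.swap_X
    have h2 : Bivariate.swap (X : F[X][X]) = C X := Bivariate.swap_Y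
    rw [h1, h2, natDegree_C, add_zero]
    exact natDegree_X_le

private theorem pol3_CQ (F : Type*) [Field F] (l : List (Fin 4)) : ∀ j, CQ l.length (pol3 F l j) := by
  unfold pol3
  induction l with
  | nil =>
    intro j
    rw [co_nil]
    have h0 : CQ 0 (0 : Polynomial F[X][X]) := ⟨by simp, fun t => by rw [coeff_zero]; exact degLe_zero _⟩
    have h1 : CQ 0 (1 : Polynomial F[X][X]) := by
      refine ⟨by simp, fun t => ?_⟩
      rw [coeff_one]
      split_ifs
      · exact degLe_one _
      · exact degLe_zero _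
    fin_cases j
    · exact h1
    · exact h0
    · exact h0
    · exact h0
  | cons s l ih =>
    intro j
    rw [co_cons, List.length_cons]
    generalize co (C (C X) : Polynomial F[X][X]) (C X) X l = c at ih
    generalize l.length = k at ih
    have hc : ∀ j, CQ (k + 1) (c j) := fun j => (ih j).mono (Nat.le_succ k)
    have hxc : ∀ j, CQ (k + 1) ((C (C X) : Polynomial F[X][X]) * c j) := fun j => (ih j).Cmul degLe_CX
    have hyc : ∀ j, CQ (k + 1) ((C X : Polynomial F[X][X]) * c j) := fun j => (ih j).Cmul degLe_X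
    have hzc : ∀ j, CQ (k + 1) ((X : Polynomial F[X][X]) * c j) := fun j => (ih j).Xmul
    have hw : CQ (k + 1) (c 1 * ((X : Polynomial F[X][X]) - C (C X) * C X)) := by
      have e : c 1 * ((X : Polynomial F[X][X]) - C (C X) * C X) = X * c 1 - C (C X * X) * c 1 := by
        rw [C_mul]
        ring
      rw [e]
      exact (hzc 1).sub ((ih 1).Cmul degLe_xy)
    fin_cases s
    · fin_cases j
      · exact (hc 1).neg
      · exact (hc 0).add (hxc 1)
      · exact (hc 3).neg
      · exact (hc 2).add (hxc 3)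
    · fin_cases j
      · exact (hxc 0).add (hc 1)
      · exact (hc 0).neg
      · exact (hxc 2).add (hc 3)
      · exact (hc 2).neg
    · fin_cases j
      · exact (hw.sub (hc 2)).sub (hxc 3)
      · exact (hyc 1).add (hc 3)
      · exact (((hc 0).add (hxc 1)).add (hyc 2)).add (hzc 3)
      · exact (hc 1).neg
    · fin_cases j
      · exact (hyc 0).sub ((hw.sub (hc 2)).sub (hxc 3))
      · exact (hc 3).neg
      · exact (((hc 0).add (hxc 1)).add (hzc 3)).neg
      · exact (hyc 3).add (hc 1)

private theorem fT_CQ {F : Type*} [Field F] (n : ℕ) (T : Fin 6 → List Bool × List Bool)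
    (hT : GoodT n T) (p : Fin 6 × Fin 4) : CQ (4 * n) (fT F T p) := by
  obtain ⟨h1, h2, -⟩ := hT p.1
  have e1 := wd_length p.1 (T p.1).1
  have e2 := wd_length p.1 (T p.1).2
  rw [h1] at e1
  rw [h2] at e2
  exact ((pol3_CQ F _ _).mono e1).sub ((pol3_CQ F _ _).mono e2)

theorem fT_natDegree {F : Type*} [Field F] (n : ℕ) (T : Fin 6 → List Bool × List Bool)
    (hT : GoodT n T) (p : Fin 6 × Fin 4) : (fT F T p).natDegree ≤ 4 * n :=
  (fT_CQ n T hT p).1

theorem fT_coeff {F : Type*} [Field F] (n : ℕ) (T : Fin 6 → List Bool × List Bool)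
    (hT : GoodT n T) (p : Fin 6 × Fin 4) (t : ℕ) : DegLe (4 * n) ((fT F T p).coeff t) :=
  (fT_CQ n T hT p).2 t

private theorem pol3_eval {F R : Type*} [Field F] [CommRing R] (l : List (Fin 4)) (j : Fin 4)
    (ψ : F[X][X] →+* R) (z : R) : (pol3 F l j).eval₂ ψ z = co (ψ (C X)) (ψ X) z l j := by
  have h := co_map (eval₂RingHom ψ z) (C (C X) : Polynomial F[X][X]) (C X) X l j
  rw [coe_eval₂RingHom, eval₂_C, eval₂_C, eval₂_X] at h
  exact h

theorem fT_eval {F R : Type*} [Field F] [CommRing R] (T : Fin 6 → List Bool × List Bool)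
    (p : Fin 6 × Fin 4) (ψ : F[X][X] →+* R) (z : R) :
    (fT F T p).eval₂ ψ z = co (ψ (C X)) (ψ X) z (wd p.1 (T p.1).1) p.2 -
      co (ψ (C X)) (ψ X) z (wd p.1 (T p.1).2) p.2 := by
  unfold fT
  rw [eval₂_sub, pol3_eval, pol3_eval]

theorem sat_natDegree (F : Type*) [Field F] : (sat F).natDegree ≤ 2 := by
  unfold sat kp
  compute_degree

theorem sat_ne {F L : Type*} [Field F] [Field L] (φ : F[X][X] →+* L) (hx : φ (C X) ≠ 0)
    (hy : φ X ≠ 0) : (sat F).map φ ≠ 0 := by
  intro h
  have e : (sat F).map φ = C (φ (C X) * φ X) *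
      (X ^ 2 - C (φ (C X) * φ X) * X + C (φ (C X) ^ 2 + φ X ^ 2 - 4)) := by
    unfold sat
    have h1 := kp_map (mapRingHom φ) (C (C X) : Polynomial F[X][X]) (C X) X
    rw [coe_mapRingHom, map_C, map_C, map_X] at h1
    rw [Polynomial.map_mul, Polynomial.map_mul, map_C, map_C, h1]
    unfold kp
    simp only [C_mul, C_add, C_sub, C_pow, map_ofNat]
    ring
  rw [e] at h
  generalize φ (C X) ^ 2 + φ X ^ 2 - 4 = b at h
  have h3 : φ (C X) * φ X ≠ 0 := mul_ne_zero hx hy
  generalize φ (C X) * φ X = a at h h3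
  have h2 : (X ^ 2 - C a * X + C b : L[X]).coeff 2 = 1 := by
    compute_degree!
  rcases mul_eq_zero.1 h with h4 | h4
  · exact h3 (C_eq_zero.1 h4)
  · rw [h4, coeff_zero] at h2
    exact zero_ne_one h2

theorem sat_eval {F R : Type*} [Field F] [CommRing R] (ψ : F[X][X] →+* R) (z : R) :
    (sat F).eval₂ ψ z = ψ (C X) * ψ X * kp (ψ (C X)) (ψ X) z := by
  have h := kp_map (eval₂RingHom ψ z) (C (C X) : Polynomial F[X][X]) (C X) X
  rw [coe_eval₂RingHom, eval₂_C, eval₂_C, eval₂_X] at h
  unfold sat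
  rw [eval₂_mul, eval₂_mul, eval₂_C, eval₂_C, h]

end TRS
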