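import Mathlib

/-!
# TRS-Cram
Cramer's rule modulo the kernel of a homomorphism into a field, by a maximal nonvanishing minor.
-/

set_option autoImplicit false

namespace TRS

open Matrix Module

private theorem max_minor {R L : Type*} [CommRing R] [Field L] (φ : R →+* L) {m n : Type*}
    [Fintype m] (M : Matrix m n R) :
    ∃ (k : ℕ) (i : Fin k → m) (j : Fin k → n), k ≤ Fintype.card m ∧
      φ (M.submatrix i j).det ≠ 0 ∧
      ∀ (i' : Fin (k + 1) → m) (j' : Fin (k + 1) → n), φ (M.submatrix i' j').det = 0 := by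
  classical
  let P : ℕ → Prop := fun k => ∃ (i : Fin k → m) (j : Fin k → n), φ (M.submatrix i j).det ≠ 0
  have hP0 : P 0 := by
    refine ⟨fun t => t.elim0, fun t => t.elim0, ?_⟩
    rw [Matrix.det_isEmpty, map_one]
    exact one_ne_zero
  have hle : ∀ k, P k → k ≤ Fintype.card m := by
    rintro k ⟨i, j, h⟩
    have hi : Function.Injective i := by
      intro s t hst
      by_contra hne
      apply h
      rw [Matrix.det_zero_of_row_eq hne, map_zero]
      funext u
      simp [hst]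
    simpa using Fintype.card_le_of_injective i hi
  have h1 : P (Nat.findGreatest P (Fintype.card m)) := Nat.findGreatest_spec (Nat.zero_le _) hP0
  obtain ⟨i, j, hij⟩ := h1
  refine ⟨_, i, j, Nat.findGreatest_le _, hij, fun i' j' => ?_⟩
  by_contra hne
  have h2 : P (Nat.findGreatest P (Fintype.card m) + 1) := ⟨i', j', hne⟩
  exact Nat.findGreatest_is_greatest (Nat.lt_succ_self _) (hle _ h2) h2

private theorem bordered {R L : Type*} [CommRing R] [Field L] (φ : R →+* L) {m n : Type*}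
    (M : Matrix m n R) {k : ℕ} (i : Fin k → m) (j : Fin k → n)
    (hd : φ (M.submatrix i j).det ≠ 0)
    (hz : ∀ (i' : Fin (k + 1) → m) (j' : Fin (k + 1) → n), φ (M.submatrix i' j').det = 0)
    (a : m) (d : n) :
    φ (M a d) = ∑ t, φ (M a (j t)) *
      ((((M.submatrix i j).map φ)⁻¹ *ᵥ (fun s => φ (M (i s) d))) t) := by
  classical
  let A : Matrix (Fin k) (Fin k) L := (M.submatrix i j).map φ
  have hA : A.det ≠ 0 := by
    have h1 : A.det = φ (M.submatrix i j).det := (RingHom.map_det φ _).symm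
    rw [h1]
    exact hd
  letI : Invertible A := A.invertibleOfIsUnitDet (isUnit_iff_ne_zero.2 hA)
  let i' : Fin k ⊕ Fin 1 → m := Sum.elim i (fun _ => a)
  let j' : Fin k ⊕ Fin 1 → n := Sum.elim j (fun _ => d)
  let e : Fin k ⊕ Fin 1 ≃ Fin (k + 1) := finSumFinEquiv
  have h1 := hz (i' ∘ e.symm) (j' ∘ e.symm)
  have h2 : M.submatrix (i' ∘ e.symm) (j' ∘ e.symm) = (M.submatrix i' j').submatrix e.symm e.symm := rfl
  rw [h2, Matrix.det_submatrix_equiv_self, RingHom.map_det] at h1
  let B : Matrix (Fin k) (Fin 1) L := Matrix.of fun s _ => φ (M (i s) d)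
  let C : Matrix (Fin 1) (Fin k) L := Matrix.of fun _ t => φ (M a (j t))
  let D : Matrix (Fin 1) (Fin 1) L := Matrix.of fun _ _ => φ (M a d)
  have h3 : φ.mapMatrix (M.submatrix i' j') = Matrix.fromBlocks A B C D := by
    ext s t
    rcases s with s | s <;> rcases t with t | t <;> rfl
  rw [h3, Matrix.det_fromBlocks₁₁, Matrix.det_fin_one] at h1
  have h4 : (D - C * ⅟A * B) 0 0 = 0 := by
    rcases mul_eq_zero.1 h1 with h | h
    · exact absurd h hA
    · exact h
  have h5 : D 0 0 = (C * ⅟A * B) 0 0 := by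
    rw [Matrix.sub_apply] at h4
    exact sub_eq_zero.1 h4
  have h6 : D 0 0 = φ (M a d) := rfl
  rw [← h6, h5, Matrix.invOf_eq_nonsing_inv, Matrix.mul_assoc]
  rfl

theorem cram {R L : Type*} [CommRing R] [Field L] (φ : R →+* L) {m n : Type*} [Fintype m] [Fintype n]
    [DecidableEq m] [DecidableEq n] (M : Matrix m n R) (b : m → R) (c : n → L)
    (hc : ∀ a, ∑ d, φ (M a d) * c d = φ (b a)) :
    ∃ (k : ℕ) (i : Fin k → m) (j : Fin k → n), k ≤ Fintype.card m ∧
      φ (M.submatrix i j).det ≠ 0 ∧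
      ∀ {K : Type*} [CommRing K] (ψ : R →+* K), (∀ r, φ r = 0 → ψ r = 0) →
        ∀ w : m → K, (∀ d, ∑ a, w a * ψ (M a d) = 0) →
        ψ (M.submatrix i j).det * ∑ a, w a * ψ (b a) = 0 := by
  obtain ⟨k, i, j, hk, hd, hz⟩ := max_minor φ M
  refine ⟨k, i, j, hk, hd, ?_⟩
  intro K _ ψ hψ w hw
  let A0 : Matrix (Fin k) (Fin k) R := M.submatrix i j
  let A : Matrix (Fin k) (Fin k) L := A0.map φ
  let x : Fin k → R := A0.adjugate *ᵥ (b ∘ i)
  let z : Fin k → L := fun t => ∑ d, (A⁻¹ *ᵥ (fun s => φ (M (i s) d))) t * c d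
  have hbz : ∀ a, φ (b a) = ∑ t, φ (M a (j t)) * z t := by
    intro a
    rw [← hc a]
    have h1 : ∀ d, φ (M a d) * c d =
        ∑ t, φ (M a (j t)) * ((A⁻¹ *ᵥ (fun s => φ (M (i s) d))) t * c d) := by
      intro d
      rw [bordered φ M i j hd hz a d, Finset.sum_mul]
      exact Finset.sum_congr rfl (fun t _ => mul_assoc _ _ _)
    rw [Finset.sum_congr rfl (fun d _ => h1 d), Finset.sum_comm]
    exact Finset.sum_congr rfl (fun t _ => (Finset.mul_sum _ _ _).symm)
  have hdet : A.det = φ A0.det := (RingHom.map_det φ _).symm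
  have hAz : A *ᵥ z = fun s => φ (b (i s)) := by
    funext s
    rw [hbz (i s)]
    rfl
  have hx : ∀ t, φ (x t) = A.det * z t := by
    intro t
    have h1 : A.adjugate *ᵥ (fun s => φ (b (i s))) = A.det • z := by
      rw [← hAz, Matrix.mulVec_mulVec, Matrix.adjugate_mul, Matrix.smul_mulVec, Matrix.one_mulVec]
    have h2 : φ (x t) = (A.adjugate *ᵥ (fun s => φ (b (i s)))) t := by
      change φ (∑ s, A0.adjugate t s * b (i s)) = ∑ s, A.adjugate t s * φ (b (i s))
      rw [map_sum]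
      refine Finset.sum_congr rfl (fun s _ => ?_)
      rw [map_mul]
      have h3 : A.adjugate = (A0.adjugate).map φ := (RingHom.map_adjugate φ A0).symm
      rw [h3]
      rfl
    rw [h2, h1]
    rfl
  have he : ∀ a, φ ((∑ t, M a (j t) * x t) - A0.det * b a) = 0 := by
    intro a
    rw [map_sub, map_sum, map_mul, hbz a, ← hdet, Finset.mul_sum, sub_eq_zero]
    refine Finset.sum_congr rfl (fun t _ => ?_)
    rw [map_mul, hx t]
    ring
  have he2 : ∀ a, (∑ t, ψ (M a (j t)) * ψ (x t)) = ψ A0.det * ψ (b a) := by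
    intro a
    have h1 := hψ _ (he a)
    rw [map_sub, map_sum, map_mul, sub_eq_zero] at h1
    rw [← h1]
    exact Finset.sum_congr rfl (fun t _ => (map_mul ψ _ _).symm)
  change ψ A0.det * ∑ a, w a * ψ (b a) = 0
  have h1 : ψ A0.det * ∑ a, w a * ψ (b a) = ∑ a, w a * ∑ t, ψ (M a (j t)) * ψ (x t) := by
    rw [Finset.mul_sum]
    refine Finset.sum_congr rfl (fun a _ => ?_)
    rw [he2 a]
    ring
  rw [h1]
  have h2 : ∀ a, w a * ∑ t, ψ (M a (j t)) * ψ (x t) = ∑ t, (w a * ψ (M a (j t))) * ψ (x t) := by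
    intro a
    rw [Finset.mul_sum]
    exact Finset.sum_congr rfl (fun t _ => by ring)
  rw [Finset.sum_congr rfl (fun a _ => h2 a), Finset.sum_comm]
  refine Finset.sum_eq_zero (fun t _ => ?_)
  rw [← Finset.sum_mul, hw (j t), zero_mul]

end TRS
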