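import Pool.Agent.TRS.CutA
import Pool.Agent.TRS.Elim

/-!
# TRS-Cut (1.3h)
A polynomial of small degree, not divisible by `r`, which vanishes at all bad points over the curve `r = 0`. PLAN. `I = Ideal.span {r}` is prime, `Q = F[X][X] ⧸ I`,
`L = FractionRing Q`, `φ = algebraMap Q L ∘ mk`, `φ f = 0 ↔ r ∣ f` (see `genPt`, `genPt_aux2` in `Helper72/PF/GenPt.lean`). If `φ (C X) = 0` or `φ X = 0` then `r ∣ C X` or `r ∣ X`, and
`Δ = 1` works: `r ∣ 1` is impossible (`Prime` is not a unit; `0 ∣ 1` is false), `degLe_one`, and a point with `r(x0, y0) = 0` has `x0 = 0` or `y0 = 0` (evaluate the divisibility), against the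
hypotheses. Otherwise `cutA`, and `elim` with `f = fT F T`, `g = (sat F) ^ (4 n)`, `D = 4 n`, `E = 2 * (4 n)` (`natDegree_pow_le`, `2 * (4 n) ≤ D + E`) give `k ≤ 12 n + 1` and a matrix `M`; `Δ = M.det`:
`¬ r ∣ Δ` since `φ Δ ≠ 0`; `DegLe (k * (4 n)) Δ` by `DegLe.det`, `fT_coeff`, `degLe_zero`, and `k * (4 n) ≤ (12 n + 1) * (4 n) ≤ 64 n²`. Given a point, `ψ = evalEvalRingHom x0 y0`,
`φ f = 0 → r ∣ f → ψ f = 0`; `fT_eval` and the hypothesis give `eval₂ = 0`; `ψ Δ * (eval₂ ψ z0 (sat F ^ (4 n))) = 0` and the second factor is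
`(x0 * y0 * kp x0 y0 z0) ^ (4 n) ≠ 0` (`eval₂_pow`, `sat_eval`).
-/

set_option autoImplicit false

namespace TRS

open Matrix Module Polynomial Pool.Agent.Helper72.TV Pool.Agent.Helper72.PT Pool.Agent.Helper72.PF

private theorem cut_eval_dvd {F : Type} [Field F] {r f : F[X][X]} (h : r ∣ f) {x0 y0 : F}
    (h0 : r.evalEval x0 y0 = 0) : f.evalEval x0 y0 = 0 := by
  obtain ⟨g, rfl⟩ := h
  rw [evalEval_mul, h0, zero_mul]

private theorem cut_aux {F L : Type} [Field F] [Field L] (r : F[X][X]) (hr : Prime r ∨ r = 0)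
    (φ : F[X][X] →+* L) (hφ : ∀ f, φ f = 0 ↔ r ∣ f) (n : ℕ) (hn : 1 ≤ n)
    (T : Fin 6 → List Bool × List Bool) (hT : GoodT n T) :
    ∃ Δ : F[X][X], ¬ r ∣ Δ ∧ DegLe (64 * n ^ 2) Δ ∧ ∀ x0 y0 z0 : F, r.evalEval x0 y0 = 0 →
      x0 ≠ 0 → y0 ≠ 0 → kp x0 y0 z0 ≠ 0 →
      (∀ i j, co x0 y0 z0 (wd i (T i).1) j = co x0 y0 z0 (wd i (T i).2) j) →
      Δ.evalEval x0 y0 = 0 := by
  have h1 : ¬ r ∣ (1 : F[X][X]) := by
    rcases hr with hr | hr
    · exact fun h => hr.not_isUnit (isUnit_of_dvd_one h)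
    · rw [hr, zero_dvd_iff]
      exact one_ne_zero
  by_cases hx : φ (C X) = 0
  · refine ⟨1, h1, degLe_one _, ?_⟩
    intro x0 y0 z0 h0 hx0
    exfalso
    apply hx0
    have h2 := cut_eval_dvd ((hφ _).1 hx) h0
    rwa [evalEval_C, eval_X] at h2
  by_cases hy : φ X = 0
  · refine ⟨1, h1, degLe_one _, ?_⟩
    intro x0 y0 z0 h0 hx0 hy0
    exfalso
    apply hy0
    have h2 := cut_eval_dvd ((hφ _).1 hy) h0
    rwa [evalEval_X] at h2
  obtain ⟨c, hc, hcg⟩ := cutA r hr φ hφ hx hy n hn T hT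
  have hg : (sat F ^ (4 * n)).natDegree ≤ 4 * n + 2 * (4 * n) := by
    refine (natDegree_pow_le).trans ?_
    have := Nat.mul_le_mul_left (4 * n) (sat_natDegree F)
    omega
  obtain ⟨k, M, hk, hM, hdet, hψ⟩ := elim φ (fT F T) (sat F ^ (4 * n)) (4 * n) (2 * (4 * n))
    (fT_natDegree n T hT) hg c hc hcg
  refine ⟨M.det, fun h => hdet ((hφ _).2 h), ?_, ?_⟩
  · refine (DegLe.det (D := 4 * n) M ?_).mono ?_
    · intro a b
      rcases hM a b with h | ⟨i, t, h⟩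
      · rw [h]
        exact degLe_zero _
      · rw [h]
        exact fT_coeff n T hT i t
    · have h2 : k * (4 * n) ≤ (4 * n + 2 * (4 * n) + 1) * (4 * n) := Nat.mul_le_mul_right _ hk
      nlinarith
  · intro x0 y0 z0 h0 hx0 hy0 hkp hco
    have hX : evalEvalRingHom x0 y0 (C X : F[X][X]) = x0 := by
      rw [coe_evalEvalRingHom, evalEval_C, eval_X]
    have hY : evalEvalRingHom x0 y0 (X : F[X][X]) = y0 := by
      rw [coe_evalEvalRingHom, evalEval_X]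
    have h2 := hψ (evalEvalRingHom x0 y0) z0 (fun f hf => by
      rw [coe_evalEvalRingHom]
      exact cut_eval_dvd ((hφ f).1 hf) h0) (fun p => by
      rw [fT_eval, hX, hY, sub_eq_zero]
      exact hco p.1 p.2)
    rw [eval₂_pow, sat_eval, hX, hY] at h2
    rcases mul_eq_zero.1 h2 with h3 | h3
    · rwa [coe_evalEvalRingHom] at h3
    · exact absurd (pow_eq_zero_iff (by omega) |>.1 h3)
        (mul_ne_zero (mul_ne_zero hx0 hy0) hkp)

private theorem cut_aux2 {F Q : Type} [Field F] [CommRing Q] [IsDomain Q] (r : F[X][X])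
    (hr : Prime r ∨ r = 0) (ψ : F[X][X] →+* Q) (hψ : ∀ f, ψ f = 0 ↔ r ∣ f) (n : ℕ) (hn : 1 ≤ n)
    (T : Fin 6 → List Bool × List Bool) (hT : GoodT n T) :
    ∃ Δ : F[X][X], ¬ r ∣ Δ ∧ DegLe (64 * n ^ 2) Δ ∧ ∀ x0 y0 z0 : F, r.evalEval x0 y0 = 0 →
      x0 ≠ 0 → y0 ≠ 0 → kp x0 y0 z0 ≠ 0 →
      (∀ i j, co x0 y0 z0 (wd i (T i).1) j = co x0 y0 z0 (wd i (T i).2) j) →
      Δ.evalEval x0 y0 = 0 := by
  refine cut_aux (L := FractionRing Q) r hr ((algebraMap Q (FractionRing Q)).comp ψ) (fun f => ?_)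
    n hn T hT
  rw [RingHom.comp_apply, map_eq_zero_iff _ (IsFractionRing.injective Q (FractionRing Q)), hψ]

theorem cut {F : Type} [Field F] (r : F[X][X]) (hr : Prime r ∨ r = 0) (n : ℕ) (hn : 1 ≤ n)
    (T : Fin 6 → List Bool × List Bool) (hT : GoodT n T) :
    ∃ Δ : F[X][X], ¬ r ∣ Δ ∧ DegLe (64 * n ^ 2) Δ ∧ ∀ x0 y0 z0 : F, r.evalEval x0 y0 = 0 →
      x0 ≠ 0 → y0 ≠ 0 → kp x0 y0 z0 ≠ 0 →
      (∀ i j, co x0 y0 z0 (wd i (T i).1) j = co x0 y0 z0 (wd i (T i).2) j) →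
      Δ.evalEval x0 y0 = 0 := by
  have hI : (Ideal.span {r} : Ideal F[X][X]).IsPrime := by
    rcases hr with hr | hr
    · exact (Ideal.span_singleton_prime hr.ne_zero).2 hr
    · rw [hr, Ideal.span_singleton_zero]
      exact Ideal.isPrime_bot
  refine cut_aux2 (Q := F[X][X] ⧸ (Ideal.span {r} : Ideal F[X][X])) r hr
    (Ideal.Quotient.mk (Ideal.span {r} : Ideal F[X][X])) (fun f => ?_) n hn T hT
  rw [Ideal.Quotient.eq_zero_iff_mem, Ideal.mem_span_singleton]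

end TRS
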