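import Pool.Agent.TRS.Defs
import Pool.Agent.Helper72.PF.Trip
import Pool.Agent.Helper72.PF.Val

/-!
# TRS-Gen (0.7h)
At a point `(x, y, z)` with one coordinate transcendental, one of the six types of test words is free. PLAN. Copy the proof of `genPt_aux` in
`Helper72/PF/GenPt.lean`: `exists_val` gives a valuation with `1 < v x`, `1 < v y` or `1 < v z`; `s` with `s² - z s + 1 = 0`,
`A = !![x, -1; 1, 0]`, `B = !![0, s; -s⁻¹, y]` have `tr A = x`, `tr B = y`, `tr (A B) = z`; `tr_comm` and `hk` give `tr [A, B] ≠ 2`; `trip` (its conditions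
`h2, h3, h4` follow from `x ≠ 0`, `y ≠ 0`) gives `i` with `Free A B i`. If all four coefficients of `wd i l` and `wd i l'` agree then `evw A B (wd i l) = evw A B (wd i l')`
by `co_eval`, so `l = l'`.
-/

set_option autoImplicit false

namespace TRS

open Matrix Module Polynomial Pool.Agent.Helper72.TV Pool.Agent.Helper72.PT Pool.Agent.Helper72.PF

theorem gen3 {F L : Type*} [Field F] [Field L] [IsAlgClosed L] [Algebra F L] (x y z : L)
    (ht : Transcendental F x ∨ Transcendental F y ∨ Transcendental F z) (hx : x ≠ 0) (hy : y ≠ 0)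
    (hk : kp x y z ≠ 0) :
    ∃ i : Fin 6, ∀ l l' : List Bool, l.length = l'.length → l ≠ l' →
      ∃ j : Fin 4, co x y z (wd i l) j ≠ co x y z (wd i l') j := by
  have hV : ∃ V : ValuationSubring L, 1 < V.valuation x ∨ 1 < V.valuation y ∨ 1 < V.valuation z := by
    rcases ht with ht | ht | ht
    · obtain ⟨V, hV⟩ := exists_val x ht
      exact ⟨V, Or.inl hV⟩
    · obtain ⟨V, hV⟩ := exists_val y ht
      exact ⟨V, Or.inr (Or.inl hV)⟩
    · obtain ⟨V, hV⟩ := exists_val z ht
      exact ⟨V, Or.inr (Or.inr hV)⟩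
  obtain ⟨V, hV⟩ := hV
  obtain ⟨s, hs⟩ : ∃ s : L, s ^ 2 - z * s + 1 = 0 := by
    have hdeg : (X ^ 2 - C z * X + 1 : L[X]).degree = 2 := by
      have e1 : (X ^ 2 - C z * X + 1 : L[X]) = C 1 * X ^ 2 + C (-z) * X + C 1 := by
        simp
        ring
      rw [e1]
      exact degree_quadratic one_ne_zero
    obtain ⟨s, hs⟩ := IsAlgClosed.exists_root (X ^ 2 - C z * X + 1 : L[X]) (by
      rw [hdeg]
      norm_num)
    refine ⟨s, ?_⟩
    simpa [IsRoot] using hs
  have hs0 : s ≠ 0 := by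
    intro h0
    rw [h0] at hs
    simp at hs
  have hsz : s⁻¹ + s = z := by
    field_simp
    linear_combination hs
  obtain ⟨A, hA⟩ : ∃ A : SL2 L, (A : Matrix (Fin 2) (Fin 2) L) = !![x, -1; 1, 0] :=
    ⟨⟨!![x, -1; 1, 0], by rw [det_fin_two_of]; ring⟩, rfl⟩
  obtain ⟨B, hB⟩ : ∃ B : SL2 L, (B : Matrix (Fin 2) (Fin 2) L) = !![0, s; -s⁻¹, y] :=
    ⟨⟨!![0, s; -s⁻¹, y], by rw [det_fin_two_of]; field_simp; ring⟩, rfl⟩
  have htA : tr A = x := by
    unfold tr
    rw [hA, trace_fin_two_of]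
    ring
  have htB : tr B = y := by
    unfold tr
    rw [hB, trace_fin_two_of]
    ring
  have htAB : tr (A * B) = z := by
    unfold tr
    have e1 : ((A * B : SL2 L) : Matrix (Fin 2) (Fin 2) L) = (A : Matrix (Fin 2) (Fin 2) L) * B :=
      rfl
    rw [e1, hA, hB, trace_fin_two]
    simp only [Matrix.mul_apply, Fin.sum_univ_two, Matrix.of_apply, Matrix.cons_val', Matrix.cons_val_zero,
      Matrix.cons_val_one, Matrix.cons_val_fin_one]
    rw [← hsz]
    ring
  have h1 : tr (A * B * A⁻¹ * B⁻¹) ≠ 2 := by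
    rw [tr_comm, htA, htB, htAB]
    intro h0
    apply hk
    unfold kp
    linear_combination h0
  obtain ⟨i, hi⟩ := trip V.valuation A B (by
      rw [htA, htB, htAB]
      exact hV) h1 (by rw [htA]; exact fun h0 => hx h0.1)
    (by rw [htA]; exact fun h0 => hx h0.1) (by rw [htB, htAB]; exact fun h0 => hy h0.1)
  refine ⟨i, fun l l' hl hne => ?_⟩
  by_contra hcon
  push Not at hcon
  apply hne
  apply hi l l' hl
  apply Subtype.ext
  have e1 := co_eval A B (wd i l)
  have e2 := co_eval A B (wd i l')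
  rw [htA, htB, htAB] at e1 e2
  rw [hcon 0, hcon 1, hcon 2, hcon 3] at e1
  exact e1.trans e2.symm

end TRS
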