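import Pool.Agent.TRS.Defs

/-!
# TRS-Trc (0.5h)
On a plane curve (or in the plane) one of the two coordinates is transcendental. PLAN. Copy `genPt_trans` of `Helper72/PF/GenPt.lean`: if
`p(x) = 0` and `q(y) = 0` with nonzero `p, q ∈ F[X]` then `φ (C p) = 0` and `φ (q.map C) = 0`, so `r ∣ C p` and `r ∣ q.map C`: for `r = 0` this is absurd
(`C p ≠ 0`), otherwise `natDegree r = 0`, `r = C u`, `u` divides all `C (q.coeff k)`, so `u` is a unit, contradiction.
-/

set_option autoImplicit false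

namespace TRS

open Matrix Module Polynomial Pool.Agent.Helper72.TV Pool.Agent.Helper72.PT Pool.Agent.Helper72.PF

private theorem trc_aux {F L : Type*} [Field F] [Field L] (h : F[X][X])
    (hh : Prime h ∨ h = 0) (φ : F[X][X] →+* L) (hφ : ∀ f, φ f = 0 ↔ h ∣ f)
    (p q : F[X]) (hp : p ≠ 0) (hq : q ≠ 0) (h1 : φ (C p) = 0) (h2 : φ (q.map C) = 0) : False := by
  rw [hφ] at h1 h2
  have hCp : (C p : F[X][X]) ≠ 0 := C_ne_zero.2 hp
  rcases hh with hh | hh
  · have h3 : h.natDegree = 0 := by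
      have := natDegree_le_of_dvd h1 hCp
      rw [natDegree_C] at this
      omega
    rw [eq_C_of_natDegree_eq_zero h3] at h2
    rw [C_dvd_iff_dvd_coeff] at h2
    have h4 : ∃ k, q.coeff k ≠ 0 := by
      by_contra hcon
      push Not at hcon
      exact hq (Polynomial.ext (by simpa using hcon))
    obtain ⟨k, hk⟩ := h4
    have h5 := h2 k
    rw [coeff_map] at h5
    have h6 : IsUnit (h.coeff 0) := isUnit_of_dvd_unit h5 (isUnit_C.2 (isUnit_iff_ne_zero.2 hk))
    apply hh.not_isUnit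
    rw [eq_C_of_natDegree_eq_zero h3]
    exact isUnit_C.2 h6
  · rw [hh, zero_dvd_iff] at h1
    exact hCp h1

theorem trc {F L : Type*} [Field F] [Field L] [Algebra F L] (r : F[X][X]) (hr : Prime r ∨ r = 0)
    (φ : F[X][X] →+* L) (hφ : ∀ f, φ f = 0 ↔ r ∣ f) (hF : ∀ a : F, φ (C (C a)) = algebraMap F L a) :
    Transcendental F (φ (C X)) ∨ Transcendental F (φ X) := by
  by_contra hcon
  rw [not_or] at hcon
  obtain ⟨hy, hz⟩ := hcon
  unfold Transcendental at hy hz
  rw [not_not] at hy hz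
  obtain ⟨p, hp, hp1⟩ := hy
  obtain ⟨q, hq, hq1⟩ := hz
  have hal : algebraMap F L = φ.comp ((C : F[X] →+* F[X][X]).comp (C : F →+* F[X])) := by
    ext a
    exact (hF a).symm
  have hay : aeval (φ (C X)) p = φ (C p) := by
    rw [aeval_def, hal, ← hom_eval₂, ← hom_eval₂, eval₂_C_X]
  have haz : aeval (φ X) q = φ (q.map C) := by
    rw [aeval_def, hal, ← hom_eval₂]
    rfl
  rw [hay] at hp1
  rw [haz] at hq1
  exact trc_aux r hr φ hφ p q hp hq hp1 hq1

end TRS
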