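import Pool.Agent.TRS.Cof
import Pool.Agent.TRS.Gen
import Pool.Agent.TRS.Trc
import Pool.Agent.TRS.Pid

/-!
# TRS: a power of the saturating polynomial in the ideal of coincidences

Over the function field `L` of a plane curve (or of the plane) the ideal of the coincidence
polynomials contains a power of the saturating polynomial, with degree bounds for the coefficients.
At a common root `ζ` of the coincidence polynomials in the algebraic closure `kp x y ζ` must vanish
by `gen3`, hence the saturating polynomial vanishes there, and `pidBound` applies.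
-/

set_option autoImplicit false

namespace TRS

open Matrix Module Polynomial Pool.Agent.Helper72.TV Pool.Agent.Helper72.PT Pool.Agent.Helper72.PF

/-- vanishing at all common roots, from a point of view of an algebraically closed extension -/
private theorem cutA_root {F L K : Type*} [Field F] [Field L] [Field K] [IsAlgClosed K]
    (r : F[X][X]) (hr : Prime r ∨ r = 0)
    (φ : F[X][X] →+* L) (hφ : ∀ f, φ f = 0 ↔ r ∣ f) (hx : φ (C X) ≠ 0) (hy : φ X ≠ 0) (n : ℕ)
    (T : Fin 6 → List Bool × List Bool) (hT : GoodT n T) (j : L →+* K) (ζ : K)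
    (h : ∀ p, (fT F T p).eval₂ (j.comp φ) ζ = 0) : (sat F).eval₂ (j.comp φ) ζ = 0 := by
  rw [sat_eval]
  by_contra hne
  have hk : kp ((j.comp φ) (C X)) ((j.comp φ) X) ζ ≠ 0 := by
    intro h0
    apply hne
    rw [h0, mul_zero]
  let _ : Algebra F L := (φ.comp ((C : F[X] →+* F[X][X]).comp C)).toAlgebra
  let _ : Algebra L K := j.toAlgebra
  let _ : Algebra F K := (j.comp (φ.comp ((C : F[X] →+* F[X][X]).comp C))).toAlgebra
  have _ : IsScalarTower F L K := IsScalarTower.of_algebraMap_eq (fun a => rfl)
  have hj : Function.Injective (algebraMap L K) := (algebraMap L K).injective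
  have ht := trc r hr φ hφ (fun a => rfl)
  have ht' : Transcendental F ((j.comp φ) (C X)) ∨ Transcendental F ((j.comp φ) X) ∨
      Transcendental F ζ := by
    rcases ht with h1 | h1
    · left
      exact (transcendental_algebraMap_iff hj).2 h1
    · right
      left
      exact (transcendental_algebraMap_iff hj).2 h1
  have hx' : (j.comp φ) (C X) ≠ 0 := by
    intro h0
    exact hx ((map_eq_zero j).1 h0)
  have hy' : (j.comp φ) X ≠ 0 := by
    intro h0
    exact hy ((map_eq_zero j).1 h0)
  obtain ⟨i, hi⟩ := gen3 (F := F) ((j.comp φ) (C X)) ((j.comp φ) X) ζ ht' hx' hy' hk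
  obtain ⟨hl1, hl2, hl3⟩ := hT i
  obtain ⟨t, ht⟩ := hi (T i).1 (T i).2 (hl1.trans hl2.symm) hl3
  have := h (i, t)
  rw [fT_eval] at this
  exact ht (sub_eq_zero.1 this)

theorem cutA {F L : Type*} [Field F] [Field L] (r : F[X][X]) (hr : Prime r ∨ r = 0)
    (φ : F[X][X] →+* L) (hφ : ∀ f, φ f = 0 ↔ r ∣ f) (hx : φ (C X) ≠ 0) (hy : φ X ≠ 0) (n : ℕ)
    (hn : 1 ≤ n) (T : Fin 6 → List Bool × List Bool) (hT : GoodT n T) :
    ∃ c : Fin 6 × Fin 4 → L[X], (∀ p, (c p).natDegree ≤ 2 * (4 * n)) ∧
      ∑ p, c p * (fT F T p).map φ = ((sat F) ^ (4 * n)).map φ := by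
  have hroot : ∀ ζ : AlgebraicClosure L, (∀ p, aeval ζ ((fT F T p).map φ) = 0) →
      aeval ζ ((sat F).map φ) = 0 := by
    intro ζ h
    rw [aeval_def, eval₂_map]
    refine cutA_root r hr φ hφ hx hy n T hT (algebraMap L (AlgebraicClosure L)) ζ ?_
    intro p
    have := h p
    rw [aeval_def, eval₂_map] at this
    exact this
  have hne : ∃ p, (fT F T p).map φ ≠ 0 := by
    by_contra hcon
    push Not at hcon
    have h1 : ∀ ζ : AlgebraicClosure L, aeval ζ ((sat F).map φ) = 0 := by
      intro ζ
      apply hroot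
      intro p
      rw [hcon p, map_zero]
    have h2 : ((sat F).map φ).map (algebraMap L (AlgebraicClosure L)) = 0 := by
      apply Polynomial.funext
      intro ζ
      rw [eval_map_algebraMap, h1 ζ, eval_zero]
    have h3 : (sat F).map φ = 0 :=
      (Polynomial.map_eq_zero_iff (algebraMap L (AlgebraicClosure L)).injective).1 h2
    exact sat_ne φ hx hy h3
  obtain ⟨c, hc1, hc2⟩ := pidBound (fun p => (fT F T p).map φ) ((sat F).map φ) (4 * n) (by omega)
    (fun p => (natDegree_map_le).trans (fT_natDegree n T hT p)) hne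
    ((natDegree_map_le).trans (sat_natDegree F)) hroot
  refine ⟨c, hc1, ?_⟩
  rw [hc2, Polynomial.map_pow]

end TRS
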