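import Pool.Agent.Helper72.PF.Coef

/-! # TRS: exceptional trace sets, definitions

`SL2 F`, `tr`, `Words S L`, `ball S n` are in `Helper72.PT.Defs` / `Helper72.TV.Defs`; the six pairs of test words `pw`, the words `wd i l`,
their values `evw a b (wd i l)` and their coefficients `co x y z (wd i l) j` in the basis `1, a, b, a b` are in `Helper72.PF.Defs`. -/

set_option autoImplicit false

namespace TRS

open Matrix Module Polynomial Pool.Agent.Helper72.TV Pool.Agent.Helper72.PT Pool.Agent.Helper72.PF

/-- `x² + y² + z² - x y z - 4 = tr [a, b] - 2` -/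
def kp {R : Type*} [CommRing R] (x y z : R) : R := x ^ 2 + y ^ 2 + z ^ 2 - x * y * z - 4

/-- both partial degrees of a polynomial in two variables are at most `D` -/
def DegLe {F : Type*} [Field F] (D : ℕ) (r : F[X][X]) : Prop :=
  r.natDegree ≤ D ∧ (Bivariate.swap r).natDegree ≤ D

/-- coefficients of a word as polynomials in three variables: `x = C (C X)`, `y = C X`, `z = X` -/
noncomputable def pol3 (F : Type*) [Field F] (l : List (Fin 4)) : Fin 4 → Polynomial F[X][X] :=
  co (C (C X) : Polynomial F[X][X]) (C X) X l

/-- the polynomial `x y (x² + y² + z² - x y z - 4)` -/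
noncomputable def sat (F : Type*) [Field F] : Polynomial F[X][X] :=
  (C (C X) : Polynomial F[X][X]) * C X * kp (C (C X) : Polynomial F[X][X]) (C X) X

/-- the coincidence polynomials of the lists `T i` -/
noncomputable def fT (F : Type*) [Field F] (T : Fin 6 → List Bool × List Bool) :
    Fin 6 × Fin 4 → Polynomial F[X][X] :=
  fun p => pol3 F (wd p.1 (T p.1).1) p.2 - pol3 F (wd p.1 (T p.1).2) p.2

/-- `T` consists of six pairs of different lists of length `n` -/
def GoodT (n : ℕ) (T : Fin 6 → List Bool × List Bool) : Prop :=
  ∀ i, (T i).1.length = n ∧ (T i).2.length = n ∧ (T i).1 ≠ (T i).2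

theorem kp_map {R R' : Type*} [CommRing R] [CommRing R'] (f : R →+* R') (x y z : R) :
    f (kp x y z) = kp (f x) (f y) (f z) := by
  unfold kp
  simp only [map_sub, map_add, map_mul, map_pow, map_ofNat]

end TRS
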