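import Pool.Agent.TRS.Defs
import Pool.Agent.Helper72.PF.SwapDeg

/-!
# TRS-Deg (0.7h)
Bivariate degree bounds. PLAN. `Bivariate.swap` is a ring isomorphism (`map_add`, `map_mul`, `map_sum`, ...), so everything is
`natDegree_add_le`, `natDegree_mul_le`, `natDegree_sum_le_of_forall_le`, `natDegree_prod_le` applied twice. `DegLe.det`: `Matrix.det_apply`, sum over
permutations of signs times products of `k` entries (see `natDegree_resultant_le` in `Helper72/PF/Bez.lean` for the same argument).
-/

set_option autoImplicit false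

namespace TRS

open Matrix Module Polynomial Pool.Agent.Helper72.TV Pool.Agent.Helper72.PT Pool.Agent.Helper72.PF

private theorem dg_det {R : Type*} [CommRing R] {D k : ℕ} (M : Matrix (Fin k) (Fin k) R[X])
    (h : ∀ i j, (M i j).natDegree ≤ D) : M.det.natDegree ≤ k * D := by
  classical
  rw [Matrix.det_apply]
  refine Polynomial.natDegree_sum_le_of_forall_le _ _ fun σ _ => ?_
  have hprod : (∏ i, M (σ i) i).natDegree ≤ k * D := by
    refine (Polynomial.natDegree_prod_le _ _).trans ?_
    refine (Finset.sum_le_sum fun i _ => h (σ i) i).trans ?_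
    rw [Finset.sum_const, Finset.card_univ, Fintype.card_fin, smul_eq_mul]
  rcases Int.units_eq_one_or (Equiv.Perm.sign σ) with hs | hs
  · rw [hs, one_smul]
    exact hprod
  · rw [hs, Units.neg_smul, one_smul, Polynomial.natDegree_neg]
    exact hprod

theorem DegLe.mono {F : Type*} [Field F] {D E : ℕ} {r : F[X][X]} (h : DegLe D r) (hDE : D ≤ E) :
    DegLe E r :=
  ⟨h.1.trans hDE, h.2.trans hDE⟩

theorem degLe_zero {F : Type*} [Field F] (D : ℕ) : DegLe D (0 : F[X][X]) := by
  refine ⟨?_, ?_⟩
  · rw [natDegree_zero]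
    exact Nat.zero_le D
  · rw [map_zero, natDegree_zero]
    exact Nat.zero_le D

theorem degLe_one {F : Type*} [Field F] (D : ℕ) : DegLe D (1 : F[X][X]) := by
  refine ⟨?_, ?_⟩
  · rw [natDegree_one]
    exact Nat.zero_le D
  · rw [map_one, natDegree_one]
    exact Nat.zero_le D

theorem degLe_CX {F : Type*} [Field F] : DegLe 1 (C X : F[X][X]) := by
  refine ⟨?_, ?_⟩
  · rw [natDegree_C]
    exact Nat.zero_le 1
  · rw [Bivariate.swap_X]
    exact natDegree_X_le

theorem degLe_X {F : Type*} [Field F] : DegLe 1 (X : F[X][X]) := by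
  refine ⟨natDegree_X_le, ?_⟩
  rw [Bivariate.swap_Y, natDegree_C]
  exact Nat.zero_le 1

theorem DegLe.add {F : Type*} [Field F] {D : ℕ} {r s : F[X][X]} (h : DegLe D r) (h' : DegLe D s) :
    DegLe D (r + s) := by
  refine ⟨natDegree_add_le_of_degree_le h.1 h'.1, ?_⟩
  rw [map_add]
  exact natDegree_add_le_of_degree_le h.2 h'.2

theorem DegLe.neg {F : Type*} [Field F] {D : ℕ} {r : F[X][X]} (h : DegLe D r) :
    DegLe D (-r) := by
  refine ⟨?_, ?_⟩
  · rw [natDegree_neg]
    exact h.1
  · rw [map_neg, natDegree_neg]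
    exact h.2

theorem DegLe.sub {F : Type*} [Field F] {D : ℕ} {r s : F[X][X]} (h : DegLe D r) (h' : DegLe D s) :
    DegLe D (r - s) := by
  rw [sub_eq_add_neg]
  exact h.add h'.neg

theorem DegLe.mul {F : Type*} [Field F] {D E : ℕ} {r s : F[X][X]} (h : DegLe D r)
    (h' : DegLe E s) : DegLe (D + E) (r * s) := by
  refine ⟨natDegree_mul_le.trans (Nat.add_le_add h.1 h'.1), ?_⟩
  rw [map_mul]
  exact natDegree_mul_le.trans (Nat.add_le_add h.2 h'.2)

theorem DegLe.det {F : Type*} [Field F] {D k : ℕ} (M : Matrix (Fin k) (Fin k) F[X][X])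
    (h : ∀ i j, DegLe D (M i j)) : DegLe (k * D) M.det := by
  refine ⟨dg_det M fun i j => (h i j).1, ?_⟩
  have h1 : Bivariate.swap M.det = (M.map (Bivariate.swap (R := F))).det :=
    RingHom.map_det (Bivariate.swap (R := F)).toRingEquiv.toRingHom M
  rw [h1]
  exact dg_det _ fun i j => (h i j).2

end TRS
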