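import Pool.Agent.TRS.Gd

/-!
# TRS-Dlt (1.0h)
From the version with `n` to the version with `δ`. PLAN. `mono`: `Short` is monotone in `L`, so everything is immediate (`Set.ncard_le_ncard` in the finite group for the second part). `dlt`: let `Λ = log |G| ≥ 1` (as `|G| ≥ 3`). For `δ > 0` put
`c = δ / (200 log 2)`, `n = max 1 ⌊min c 1 * Λ⌋₊`: `1 ≤ n ≤ Λ`. `n ≥ min c 1 * Λ / 2`, so `Λ ^ 9 / n ^ 8 ≤ (2 / min c 1) ^ 8 Λ`; `2 ^ (200 n) = exp (200 n log 2) ≤ max (2 ^ 200) (exp (δ Λ)) ≤ 2 ^ 200 * |G| ^ δ`. `C' = max (C * (2 / min c 1) ^ 8) (2 ^ 200)`; `mono`.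
-/

set_option autoImplicit false

namespace TRS

open Matrix Module Pool.Agent.Helper72.TV Pool.Agent.Helper72.PT Pool.Agent.Helper72.PF
open scoped MatrixGroups

theorem claim_mono {G : Type} [Group G] [Finite G] {F : Type} (χ : G → F) {L L' M M' : ℝ}
    (hL : L ≤ L') (hM : M ≤ M') (h : Claim G χ L M) : Claim G χ L' M' := by
  have hs : ∀ S : Set G, Short S L → Short S L' := fun S hS g => by
    obtain ⟨m, hm, hmL⟩ := hS g
    exact ⟨m, hm, hmL.trans hL⟩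
  obtain ⟨⟨T, hT, h1⟩, h2, A, hA, hB, h3⟩ := h
  refine ⟨⟨T, hT.trans hM, fun S hS hs' => hs S (h1 S hS hs')⟩, fun S hS => ?_, A, ?_, ?_, ?_⟩
  · have h4 : {b : G | ¬Short (insert b S) L'} ⊆ {b : G | ¬Short (insert b S) L} :=
      fun b hb hb' => hb (hs _ hb')
    have h5 := Set.ncard_le_ncard h4 (Set.toFinite _)
    exact (Nat.cast_le.2 h5).trans ((h2 S hS).trans hM)
  · exact hA.trans (mul_le_mul_of_nonneg_left hM (Nat.cast_nonneg _))
  · exact fun B hB' => (hB B hB').trans hM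
  · exact fun S hS hn => h3 S hS (fun hn' => hn (hs S hn'))

theorem dlt (C : ℝ) (hC : 0 < C) (δ : ℝ) (hδ : 0 < δ) : ∃ C' : ℝ, 0 < C' ∧
    ∀ (G : Type) [Group G] [Finite G] (F : Type) (χ : G → F), 3 ≤ Nat.card G →
      (∀ n : ℕ, 1 ≤ n → (n : ℝ) ≤ Real.log (Nat.card G) →
        Claim G χ (C * (Real.log (Nat.card G) ^ 9 / (n : ℝ) ^ 8)) ((2 : ℝ) ^ (200 * n))) →
      Claim G χ (C' * Real.log (Nat.card G)) (C' * (Nat.card G : ℝ) ^ δ) := by
  have hl2 : (0 : ℝ) < Real.log 2 := Real.log_pos (by norm_num)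
  obtain ⟨c, hc⟩ : ∃ c : ℝ, c = δ / (200 * Real.log 2) := ⟨_, rfl⟩
  have hc0 : 0 < c := by rw [hc]; positivity
  have hcδ : c * (200 * Real.log 2) = δ := by
    rw [hc]
    field_simp
  obtain ⟨c1, hc1⟩ : ∃ c1 : ℝ, c1 = min c 1 := ⟨_, rfl⟩
  have hc10 : 0 < c1 := by rw [hc1]; exact lt_min hc0 one_pos
  have hc11 : c1 ≤ 1 := by rw [hc1]; exact min_le_right _ _
  have hc1c : c1 ≤ c := by rw [hc1]; exact min_le_left _ _
  refine ⟨max (C * (2 / c1) ^ 8) (2 ^ 200), lt_max_of_lt_right (by positivity), ?_⟩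
  intro G _ _ F χ hG h
  have hG3 : (3 : ℝ) ≤ (Nat.card G : ℝ) := by exact_mod_cast hG
  have hG0 : (0 : ℝ) < (Nat.card G : ℝ) := by linarith
  obtain ⟨Λ, hΛ⟩ : ∃ Λ : ℝ, Λ = Real.log (Nat.card G) := ⟨_, rfl⟩
  have hΛ1 : 1 ≤ Λ := by
    rw [hΛ, Real.le_log_iff_exp_le hG0]
    exact (Real.exp_one_lt_d9.le.trans (by norm_num)).trans hG3
  have hexp : (Nat.card G : ℝ) = Real.exp Λ := by rw [hΛ, Real.exp_log hG0]
  rw [← hΛ] at h ⊢
  obtain ⟨n, hn⟩ : ∃ n : ℕ, n = max 1 ⌊c1 * Λ⌋₊ := ⟨_, rfl⟩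
  have hfl : (⌊c1 * Λ⌋₊ : ℝ) ≤ c1 * Λ := Nat.floor_le (by positivity)
  have hn1 : 1 ≤ n := by rw [hn]; exact le_max_left _ _
  have hnΛ : (n : ℝ) ≤ Λ := by
    rw [hn]
    push_cast
    refine max_le hΛ1 (hfl.trans ?_)
    nlinarith
  have hn2 : c1 * Λ / 2 ≤ n := by
    have h1 := Nat.lt_floor_add_one (c1 * Λ)
    have h2 : ((1 : ℕ) : ℝ) ≤ (n : ℝ) := Nat.cast_le.2 hn1
    have h3 : (⌊c1 * Λ⌋₊ : ℝ) ≤ (n : ℝ) := by
      rw [hn]
      exact Nat.cast_le.2 (le_max_right _ _)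
    push_cast at h2
    linarith
  have hx0 : 0 < c1 * Λ / 2 := by positivity
  have hn0 : (0 : ℝ) < n := lt_of_lt_of_le hx0 hn2
  refine claim_mono χ ?_ ?_ (h n hn1 hnΛ)
  · have h1 : Λ ^ 9 / (n : ℝ) ^ 8 ≤ (2 / c1) ^ 8 * Λ := by
      rw [div_le_iff₀ (by positivity)]
      have h2 : (c1 * Λ / 2) ^ 8 ≤ (n : ℝ) ^ 8 := pow_le_pow_left₀ hx0.le hn2 8
      have h3 : Λ ^ 9 = (2 / c1) ^ 8 * Λ * (c1 * Λ / 2) ^ 8 := by
        field_simp
      rw [h3]
      exact mul_le_mul_of_nonneg_left h2 (by positivity)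
    calc C * (Λ ^ 9 / (n : ℝ) ^ 8) ≤ C * ((2 / c1) ^ 8 * Λ) := mul_le_mul_of_nonneg_left h1 hC.le
      _ = C * (2 / c1) ^ 8 * Λ := by ring
      _ ≤ _ := mul_le_mul_of_nonneg_right (le_max_left _ _) (by linarith)
  · have hGδ : (Nat.card G : ℝ) ^ δ = Real.exp (Λ * δ) := by
      rw [hexp, ← Real.exp_mul]
    have h1 : (2 : ℝ) ^ (200 * n) ≤ 2 ^ 200 * (Nat.card G : ℝ) ^ δ := by
      rcases le_total ⌊c1 * Λ⌋₊ 1 with h2 | h2
      · have h3 : n = 1 := by rw [hn]; exact max_eq_left h2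
        rw [h3, mul_one, hGδ]
        refine le_mul_of_one_le_right (by positivity) (Real.one_le_exp (by positivity))
      · have h3 : n = ⌊c1 * Λ⌋₊ := by rw [hn]; exact max_eq_right h2
        have h4 : (n : ℝ) ≤ c * Λ := by
          rw [h3]
          exact hfl.trans (mul_le_mul_of_nonneg_right hc1c (by linarith))
        have h5 : (2 : ℝ) ^ (200 * n) = Real.exp (200 * n * Real.log 2) := by
          rw [mul_comm (200 * (n : ℝ)), Real.exp_mul, Real.exp_log two_pos]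
          rw [← Real.rpow_natCast]
          push_cast
          rfl
        have h6 : (2 : ℝ) ^ (200 * n) ≤ (Nat.card G : ℝ) ^ δ := by
          rw [h5, hGδ, Real.exp_le_exp]
          calc 200 * (n : ℝ) * Real.log 2 = n * (200 * Real.log 2) := by ring
            _ ≤ c * Λ * (200 * Real.log 2) := mul_le_mul_of_nonneg_right h4 (by positivity)
            _ = Λ * δ := by rw [← hcδ]; ring
        refine h6.trans (le_mul_of_one_le_left (by positivity) (one_le_pow₀ (by norm_num)))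
    exact h1.trans (mul_le_mul_of_nonneg_right (le_max_right _ _) (by positivity))

end TRS
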