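import Pool.Agent.TRS.Cnt

/-!
# TRS-Exc (1.0h)
The exceptional set of traces. PLAN. `E` = union of `{0, 2, -2}` and of the sets of `cnt` over all functions `T : Fin 6 → (Fin n → Bool) × (Fin n → Bool)` with different components (lists
`List.ofFn`, as in `Helper72/PF/BadCount.lean`), a subset of the finite `F` (`Set.Finite.toFinset` or `Finset.univ.filter`, classical); there are `2 ^ (12 n)` functions, so
`E.card ≤ 3 + 2 ^ (12 n) * (6 * (64 n²)⁴) = 3 + 2 ^ (12 n) * 6 * 2 ^ 24 * n ^ 8 ≤ 3 + 2 ^ (47 n) ≤ 2 ^ (48 n)` (`n < 2 ^ n`, `6 * 2 ^ 24 ≤ 2 ^ 27 ≤ 2 ^ (27 n)`, `3 ≤ 2 ^ (47 n)`). If for some `u, v` no type `i` is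
injective on lists of length `n`, choose coincidences `T i`; `co_of_eq` (with `tr [u, v] ≠ 2`) gives equal coefficients, `kp (tr u) (tr v) (tr (u v)) = tr [u, v] - 2 ≠ 0` (`tr_comm`), so `tr u ∈ E`
(if `tr u = 0` also `tr u ∈ E`).
-/

set_option autoImplicit false

namespace TRS

open Matrix Module Polynomial Pool.Agent.Helper72.TV Pool.Agent.Helper72.PT Pool.Agent.Helper72.PF

private theorem exc_ofFn {n : ℕ} (l : List Bool) (h : l.length = n) :
    ∃ f : Fin n → Bool, List.ofFn f = l := by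
  subst h
  exact ⟨l.get, List.ofFn_get l⟩

private theorem exc_num (n : ℕ) (hn : 1 ≤ n) :
    3 + 2 ^ (12 * n) * (6 * (64 * n ^ 2) ^ 4) ≤ 2 ^ (48 * n) := by
  have h1 : n ^ 8 ≤ 2 ^ (8 * n) := by
    have h2 : n ≤ 2 ^ n := Nat.lt_two_pow_self.le
    calc n ^ 8 ≤ (2 ^ n) ^ 8 := Nat.pow_le_pow_left h2 8
      _ = 2 ^ (8 * n) := by rw [← pow_mul, mul_comm]
  have h3 : 6 * (64 * n ^ 2) ^ 4 ≤ 2 ^ 27 * n ^ 8 := by
    have e : 6 * (64 * n ^ 2) ^ 4 = 6 * 2 ^ 24 * n ^ 8 := by ring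
    rw [e]
    exact Nat.mul_le_mul_right _ (by norm_num)
  have h4 : 2 ^ 27 ≤ 2 ^ (27 * n) := Nat.pow_le_pow_right (by norm_num) (by omega)
  have h5 : 2 ^ (12 * n) * (6 * (64 * n ^ 2) ^ 4) ≤ 2 ^ (47 * n) := by
    calc 2 ^ (12 * n) * (6 * (64 * n ^ 2) ^ 4) ≤ 2 ^ (12 * n) * (2 ^ 27 * n ^ 8) :=
          Nat.mul_le_mul_left _ h3
      _ ≤ 2 ^ (12 * n) * (2 ^ (27 * n) * 2 ^ (8 * n)) :=
          Nat.mul_le_mul_left _ (Nat.mul_le_mul h4 h1)
      _ = 2 ^ (47 * n) := by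
          rw [← pow_add, ← pow_add]
          congr 1
          ring
  have h6 : 3 ≤ 2 ^ (47 * n) := by
    calc 3 ≤ 2 ^ 47 := by norm_num
      _ ≤ 2 ^ (47 * n) := Nat.pow_le_pow_right (by norm_num) (by omega)
  have h7 : 2 * 2 ^ (47 * n) ≤ 2 ^ (48 * n) := by
    rw [← pow_succ']
    exact Nat.pow_le_pow_right (by norm_num) (by omega)
  omega

theorem exc (F : Type) [Field F] [Finite F] (n : ℕ) (hn : 1 ≤ n) :
    ∃ E : Finset F, E.card ≤ 2 ^ (48 * n) ∧ 0 ∈ E ∧ 2 ∈ E ∧ -2 ∈ E ∧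
      ∀ u v : SL2 F, tr u ∉ E → tr v ≠ 0 → tr (u * v * u⁻¹ * v⁻¹) ≠ 2 →
        ∃ i : Fin 6, ∀ l l' : List Bool, l.length = n → l'.length = n →
          evw u v (wd i l) = evw u v (wd i l') → l = l' := by
  classical
  let B : (Fin 6 → (Fin n → Bool) × (Fin n → Bool)) → Set F := fun T =>
    {x0 : F | x0 ≠ 0 ∧ ∃ y0 z0 : F, y0 ≠ 0 ∧ kp x0 y0 z0 ≠ 0 ∧
      ∀ i j, co x0 y0 z0 (wd i (List.ofFn (T i).1)) j =
        co x0 y0 z0 (wd i (List.ofFn (T i).2)) j}
  let Et : (Fin 6 → (Fin n → Bool) × (Fin n → Bool)) → Finset F := fun T =>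
    if (∀ i, (T i).1 ≠ (T i).2) then (Set.toFinite (B T)).toFinset else ∅
  have hEt : ∀ T, (Et T).card ≤ 6 * (64 * n ^ 2) ^ 4 := by
    intro T
    by_cases hT : ∀ i, (T i).1 ≠ (T i).2
    · have h1 : Et T = (Set.toFinite (B T)).toFinset := if_pos hT
      rw [h1, ← Set.ncard_eq_toFinset_card]
      exact cnt n hn (fun i => (List.ofFn (T i).1, List.ofFn (T i).2))
        (fun i => ⟨List.length_ofFn, List.length_ofFn, fun h => hT i (List.ofFn_injective h)⟩)
    · have h1 : Et T = ∅ := if_neg hT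
      rw [h1, Finset.card_empty]
      exact Nat.zero_le _
  refine ⟨{0, 2, -2} ∪ Finset.univ.biUnion Et, ?_, ?_, ?_, ?_, ?_⟩
  · refine (Finset.card_union_le _ _).trans (le_trans ?_ (exc_num n hn))
    refine Nat.add_le_add (Finset.card_le_three) ?_
    have h1 := Finset.card_biUnion_le_card_mul
      (Finset.univ : Finset (Fin 6 → (Fin n → Bool) × (Fin n → Bool))) Et _ (fun T _ => hEt T)
    have h2 : (Finset.univ : Finset (Fin 6 → (Fin n → Bool) × (Fin n → Bool))).card =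
        2 ^ (12 * n) := by
      rw [Finset.card_univ]
      simp only [Fintype.card_fun, Fintype.card_fin, Fintype.card_prod, Fintype.card_bool]
      rw [← pow_add, ← pow_mul]
      congr 1
      ring
    rw [h2] at h1
    exact h1
  · simp
  · simp
  · simp
  · intro u v hu hv huv
    rw [Finset.mem_union, not_or] at hu
    by_contra hcon
    push Not at hcon
    choose l l' h1 h2 h3 h4 using hcon
    choose f hf using fun i => exc_ofFn (l i) (h1 i)
    choose f' hf' using fun i => exc_ofFn (l' i) (h2 i)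
    apply hu.2
    rw [Finset.mem_biUnion]
    refine ⟨fun i => (f i, f' i), Finset.mem_univ _, ?_⟩
    have hT : ∀ i, (f i, f' i).1 ≠ (f i, f' i).2 := by
      intro i h
      apply h4 i
      rw [← hf i, ← hf' i]
      exact congrArg List.ofFn h
    have h5 : Et (fun i => (f i, f' i)) = (Set.toFinite (B fun i => (f i, f' i))).toFinset :=
      if_pos hT
    rw [h5, Set.Finite.mem_toFinset]
    refine ⟨?_, tr v, tr (u * v), hv, ?_, ?_⟩
    · intro h
      apply hu.1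
      rw [h]
      simp
    · intro h
      apply huv
      rw [tr_comm]
      unfold kp at h
      linear_combination h
    · intro i j
      refine co_of_eq u v huv _ _ ?_ j
      dsimp only
      rw [hf i, hf' i]
      exact h3 i

end TRS
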