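import Pool.Agent.TRS.Defs
import Pool.Agent.Helper72.PF.Coef

/-!
# TRS-Four (0.9h)
An element is determined by its traces against an irreducible pair. PLAN. Let `X = g - g'` (matrix): `tr X = tr (u X) = tr (v X) = tr (u v X) = 0`: four linear equations for the four entries of `X`
whose determinant is, up to sign, `tr [u, v] - 2` (with `u = !![a, b; c, d]`, `v = !![e, f; g, h]`; the rows are the entries of `1, u, v, u v`). So
`(tr [u, v] - 2) * X i j = 0` for each entry by `linear_combination` (use `det u = det v = 1`; compare `co_of_eq` in `Helper72/PF/Coef.lean`, where the same determinant occurs; `linear_independence` of `1, u, v, u v`). Suggestion: first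
prove that a matrix `Y` with `Y = c₀ + c₁ u + c₂ v + c₃ u v` can be any of the four matrix units (invert the 4 × 4 matrix: its determinant is `±(tr [u,v] - 2)`), then `tr (Y X) = 0` for all `Y`, so `X = 0`.
-/

set_option autoImplicit false

namespace TRS

open Matrix Module Polynomial Pool.Agent.Helper72.TV Pool.Agent.Helper72.PT Pool.Agent.Helper72.PF

theorem four {F : Type*} [Field F] (u v : SL2 F) (h : tr (u * v * u⁻¹ * v⁻¹) ≠ 2) (g g' : SL2 F)
    (h0 : tr g = tr g') (h1 : tr (u * g) = tr (u * g')) (h2 : tr (v * g) = tr (v * g'))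
    (h3 : tr (u * v * g) = tr (u * v * g')) : g = g' := by
  have hA := det_eq u
  have hB := det_eq v
  obtain ⟨a, ha⟩ : ∃ a, a = (u : Matrix (Fin 2) (Fin 2) F) 0 0 := ⟨_, rfl⟩
  obtain ⟨b, hb⟩ : ∃ b, b = (u : Matrix (Fin 2) (Fin 2) F) 0 1 := ⟨_, rfl⟩
  obtain ⟨c, hc⟩ : ∃ c, c = (u : Matrix (Fin 2) (Fin 2) F) 1 0 := ⟨_, rfl⟩
  obtain ⟨d, hd⟩ : ∃ d, d = (u : Matrix (Fin 2) (Fin 2) F) 1 1 := ⟨_, rfl⟩
  obtain ⟨e, he⟩ : ∃ e, e = (v : Matrix (Fin 2) (Fin 2) F) 0 0 := ⟨_, rfl⟩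
  obtain ⟨f, hf⟩ : ∃ f, f = (v : Matrix (Fin 2) (Fin 2) F) 0 1 := ⟨_, rfl⟩
  obtain ⟨x, hx⟩ : ∃ x, x = (v : Matrix (Fin 2) (Fin 2) F) 1 0 := ⟨_, rfl⟩
  obtain ⟨k, hk⟩ : ∃ k, k = (v : Matrix (Fin 2) (Fin 2) F) 1 1 := ⟨_, rfl⟩
  rw [tr_comm] at h
  have htz : tr (u * v) = (a * e + b * x) + (c * f + d * k) := by
    rw [tr_eq, Matrix.SpecialLinearGroup.coe_mul, ha, hb, hc, hd, he, hf, hx, hk]
    simp [Matrix.mul_apply, Fin.sum_univ_two]
  rw [htz, tr_eq u, tr_eq v, ← ha, ← hd, ← he, ← hk] at h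
  rw [← ha, ← hb, ← hc, ← hd] at hA
  rw [← he, ← hf, ← hx, ← hk] at hB
  rw [tr_eq, tr_eq] at h0 h1 h2 h3
  simp only [Matrix.SpecialLinearGroup.coe_mul, Matrix.mul_apply, Fin.sum_univ_two, ← ha, ← hb,
    ← hc, ← hd, ← he, ← hf, ← hx, ← hk] at h1 h2 h3
  let M : Matrix (Fin 4) (Fin 4) F := !![1, a, e, a * e + b * x; 0, b, f, a * f + b * k;
    0, c, x, c * e + d * x; 1, d, k, c * f + d * k]
  have hdet : M.det = -((a + d) ^ 2 + (e + k) ^ 2 + ((a * e + b * x) + (c * f + d * k)) ^ 2 -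
      (a + d) * (e + k) * ((a * e + b * x) + (c * f + d * k)) - 2 - 2) := by
    have h1 : M.det = -((a + d) ^ 2 * (e * k - f * x) + (e + k) ^ 2 * (a * d - b * c) +
        ((a * e + b * x) + (c * f + d * k)) ^ 2 -
        (a + d) * (e + k) * ((a * e + b * x) + (c * f + d * k)) -
        4 * ((a * d - b * c) * (e * k - f * x))) := by
      simp only [M]
      rw [Matrix.det_succ_row_zero]
      simp [Fin.sum_univ_succ, Matrix.det_fin_three, Fin.succAbove, Matrix.submatrix]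
      ring
    rw [h1, hA, hB]
    ring
  have hdet0 : M.det ≠ 0 := by
    rw [hdet]
    intro h0
    apply h
    linear_combination (-1 : F) * h0
  obtain ⟨w, hw⟩ : ∃ w : Fin 4 → F, w = ![(g : Matrix (Fin 2) (Fin 2) F) 0 0 -
      (g' : Matrix (Fin 2) (Fin 2) F) 0 0, (g : Matrix (Fin 2) (Fin 2) F) 1 0 -
      (g' : Matrix (Fin 2) (Fin 2) F) 1 0, (g : Matrix (Fin 2) (Fin 2) F) 0 1 -
      (g' : Matrix (Fin 2) (Fin 2) F) 0 1, (g : Matrix (Fin 2) (Fin 2) F) 1 1 -
      (g' : Matrix (Fin 2) (Fin 2) F) 1 1] := ⟨_, rfl⟩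
  have hM : Matrix.vecMul w M = 0 := by
    funext i
    rw [hw]
    fin_cases i
    · simp [M, Matrix.vecMul, dotProduct, Fin.sum_univ_four]
      linear_combination h0
    · simp [M, Matrix.vecMul, dotProduct, Fin.sum_univ_four]
      linear_combination h1
    · simp [M, Matrix.vecMul, dotProduct, Fin.sum_univ_four]
      linear_combination h2
    · simp [M, Matrix.vecMul, dotProduct, Fin.sum_univ_four]
      linear_combination h3
  have h4 := Matrix.eq_zero_of_vecMul_eq_zero hdet0 hM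
  rw [hw] at h4
  have w0 := congrFun h4 0
  have w1 := congrFun h4 1
  have w2 := congrFun h4 2
  have w3 := congrFun h4 3
  simp [sub_eq_zero] at w0 w1 w2 w3
  ext i j
  fin_cases i <;> fin_cases j
  · exact w0
  · exact w2
  · exact w1
  · exact w3

end TRS
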