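import Pool.Agent.TRS.Defs
import Pool.Agent.Helper72.PF.Coef

/-!
# TRS-FourM (0.9h)
A matrix with four vanishing traces is zero. PLAN. With `u = !![a, b; c, d]`, `v = !![e, f; g, h]`, `X = !![p, q; r, s]`: four linear equations for `p, q, r, s` whose determinant is `±(tr [u, v] - 2)` modulo
`det u = det v = 1`. So `(tr [u, v] - 2) * p = 0` etc. by `linear_combination` with the cofactors (compare `co_of_eq` in `Helper72/PF/Coef.lean`, where the same determinant occurs).
-/

set_option autoImplicit false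

namespace TRS

open Matrix Module Pool.Agent.Helper72.TV Pool.Agent.Helper72.PT Pool.Agent.Helper72.PF
open scoped MatrixGroups

theorem fourM {F : Type*} [Field F] (u v : SL2 F) (h : tr (u * v * u⁻¹ * v⁻¹) ≠ 2)
    (X : Matrix (Fin 2) (Fin 2) F) (h0 : X.trace = 0)
    (h1 : ((u : Matrix (Fin 2) (Fin 2) F) * X).trace = 0)
    (h2 : ((v : Matrix (Fin 2) (Fin 2) F) * X).trace = 0)
    (h3 : ((u : Matrix (Fin 2) (Fin 2) F) * (v : Matrix (Fin 2) (Fin 2) F) * X).trace = 0) :
    X = 0 := by
  have hA := det_eq u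
  have hB := det_eq v
  rw [tr_comm] at h
  have htz : tr (u * v) = ((u : Matrix (Fin 2) (Fin 2) F) 0 0 * (v : Matrix (Fin 2) (Fin 2) F) 0 0 +
      (u : Matrix (Fin 2) (Fin 2) F) 0 1 * (v : Matrix (Fin 2) (Fin 2) F) 1 0) +
      ((u : Matrix (Fin 2) (Fin 2) F) 1 0 * (v : Matrix (Fin 2) (Fin 2) F) 0 1 +
      (u : Matrix (Fin 2) (Fin 2) F) 1 1 * (v : Matrix (Fin 2) (Fin 2) F) 1 1) := by
    rw [tr_eq, Matrix.SpecialLinearGroup.coe_mul]
    simp [Matrix.mul_apply, Fin.sum_univ_two]
  rw [htz, tr_eq u, tr_eq v] at h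
  simp only [Matrix.trace, Matrix.diag, Matrix.mul_apply, Fin.sum_univ_two] at h0 h1 h2 h3
  generalize (u : Matrix (Fin 2) (Fin 2) F) 0 0 = a at *
  generalize (u : Matrix (Fin 2) (Fin 2) F) 0 1 = b at *
  generalize (u : Matrix (Fin 2) (Fin 2) F) 1 0 = c at *
  generalize (u : Matrix (Fin 2) (Fin 2) F) 1 1 = d at *
  generalize (v : Matrix (Fin 2) (Fin 2) F) 0 0 = e at *
  generalize (v : Matrix (Fin 2) (Fin 2) F) 0 1 = f at *
  generalize (v : Matrix (Fin 2) (Fin 2) F) 1 0 = g at *
  generalize (v : Matrix (Fin 2) (Fin 2) F) 1 1 = k at *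
  let M : Matrix (Fin 4) (Fin 4) F := !![1, a, e, a * e + b * g; 0, b, f, a * f + b * k;
    0, c, g, c * e + d * g; 1, d, k, c * f + d * k]
  have hdet : M.det = -((a + d) ^ 2 + (e + k) ^ 2 + ((a * e + b * g) + (c * f + d * k)) ^ 2 -
      (a + d) * (e + k) * ((a * e + b * g) + (c * f + d * k)) - 2 - 2) := by
    have h1 : M.det = -((a + d) ^ 2 * (e * k - f * g) + (e + k) ^ 2 * (a * d - b * c) +
        ((a * e + b * g) + (c * f + d * k)) ^ 2 -
        (a + d) * (e + k) * ((a * e + b * g) + (c * f + d * k)) -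
        4 * ((a * d - b * c) * (e * k - f * g))) := by
      simp only [M]
      rw [Matrix.det_succ_row_zero]
      simp [Fin.sum_univ_succ, Matrix.det_fin_three, Fin.succAbove, Matrix.submatrix]
      ring
    rw [h1, hA, hB]
    ring
  have hdet0 : M.det ≠ 0 := by
    rw [hdet]
    intro h0
    apply h
    linear_combination (-1 : F) * h0
  have hM : Matrix.vecMul ![X 0 0, X 1 0, X 0 1, X 1 1] M = 0 := by
    funext i
    fin_cases i
    · simp [M, Matrix.vecMul, dotProduct, Fin.sum_univ_four]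
      linear_combination h0
    · simp [M, Matrix.vecMul, dotProduct, Fin.sum_univ_four]
      linear_combination h1
    · simp [M, Matrix.vecMul, dotProduct, Fin.sum_univ_four]
      linear_combination h2
    · simp [M, Matrix.vecMul, dotProduct, Fin.sum_univ_four]
      linear_combination h3
  have hx := Matrix.eq_zero_of_vecMul_eq_zero hdet0 hM
  ext i j
  have x0 := congrFun hx 0
  have x1 := congrFun hx 1
  have x2 := congrFun hx 2
  have x3 := congrFun hx 3
  simp at x0 x1 x2 x3
  fin_cases i <;> fin_cases j <;> simp [x0, x1, x2, x3]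

end TRS
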