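import Pool.Agent.TRS.Abs
import Pool.Agent.TRS.PrsS
import Pool.Agent.TRS.BoxP
import Pool.Agent.TRS.Irr
import Pool.Agent.TRS.TopP

/-!
# TRS-MainP
The theorem for `PGL₂(F)`, from `topP`, `irr`, `boxP`, `prsSq` and the abstract argument `absBC`.
-/

set_option autoImplicit false

namespace TRS

open Matrix Module Pool.Agent.Helper72.TV Pool.Agent.Helper72.PT Pool.Agent.Helper72.PF
open scoped MatrixGroups

private theorem short_mono {G : Type} [Group G] {S : Set G} {L L' : ℝ} (h : L ≤ L')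
    (hS : Short S L) : Short S L' := by
  intro g
  obtain ⟨m, hm, hmL⟩ := hS g
  exact ⟨m, hm, hmL.trans h⟩

private theorem chi_toPGL (F : Type) [Field F] (u : SL2 F) :
    chi F (Matrix.SpecialLinearGroup.toPGL u) = tr u ^ 2 := by
  have h := chi_mk F (Matrix.SpecialLinearGroup.toGL u)
  have h2 : ((Matrix.SpecialLinearGroup.toGL u).val).det = 1 := u.2
  rw [h2, div_one] at h
  exact h

private theorem finite_pgl (F : Type) [Field F] [Fintype F] : Finite PGL(2, F) := by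
  have : Finite (GL (Fin 2) F) := inferInstance
  exact Finite.of_surjective _ (Matrix.ProjGenLinGroup.mk_surjective (n := Fin 2) (R := F))

private theorem smallP {F : Type} [Field F] [Fintype F] (hF : Fintype.card F < 100) (n : ℕ)
    (hn : 1 ≤ n) : (Nat.card PGL(2, F) : ℝ) ≤ (2 : ℝ) ^ (200 * n) := by
  rw [card_pgl]
  have h1 : Nat.card (SL2 F) ≤ 2 ^ (200 * n) := by
    calc Nat.card (SL2 F) ≤ Fintype.card F ^ 4 := card_sl_le
      _ ≤ 100 ^ 4 := Nat.pow_le_pow_left hF.le 4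
      _ ≤ 2 ^ 200 := by norm_num
      _ ≤ 2 ^ (200 * n) := Nat.pow_le_pow_right (by norm_num) (by omega)
  exact_mod_cast h1

private theorem prsP {F : Type} [Field F] [Fintype F] (T : Finset F) :
    {p : PGL(2, F) × PGL(2, F) | (∃ u' v' : SL2 F, Matrix.SpecialLinearGroup.toPGL u' = p.1 ∧
        Matrix.SpecialLinearGroup.toPGL v' = p.2 ∧ tr (u' * v' * u'⁻¹ * v'⁻¹) ≠ 2) ∧
      chi F p.1 ∈ T ∧ chi F p.2 ∈ T ∧ chi F (p.1 * p.2) ∈ T}.ncard ≤
      64 * Nat.card PGL(2, F) * T.card ^ 3 := by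
  rw [card_pgl]
  refine le_trans ?_ (prsSq T)
  refine le_trans (Set.ncard_le_ncard ?_ (Set.toFinite _)) (Set.ncard_image_le
    (f := fun p : SL2 F × SL2 F => ((Matrix.SpecialLinearGroup.toPGL p.1,
      Matrix.SpecialLinearGroup.toPGL p.2) : PGL(2, F) × PGL(2, F))) (Set.toFinite _))
  rintro ⟨x, y⟩ ⟨⟨u, v, hu, hv, huv⟩, h1, h2, h3⟩
  simp only at hu hv h1 h2 h3
  subst hu
  subst hv
  refine ⟨(u, v), ⟨huv, ?_, ?_, ?_⟩, rfl⟩
  · rw [← chi_toPGL]
    exact h1
  · rw [← chi_toPGL]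
    exact h2
  · rw [← chi_toPGL, map_mul]
    exact h3

theorem mainP : ∃ C : ℝ, 0 < C ∧ ∀ (F : Type) [Field F] [Fintype F] (n : ℕ), 1 ≤ n →
    (n : ℝ) ≤ Real.log (Nat.card PGL(2, F)) →
    Claim PGL(2, F) (chi F)
      (C * (Real.log (Nat.card PGL(2, F)) ^ 9 / (n : ℝ) ^ 8)) ((2 : ℝ) ^ (200 * n)) := by
  obtain ⟨C₀, hC₀, htop⟩ := topP
  obtain ⟨N, hN1, hirr⟩ := irr
  refine ⟨C₀ * ((2 * (N * 3) + 1 : ℕ) : ℝ), by positivity, ?_⟩
  intro F _ _ n hn hlog
  have := finite_pgl F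
  have hGpos : 1 ≤ Nat.card PGL(2, F) := Nat.card_pos
  have hlog' : (n : ℝ) ≤ Real.log (Nat.card (SL2 F)) := by
    rw [← card_pgl]
    exact hlog
  obtain ⟨E, hE, hall⟩ := htop F n hn hlog'
  rw [← card_pgl] at hall
  have hX0 : (0 : ℝ) ≤ Real.log (Nat.card PGL(2, F)) ^ 9 / (n : ℝ) ^ 8 :=
    div_nonneg (pow_nonneg (Real.log_natCast_nonneg _) 9) (by positivity)
  have hM : E.card ≤ 2 ^ (200 * n) := hE.trans (Nat.pow_le_pow_right (by norm_num) (by omega))
  refine ⟨⟨E, by exact_mod_cast hM, ?_⟩, ?_⟩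
  · rintro S hS ⟨s, hs, hsE⟩
    refine short_mono ?_ (hall S hS 1 s le_rfl (mem_words_one hs) hsE)
    refine mul_le_mul_of_nonneg_right (mul_le_mul_of_nonneg_left ?_ hC₀.le) hX0
    exact_mod_cast (by omega : 1 ≤ 2 * (N * 3) + 1)
  by_cases hF : Fintype.card F < 100
  · have hsm := smallP hF n hn
    refine ⟨?_, {Set.univ}, ?_, ?_, ?_⟩
    · intro S _
      refine le_trans ?_ hsm
      exact_mod_cast (Set.ncard_le_card _ : _ ≤ Nat.card PGL(2, F))
    · rw [Set.ncard_singleton]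
      have h1 : (1 : ℝ) ≤ (Nat.card PGL(2, F) : ℝ) := by exact_mod_cast hGpos
      have h2 : (1 : ℝ) ≤ (2 : ℝ) ^ (200 * n) := one_le_pow₀ (by norm_num)
      push_cast
      nlinarith
    · intro B hB
      rw [Set.mem_singleton_iff] at hB
      rw [hB, Set.ncard_univ]
      exact hsm
    · intro S _ _
      exact ⟨Set.univ, rfl, Set.subset_univ _⟩
  · have hF' : 100 ≤ Nat.card F := by
      rw [Nat.card_eq_fintype_card]
      omega
    obtain ⟨hb, A, hA1, hA2, hA3⟩ := absBC (G := PGL(2, F)) (chi F)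
      (fun u v => ∃ u' v' : SL2 F, Matrix.SpecialLinearGroup.toPGL u' = u ∧
        Matrix.SpecialLinearGroup.toPGL v' = v ∧ tr (u' * v' * u'⁻¹ * v'⁻¹) ≠ 2)
      E (N * 3) 64 (by omega)
      (C₀ * ((2 * (N * 3) + 1 : ℕ) : ℝ) * (Real.log (Nat.card PGL(2, F)) ^ 9 / (n : ℝ) ^ 8))
      (fun S hS w hw hwE => hall S hS (2 * (N * 3) + 1) w (by omega) hw hwE)
      (fun S hS => by
        obtain ⟨u, v, hu, hv, huv⟩ := hirr F hF' _ (sch S hS)
        exact ⟨Matrix.SpecialLinearGroup.toPGL u, Matrix.SpecialLinearGroup.toPGL v,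
          map_mem_words _ (fun z hz => hz) hu, map_mem_words _ (fun z hz => hz) hv,
          u, v, rfl, rfl, huv⟩)
      (fun u v huv => by
        obtain ⟨u', v', rfl, rfl, h⟩ := huv
        exact (boxP u' v' h E).trans (Nat.mul_le_mul_right _ (by norm_num)))
      (prsP E)
    have e4 : 64 * E.card ^ 4 ≤ 2 ^ (200 * n) := by
      calc 64 * E.card ^ 4 ≤ 64 * (2 ^ (48 * n)) ^ 4 :=
            Nat.mul_le_mul_left _ (Nat.pow_le_pow_left hE 4)
        _ = 2 ^ (6 + 48 * n * 4) := by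
            rw [pow_add, ← pow_mul]
            norm_num
        _ ≤ 2 ^ (200 * n) := Nat.pow_le_pow_right (by norm_num) (by omega)
    have e3 : 64 * Nat.card PGL(2, F) * E.card ^ 3 ≤ Nat.card PGL(2, F) * 2 ^ (200 * n) := by
      calc 64 * Nat.card PGL(2, F) * E.card ^ 3 ≤ 64 * Nat.card PGL(2, F) * (2 ^ (48 * n)) ^ 3 :=
            Nat.mul_le_mul_left _ (Nat.pow_le_pow_left hE 3)
        _ = Nat.card PGL(2, F) * 2 ^ (6 + 48 * n * 3) := by
            rw [pow_add, ← pow_mul]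
            ring
        _ ≤ Nat.card PGL(2, F) * 2 ^ (200 * n) :=
            Nat.mul_le_mul_left _ (Nat.pow_le_pow_right (by norm_num) (by omega))
    refine ⟨?_, A, ?_, ?_, hA3⟩
    · intro S hS
      exact_mod_cast (hb S hS).trans e4
    · exact_mod_cast hA1.trans e3
    · intro B hB
      exact_mod_cast (hA2 B hB).trans e4

end TRS
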