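import Pool.Agent.TRS.Top

/-!
# TRS-Scal (0.5h)
Part (a) for short words instead of elements of the generating set: if `S` is a generating set with an element not a word of length `≤ L` then all words of length `≤ ℓ` have exceptional traces. PLAN. Apply `top` to
`S' = S ∪ {w}`, i.e. `insert w S`, `w ∈ Words S ℓ`, `1 ≤ ℓ`: it generates, contains `w`; a word of length `m` in `insert w S` is a word of length `m ℓ` in `S` (`map_mem_words (MonoidHom.id _)`).
-/

set_option autoImplicit false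

namespace TRS

open Matrix Module Polynomial Pool.Agent.Helper72.TV Pool.Agent.Helper72.PT Pool.Agent.Helper72.PF

theorem scal : ∃ C : ℝ, 0 < C ∧ ∀ (F : Type) [Field F] [Fintype F] (n : ℕ), 1 ≤ n →
    (n : ℝ) ≤ Real.log (Nat.card (SL2 F)) → ∃ E : Finset F, E.card ≤ 2 ^ (48 * n) ∧
      ∀ S : Set (SL2 F), Subgroup.closure S = ⊤ → ∀ (ℓ : ℕ) (w : SL2 F), 1 ≤ ℓ →
      w ∈ Words S ℓ → tr w ∉ E →
      ∀ g : SL2 F, ∃ m : ℕ, g ∈ Words S m ∧
        (m : ℝ) ≤ C * ℓ * (Real.log (Nat.card (SL2 F)) ^ 9 / (n : ℝ) ^ 8) := by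
  obtain ⟨C, hC, htop⟩ := top
  refine ⟨C, hC, fun F _ _ n hn hlog => ?_⟩
  obtain ⟨E, hE, hall⟩ := htop F n hn hlog
  refine ⟨E, hE, fun S hS ℓ w hℓ hw hwE g => ?_⟩
  have hS' : Subgroup.closure (insert w S) = ⊤ := by
    rw [eq_top_iff, ← hS]
    exact Subgroup.closure_mono (Set.subset_insert _ _)
  obtain ⟨m, hm, hmle⟩ := hall (insert w S) hS' ⟨w, Set.mem_insert _ _, hwE⟩ g
  have hlet : ∀ z ∈ insert w S, (MonoidHom.id (SL2 F)) z ∈ Words S ℓ := by
    intro z hz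
    rcases Set.mem_insert_iff.mp hz with rfl | hz
    · exact hw
    · exact words_mono hℓ (mem_words_one hz)
  have h1 : g ∈ Words S (m * ℓ) := map_mem_words (MonoidHom.id (SL2 F)) hlet hm
  refine ⟨m * ℓ, h1, ?_⟩
  push_cast
  calc (m : ℝ) * ℓ ≤ (C * (Real.log (Nat.card (SL2 F)) ^ 9 / (n : ℝ) ^ 8)) * ℓ :=
        mul_le_mul_of_nonneg_right hmle (Nat.cast_nonneg _)
    _ = C * ℓ * (Real.log (Nat.card (SL2 F)) ^ 9 / (n : ℝ) ^ 8) := by ring

end TRS
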