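import Pool.Agent.TRS.Abs
import Pool.Agent.TRS.PrsS
import Pool.Agent.TRS.Box
import Pool.Agent.TRS.Irr
import Pool.Agent.TRS.Scal

/-!
# TRS-MainS (0.9h)
The theorem for `SL₂(F)`. PLAN. `C₀` from `scal`, `N` from `irr`. `C = C₀ (2 N + 1)` (and at least the constant needed for small fields). (a): `scal` with `ℓ = 1` (`mem_words_one`; monotone in `C`), `2 ^ (48 n) ≤ 2 ^ (200 n)`. (b), (c): if `card F ≥ 100`, `absBC` with
`χ = tr`, `R u v = (tr [u, v] ≠ 2)`, `T = E`, `K = 8`: `ha` is `scal` with `ℓ = 2 N + 1`, `h1` is `irr`, `h2` is `box` (`Nat.card`), `h3` is `prsS`; `8 * 2 ^ (192 n) ≤ 2 ^ (200 n)`, `8 |G| 2 ^ (144 n) ≤ |G| 2 ^ (200 n)`. If `card F < 100`: (b) the set has at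
most `|G| ≤ 100⁴ ≤ 2 ^ (200 n)` elements (`card_sl_le`), (c) `A = {univ}`.
-/

set_option autoImplicit false

namespace TRS

open Matrix Module Pool.Agent.Helper72.TV Pool.Agent.Helper72.PT Pool.Agent.Helper72.PF
open scoped MatrixGroups

private theorem ms_pow4 (n e : ℕ) (hn : 1 ≤ n) (he : e ≤ 2 ^ (48 * n)) :
    8 * e ^ 4 ≤ 2 ^ (200 * n) := by
  calc 8 * e ^ 4 ≤ 2 ^ (8 * n) * (2 ^ (48 * n)) ^ 4 := by
        refine Nat.mul_le_mul ?_ (Nat.pow_le_pow_left he 4)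
        calc 8 = 2 ^ 3 := by norm_num
          _ ≤ 2 ^ (8 * n) := Nat.pow_le_pow_right (by norm_num) (by omega)
    _ = 2 ^ (200 * n) := by
        rw [← pow_mul, ← pow_add]
        congr 1
        ring

private theorem ms_pow3 (n e : ℕ) (hn : 1 ≤ n) (he : e ≤ 2 ^ (48 * n)) :
    8 * e ^ 3 ≤ 2 ^ (200 * n) := by
  calc 8 * e ^ 3 ≤ 2 ^ (8 * n) * (2 ^ (48 * n)) ^ 3 := by
        refine Nat.mul_le_mul ?_ (Nat.pow_le_pow_left he 3)
        calc 8 = 2 ^ 3 := by norm_num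
          _ ≤ 2 ^ (8 * n) := Nat.pow_le_pow_right (by norm_num) (by omega)
    _ = 2 ^ (152 * n) := by
        rw [← pow_mul, ← pow_add]
        congr 1
        ring
    _ ≤ 2 ^ (200 * n) := Nat.pow_le_pow_right (by norm_num) (by omega)

theorem mainS : ∃ C : ℝ, 0 < C ∧ ∀ (F : Type) [Field F] [Fintype F] (n : ℕ), 1 ≤ n →
    (n : ℝ) ≤ Real.log (Nat.card (SL2 F)) →
    Claim (SL2 F) (fun g => (g : Matrix (Fin 2) (Fin 2) F).trace)
      (C * (Real.log (Nat.card (SL2 F)) ^ 9 / (n : ℝ) ^ 8)) ((2 : ℝ) ^ (200 * n)) := by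
  obtain ⟨C₀, hC₀, hscal⟩ := scal
  obtain ⟨N, hN, hirr⟩ := irr
  refine ⟨C₀ * ((2 * N + 1 : ℕ) : ℝ), by positivity, ?_⟩
  intro F _ _ n hn hlog
  obtain ⟨E, hE, hall⟩ := hscal F n hn hlog
  have hn' : (1 : ℝ) ≤ n := by exact_mod_cast hn
  obtain ⟨X, hX⟩ : ∃ X : ℝ, X = Real.log (Nat.card (SL2 F)) ^ 9 / (n : ℝ) ^ 8 := ⟨_, rfl⟩
  have hX0 : 0 ≤ X := by
    rw [hX]
    have : 0 ≤ Real.log (Nat.card (SL2 F)) := by linarith
    positivity
  rw [← hX] at hall ⊢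
  have hℓ : (1 : ℝ) ≤ ((2 * N + 1 : ℕ) : ℝ) := by
    have : 1 ≤ 2 * N + 1 := by omega
    exact_mod_cast this
  have hshort : ∀ S : Set (SL2 F), Subgroup.closure S = ⊤ → ∀ w ∈ Words S (2 * N + 1),
      tr w ∉ E → Short S (C₀ * ((2 * N + 1 : ℕ) : ℝ) * X) := by
    intro S hS w hw hwE g
    exact hall S hS (2 * N + 1) w (by omega) hw hwE g
  have hM48 : (2 : ℝ) ^ (48 * n) ≤ 2 ^ (200 * n) :=
    pow_le_pow_right₀ (by norm_num) (by omega)
  refine ⟨⟨E, ?_, ?_⟩, ?_⟩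
  · refine le_trans ?_ hM48
    exact_mod_cast hE
  · rintro S hS ⟨s, hs, hsE⟩
    exact hshort S hS s (words_mono (by omega) (mem_words_one hs)) hsE
  · rcases Nat.lt_or_ge (Nat.card F) 100 with hF | hF
    · have hG : Nat.card (SL2 F) ≤ 2 ^ (200 * n) := by
        have h1 : Nat.card (SL2 F) ≤ Fintype.card F ^ 4 := card_sl_le
        rw [Nat.card_eq_fintype_card] at hF
        calc Nat.card (SL2 F) ≤ Fintype.card F ^ 4 := h1
          _ ≤ 100 ^ 4 := Nat.pow_le_pow_left hF.le 4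
          _ ≤ 2 ^ 200 := by norm_num
          _ ≤ 2 ^ (200 * n) := Nat.pow_le_pow_right (by norm_num) (by omega)
      have hG' : ((Nat.card (SL2 F) : ℕ) : ℝ) ≤ 2 ^ (200 * n) := by exact_mod_cast hG
      have hset : ∀ B : Set (SL2 F), ((B.ncard : ℕ) : ℝ) ≤ 2 ^ (200 * n) := by
        intro B
        refine le_trans ?_ hG'
        have h2 : B.ncard ≤ Nat.card (SL2 F) := by
          rw [← Set.ncard_univ]
          exact Set.ncard_le_ncard (Set.subset_univ B) (Set.toFinite _)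
        exact_mod_cast h2
      refine ⟨fun S _ => hset _, {Set.univ}, ?_, fun B _ => hset B, ?_⟩
      · rw [Set.ncard_singleton, Nat.cast_one]
        have h3 : (1 : ℝ) ≤ Nat.card (SL2 F) := by
          exact_mod_cast Nat.card_pos
        have h4 : (1 : ℝ) ≤ 2 ^ (200 * n) := one_le_pow₀ (by norm_num)
        nlinarith
      · intro S _ _
        exact ⟨Set.univ, rfl, Set.subset_univ S⟩
    · obtain ⟨h1, A, h2, h3, h4⟩ := absBC (G := SL2 F) (F := F) tr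
        (fun u v => tr (u * v * u⁻¹ * v⁻¹) ≠ 2) E N 8 hN (C₀ * ((2 * N + 1 : ℕ) : ℝ) * X)
        hshort (hirr F hF)
        (fun u v huv => (box u v huv E).trans (Nat.le_mul_of_pos_left _ (by norm_num)))
        (prsS E)
      have hp4 := ms_pow4 n E.card hn hE
      have hp3 := ms_pow3 n E.card hn hE
      refine ⟨fun S hS => ?_, A, ?_, fun B hB => ?_, h4⟩
      · exact_mod_cast (h1 S hS).trans hp4
      · have h5 : A.ncard ≤ Nat.card (SL2 F) * 2 ^ (200 * n) := by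
          refine h2.trans ?_
          calc 8 * Nat.card (SL2 F) * E.card ^ 3 = Nat.card (SL2 F) * (8 * E.card ^ 3) := by ring
            _ ≤ _ := Nat.mul_le_mul_left _ hp3
        exact_mod_cast h5
      · exact_mod_cast (h3 B hB).trans hp4

end TRS
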