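import Pool.Agent.TRS.Defs
import Pool.Agent.Helper72.PF.Coef

/-!
# TRS-Prs (1.4h)
The number of pairs with given traces. The pairs are split according to the entries `a 1 0`, `b 1 0`; in the basis `e, a e` the second matrix is a root
of a monic quadratic equation.
-/

set_option autoImplicit false

namespace TRS

open Matrix Module Polynomial Pool.Agent.Helper72.TV Pool.Agent.Helper72.PT Pool.Agent.Helper72.PF

private theorem prs_quad {F : Type} [Field F] {B C s1 s2 s3 : F} (h1 : s1 ^ 2 + B * s1 + C = 0)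
    (h2 : s2 ^ 2 + B * s2 + C = 0) (h3 : s3 ^ 2 + B * s3 + C = 0) (h12 : s1 ≠ s2)
    (h13 : s1 ≠ s3) : s2 = s3 := by
  have e1 : (s1 - s2) * (s1 + s2 + B) = 0 := by linear_combination h1 - h2
  have e2 : (s1 - s3) * (s1 + s3 + B) = 0 := by linear_combination h1 - h3
  have f1 := (mul_eq_zero.1 e1).resolve_left (sub_ne_zero.2 h12)
  have f2 := (mul_eq_zero.1 e2).resolve_left (sub_ne_zero.2 h13)
  linear_combination f1 - f2

open Classical in
private noncomputable def prsT {F : Type} [Field F] [Fintype F] (x y z : F) : Finset (F × F) :=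
  Finset.univ.filter
    (fun v => v.2 ^ 2 + (x * v.1 - y) * v.2 + (v.1 ^ 2 + (z - x * y) * v.1 + 1) = 0)

private theorem mem_prsT {F : Type} [Field F] [Fintype F] {x y z : F} {v : F × F} :
    v ∈ prsT x y z ↔
      v.2 ^ 2 + (x * v.1 - y) * v.2 + (v.1 ^ 2 + (z - x * y) * v.1 + 1) = 0 := by
  classical
  unfold prsT
  rw [Finset.mem_filter]
  exact ⟨fun h => h.2, fun h => ⟨Finset.mem_univ _, h⟩⟩

private theorem card_prsT {F : Type} [Field F] [Fintype F] (x y z : F) :
    (prsT x y z).card ≤ 2 * Fintype.card F := by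
  classical
  have h := Finset.card_le_mul_card_image_of_maps_to (s := prsT x y z)
    (t := (Finset.univ : Finset F)) (f := fun v => v.1) (fun _ _ => Finset.mem_univ _) 2 (by
      intro t _
      by_contra hc
      rw [not_le, Finset.two_lt_card] at hc
      obtain ⟨a, ha, b, hb, c, hc, hab, hac, hbc⟩ := hc
      obtain ⟨a1, a2⟩ := a
      obtain ⟨b1, b2⟩ := b
      obtain ⟨c1, c2⟩ := c
      rw [Finset.mem_filter, mem_prsT] at ha hb hc
      obtain ⟨ha, rfl⟩ := ha
      obtain ⟨hb, hb'⟩ := hb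
      obtain ⟨hc, hc'⟩ := hc
      have hb1 : b1 = a1 := hb'
      have hc1 : c1 = a1 := hc'
      subst hb1
      subst hc1
      apply hbc
      have h1 := prs_quad ha hb hc (fun h => hab (Prod.ext rfl h)) (fun h => hac (Prod.ext rfl h))
      exact Prod.ext rfl h1)
  rw [Finset.card_univ] at h
  exact h

private theorem prs_finite (F : Type) [Field F] [Fintype F] : Finite (SL2 F) :=
  Finite.of_injective (fun g : SL2 F => (g : Matrix (Fin 2) (Fin 2) F)) Subtype.coe_injective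

private theorem prs_one {F : Type} [Field F] [Fintype F] (x y z : F) :
    {p : SL2 F × SL2 F | (tr p.1 = x ∧ tr p.2 = y ∧ tr (p.1 * p.2) = z) ∧
      (p.1 : Matrix (Fin 2) (Fin 2) F) 1 0 ≠ 0}.ncard ≤ 2 * Fintype.card F ^ 3 := by
  classical
  have h1 := Set.ncard_le_ncard_of_injOn
    (s := {p : SL2 F × SL2 F | (tr p.1 = x ∧ tr p.2 = y ∧ tr (p.1 * p.2) = z) ∧
      (p.1 : Matrix (Fin 2) (Fin 2) F) 1 0 ≠ 0})
    (t := (((Finset.univ : Finset (F × F)) ×ˢ prsT x y z : Finset ((F × F) × (F × F))) :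
      Set ((F × F) × (F × F))))
    (fun p => (((p.1 : Matrix (Fin 2) (Fin 2) F) 0 0, (p.1 : Matrix (Fin 2) (Fin 2) F) 1 0),
      ((p.2 : Matrix (Fin 2) (Fin 2) F) 1 0 / (p.1 : Matrix (Fin 2) (Fin 2) F) 1 0,
        (p.2 : Matrix (Fin 2) (Fin 2) F) 0 0 -
          (p.2 : Matrix (Fin 2) (Fin 2) F) 1 0 / (p.1 : Matrix (Fin 2) (Fin 2) F) 1 0 *
            (p.1 : Matrix (Fin 2) (Fin 2) F) 0 0))) ?_ ?_ (Finset.finite_toSet _)
  · refine h1.trans ?_
    rw [Set.ncard_coe_finset, Finset.card_product, Finset.card_univ, Fintype.card_prod]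
    have h2 := card_prsT x y z
    calc Fintype.card F * Fintype.card F * (prsT x y z).card ≤
        Fintype.card F * Fintype.card F * (2 * Fintype.card F) := Nat.mul_le_mul_left _ h2
      _ = 2 * Fintype.card F ^ 3 := by ring
  · rintro ⟨a, b⟩ ⟨⟨hx, hy, hz⟩, hw⟩
    rw [Finset.mem_coe, Finset.mem_product]
    refine ⟨Finset.mem_univ _, ?_⟩
    rw [mem_prsT]
    rw [tr_eq] at hx hy hz
    rw [Matrix.SpecialLinearGroup.coe_mul, Matrix.mul_apply, Matrix.mul_apply, Fin.sum_univ_two,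
      Fin.sum_univ_two] at hz
    have da := det_eq a
    have db := det_eq b
    simp only at hx hy hz hw ⊢
    generalize (a : Matrix (Fin 2) (Fin 2) F) 0 0 = p at *
    generalize (a : Matrix (Fin 2) (Fin 2) F) 0 1 = r at *
    generalize (a : Matrix (Fin 2) (Fin 2) F) 1 0 = w at *
    generalize (a : Matrix (Fin 2) (Fin 2) F) 1 1 = p' at *
    generalize (b : Matrix (Fin 2) (Fin 2) F) 0 0 = e at *
    generalize (b : Matrix (Fin 2) (Fin 2) F) 0 1 = f at *
    generalize (b : Matrix (Fin 2) (Fin 2) F) 1 0 = g at *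
    generalize (b : Matrix (Fin 2) (Fin 2) F) 1 1 = h at *
    obtain ⟨t, rfl⟩ : ∃ t, g = t * w := ⟨g / w, by field_simp⟩
    have ht : t * w / w = t := by field_simp
    rw [ht]
    subst hx
    subst hy
    subst hz
    linear_combination (- t ^ 2) * da - db
  · rintro ⟨a, b⟩ ⟨⟨hx, hy, hz⟩, hw⟩ ⟨a', b'⟩ ⟨⟨hx', hy', hz'⟩, hw'⟩ heq
    rw [tr_eq] at hx hy hz hx' hy' hz'
    rw [Matrix.SpecialLinearGroup.coe_mul, Matrix.mul_apply, Matrix.mul_apply, Fin.sum_univ_two,
      Fin.sum_univ_two] at hz hz'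
    have da := det_eq a
    have da' := det_eq a'
    simp only [Prod.mk.injEq] at hx hy hz hw hx' hy' hz' hw' heq
    obtain ⟨⟨h00, h10⟩, ht, hs⟩ := heq
    have h11 : (a : Matrix (Fin 2) (Fin 2) F) 1 1 = (a' : Matrix (Fin 2) (Fin 2) F) 1 1 := by
      linear_combination hx - hx' - h00
    have h01 : (a : Matrix (Fin 2) (Fin 2) F) 0 1 = (a' : Matrix (Fin 2) (Fin 2) F) 0 1 := by
      rw [h00, h11, h10] at da
      apply mul_right_cancel₀ hw'
      linear_combination da' - da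
    have g10 : (b : Matrix (Fin 2) (Fin 2) F) 1 0 = (b' : Matrix (Fin 2) (Fin 2) F) 1 0 := by
      rw [h10, div_left_inj' hw'] at ht
      exact ht
    have g00 : (b : Matrix (Fin 2) (Fin 2) F) 0 0 = (b' : Matrix (Fin 2) (Fin 2) F) 0 0 := by
      rw [g10, h10, h00] at hs
      linear_combination hs
    have g11 : (b : Matrix (Fin 2) (Fin 2) F) 1 1 = (b' : Matrix (Fin 2) (Fin 2) F) 1 1 := by
      linear_combination hy - hy' - g00
    have g01 : (b : Matrix (Fin 2) (Fin 2) F) 0 1 = (b' : Matrix (Fin 2) (Fin 2) F) 0 1 := by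
      rw [h00, h11, h10, h01, g00, g10, g11] at hz
      apply mul_left_cancel₀ hw'
      linear_combination hz - hz'
    have ea : a = a' := by
      apply Subtype.ext
      ext i j
      fin_cases i <;> fin_cases j
      · exact h00
      · exact h01
      · exact h10
      · exact h11
    have eb : b = b' := by
      apply Subtype.ext
      ext i j
      fin_cases i <;> fin_cases j
      · exact g00
      · exact g01
      · exact g10
      · exact g11
    rw [ea, eb]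

theorem pairCount {F : Type} [Field F] [Fintype F] (x y z : F) (hk : kp x y z ≠ 0) :
    {p : SL2 F × SL2 F | tr p.1 = x ∧ tr p.2 = y ∧ tr (p.1 * p.2) = z}.ncard ≤
      4 * Fintype.card F ^ 3 := by
  have := prs_finite F
  have h1 := prs_one x y z
  have h2 := prs_one y x z
  have h3 : {p : SL2 F × SL2 F | (tr p.1 = x ∧ tr p.2 = y ∧ tr (p.1 * p.2) = z) ∧
      (p.2 : Matrix (Fin 2) (Fin 2) F) 1 0 ≠ 0}.ncard ≤
      {p : SL2 F × SL2 F | (tr p.1 = y ∧ tr p.2 = x ∧ tr (p.1 * p.2) = z) ∧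
      (p.1 : Matrix (Fin 2) (Fin 2) F) 1 0 ≠ 0}.ncard := by
    refine Set.ncard_le_ncard_of_injOn Prod.swap ?_ ?_ (Set.toFinite _)
    · rintro ⟨a, b⟩ ⟨⟨hx, hy, hz⟩, hw⟩
      exact ⟨⟨hy, hx, by rw [← hz]; exact tr_mul_comm _ _⟩, hw⟩
    · intro p _ p' _ h
      exact Prod.swap_injective h
  have h4 : {p : SL2 F × SL2 F | tr p.1 = x ∧ tr p.2 = y ∧ tr (p.1 * p.2) = z} ⊆
      {p : SL2 F × SL2 F | (tr p.1 = x ∧ tr p.2 = y ∧ tr (p.1 * p.2) = z) ∧
      (p.1 : Matrix (Fin 2) (Fin 2) F) 1 0 ≠ 0} ∪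
      {p : SL2 F × SL2 F | (tr p.1 = x ∧ tr p.2 = y ∧ tr (p.1 * p.2) = z) ∧
      (p.2 : Matrix (Fin 2) (Fin 2) F) 1 0 ≠ 0} := by
    rintro ⟨a, b⟩ ⟨hx, hy, hz⟩
    by_cases hw : (a : Matrix (Fin 2) (Fin 2) F) 1 0 = 0
    · by_cases hg : (b : Matrix (Fin 2) (Fin 2) F) 1 0 = 0
      · exfalso
        apply hk
        rw [tr_eq] at hx hy hz
        rw [Matrix.SpecialLinearGroup.coe_mul, Matrix.mul_apply, Matrix.mul_apply,
          Fin.sum_univ_two, Fin.sum_univ_two] at hz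
        have da := det_eq a
        have db := det_eq b
        simp only at hx hy hz
        rw [hg, hw] at hz
        rw [hw] at da
        rw [hg] at db
        unfold kp
        subst hx
        subst hy
        subst hz
        linear_combination (2 - (b : Matrix (Fin 2) (Fin 2) F) 0 0 ^ 2 -
          (b : Matrix (Fin 2) (Fin 2) F) 1 1 ^ 2) * da +
          (2 - (a : Matrix (Fin 2) (Fin 2) F) 0 0 ^ 2 -
          (a : Matrix (Fin 2) (Fin 2) F) 1 1 ^ 2) * db
      · exact Or.inr ⟨⟨hx, hy, hz⟩, hg⟩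
    · exact Or.inl ⟨⟨hx, hy, hz⟩, hw⟩
  have h5 := Set.ncard_le_ncard h4 (Set.toFinite _)
  have h6 := Set.ncard_union_le {p : SL2 F × SL2 F | (tr p.1 = x ∧ tr p.2 = y ∧ tr (p.1 * p.2) = z) ∧
      (p.1 : Matrix (Fin 2) (Fin 2) F) 1 0 ≠ 0}
      {p : SL2 F × SL2 F | (tr p.1 = x ∧ tr p.2 = y ∧ tr (p.1 * p.2) = z) ∧
      (p.2 : Matrix (Fin 2) (Fin 2) F) 1 0 ≠ 0}
  omega

end TRS
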