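import Pool.Agent.TRS.Bal
import Pool.Agent.TRS.Dia

/-!
# TRS-Top (0.6h)
Part (a) of the theorem. PLAN. `N` from `bal`, `C` from `dia N` and `C3` from `finalE` (imported by `Dia`). If `card F ≥ 100`: `E` from `bal`; `dia`. If `card F < 100`: `E = ∅`, all generating sets: `finalE` gives
length `≤ C3 (log |G|) ^ 9`, and `n ≤ log |G| ≤ 4 log 100` (`card_sl_le`), so `(log |G|)^9 ≤ (4 log 100) ^ 8 * (log |G|) ^ 9 / n ^ 8`.
-/

set_option autoImplicit false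

namespace TRS

open Matrix Module Polynomial Pool.Agent.Helper72.TV Pool.Agent.Helper72.PT Pool.Agent.Helper72.PF

theorem top : ∃ C : ℝ, 0 < C ∧ ∀ (F : Type) [Field F] [Fintype F] (n : ℕ), 1 ≤ n →
    (n : ℝ) ≤ Real.log (Nat.card (SL2 F)) → ∃ E : Finset F, E.card ≤ 2 ^ (48 * n) ∧
      ∀ S : Set (SL2 F), Subgroup.closure S = ⊤ → (∃ s ∈ S, tr s ∉ E) →
      ∀ g : SL2 F, ∃ m : ℕ, g ∈ Words S m ∧
        (m : ℝ) ≤ C * (Real.log (Nat.card (SL2 F)) ^ 9 / (n : ℝ) ^ 8) := by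
  obtain ⟨N, hN, hbal⟩ := bal
  obtain ⟨C1, hC1, hdia⟩ := dia N hN
  obtain ⟨C3, hC3, hfin⟩ := finalE
  have hlog : 0 < Real.log 100 := Real.log_pos (by norm_num)
  refine ⟨C1 + C3 * (4 * Real.log 100) ^ 8, by positivity, ?_⟩
  intro F _ _ n hn hnl
  have hn0 : (0 : ℝ) < n := by
    have : 0 < n := hn
    exact_mod_cast this
  have hX : 0 ≤ Real.log (Nat.card (SL2 F)) ^ 9 / (n : ℝ) ^ 8 := by
    have hL : 0 ≤ Real.log (Nat.card (SL2 F)) := hn0.le.trans hnl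
    positivity
  by_cases hF : 100 ≤ Nat.card F
  · obtain ⟨E, hE1, -, -, hE⟩ := hbal F hF n hn
    refine ⟨E, hE1, fun S hS hs g => ?_⟩
    obtain ⟨s, hs1, hs2⟩ := hs
    obtain ⟨h1, h2⟩ := hE S hS
    obtain ⟨m, hm1, hm2⟩ := hdia F S hS h1 n hn hnl (h2 s hs1 hs2) g
    refine ⟨m, hm1, hm2.trans ?_⟩
    have h3 : 0 ≤ C3 * (4 * Real.log 100) ^ 8 := by positivity
    have h4 := mul_nonneg h3 hX
    linarith
  · refine ⟨∅, by rw [Finset.card_empty]; exact Nat.zero_le _, fun S hS _ g => ?_⟩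
    obtain ⟨m, hm1, hm2⟩ := hfin F S hS g
    refine ⟨m, hm1, hm2.trans ?_⟩
    have hL : 0 ≤ Real.log (Nat.card (SL2 F)) := hn0.le.trans hnl
    -- the number `n` is bounded
    have h1 : (n : ℝ) ≤ 4 * Real.log 100 := by
      refine hnl.trans ?_
      have h2 : Nat.card (SL2 F) ≤ 100 ^ 4 := by
        refine card_sl_le.trans (Nat.pow_le_pow_left ?_ 4)
        rw [← Nat.card_eq_fintype_card]
        omega
      have h3 : (0 : ℝ) < (Nat.card (SL2 F) : ℝ) := by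
        exact_mod_cast Nat.card_pos
      have h4 : (Nat.card (SL2 F) : ℝ) ≤ (100 : ℝ) ^ 4 := by
        exact_mod_cast h2
      have h5 := Real.log_le_log h3 h4
      rw [Real.log_pow] at h5
      exact_mod_cast h5
    have h2 : (n : ℝ) ^ 8 ≤ (4 * Real.log 100) ^ 8 := pow_le_pow_left₀ hn0.le h1 8
    have h3 : C3 * Real.log (Nat.card (SL2 F)) ^ 9 ≤
        C3 * (4 * Real.log 100) ^ 8 * (Real.log (Nat.card (SL2 F)) ^ 9 / (n : ℝ) ^ 8) := by
      have h4 : 1 ≤ (4 * Real.log 100) ^ 8 / (n : ℝ) ^ 8 := by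
        rw [le_div_iff₀ (by positivity), one_mul]
        exact h2
      have h5 : C3 * (4 * Real.log 100) ^ 8 * (Real.log (Nat.card (SL2 F)) ^ 9 / (n : ℝ) ^ 8) =
          C3 * Real.log (Nat.card (SL2 F)) ^ 9 * ((4 * Real.log 100) ^ 8 / (n : ℝ) ^ 8) := by
        ring
      rw [h5]
      exact le_mul_of_one_le_right (by positivity) h4
    have h4 := mul_nonneg hC1.le hX
    linarith

end TRS
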